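import Mathlib

set_option autoImplicit false
set_option linter.unusedSectionVars false
set_option linter.unusedVariables false

namespace Pool.Agent.H704R3
open Finset

section
variable {ι : Type*} [DecidableEq ι]

lemma pair_sum (Γ : Finset ι) (h : Finset ι → ι → ℝ) :
    ∑ σ ∈ Γ.powerset, ∑ i ∈ Γ \ σ, h (insert i σ) i = ∑ ρ ∈ Γ.powerset, ∑ i ∈ ρ, h ρ i := by
  rw [sum_sigma', sum_sigma']
  refine sum_bij' (fun x _ => ⟨insert x.2 x.1, x.2⟩) (fun x _ => ⟨x.1.erase x.2, x.2⟩) ?_ ?_ ?_ ?_ ?_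
  · rintro ⟨σ, i⟩ hx
    simp only [mem_sigma, mem_powerset, mem_sdiff] at hx ⊢
    exact ⟨insert_subset hx.2.1 hx.1, mem_insert_self i σ⟩
  · rintro ⟨ρ, i⟩ hx
    simp only [mem_sigma, mem_powerset, mem_sdiff] at hx ⊢
    exact ⟨(erase_subset i ρ).trans hx.1, hx.1 hx.2, notMem_erase i ρ⟩
  · rintro ⟨σ, i⟩ hx
    simp only [mem_sigma, mem_powerset, mem_sdiff] at hx
    simp only [erase_insert hx.2.2]
  · rintro ⟨ρ, i⟩ hx
    simp only [mem_sigma, mem_powerset] at hx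
    simp only [insert_erase hx.2]
  · rintro ⟨σ, i⟩ hx
    rfl

lemma TI_eq (Γ : Finset ι) (g : Finset ι → ℝ) :
    ∑ σ ∈ Γ.powerset, ∑ i ∈ Γ \ σ, (g σ - g (insert i σ)) =
      ∑ σ ∈ Γ.powerset, g σ * ((Γ.card:ℝ) - 2 * σ.card) := by
  have h1 := pair_sum Γ (fun ρ _ => g ρ)
  simp only [sum_sub_distrib]
  rw [h1, ← sum_sub_distrib]
  apply sum_congr rfl
  intro σ hσ
  rw [sum_const, sum_const, nsmul_eq_mul, nsmul_eq_mul, card_sdiff_of_subset (mem_powerset.mp hσ),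
    Nat.cast_sub (card_le_card (mem_powerset.mp hσ))]
  ring

lemma second_moment (Γ : Finset ι) : ∀ c : ℝ,
    ∑ σ ∈ Γ.powerset, (c + Γ.card - 2 * σ.card)^2 = 2^Γ.card * (c^2 + Γ.card) := by
  induction Γ using Finset.induction_on with
  | empty => intro c; simp
  | @insert a Γ ha ih =>
    intro c
    rw [sum_powerset_insert ha, card_insert_of_notMem ha]
    have h1 : ∀ σ ∈ Γ.powerset, (c + ((Γ.card+1:ℕ):ℝ) - 2 * (σ.card:ℝ))^2 =
        ((c+1) + Γ.card - 2 * σ.card)^2 := by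
      intro σ _; push_cast; ring
    have h2 : ∀ σ ∈ Γ.powerset, (c + ((Γ.card+1:ℕ):ℝ) - 2 * ((insert a σ).card:ℝ))^2 =
        ((c-1) + Γ.card - 2 * σ.card)^2 := by
      intro σ hσ
      rw [card_insert_of_notMem (fun h => ha (mem_powerset.mp hσ h))]
      push_cast; ring
    rw [sum_congr rfl h1, sum_congr rfl h2, ih, ih]
    push_cast
    ring

lemma abs_moment (Γ : Finset ι) (hΓ : 0 < Γ.card) :
    ∑ σ ∈ Γ.powerset, |(Γ.card:ℝ) - 2 * σ.card| ≤ 2^Γ.card * √(Γ.card:ℝ) := by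
  have hM : (0:ℝ) < Γ.card := by exact_mod_cast hΓ
  set r := √(Γ.card:ℝ) with hr
  have hr0 : 0 < r := Real.sqrt_pos.mpr hM
  have hr2 : r^2 = Γ.card := Real.sq_sqrt hM.le
  have h2 := second_moment Γ 0
  simp only [zero_add] at h2
  have hb : ∀ σ ∈ Γ.powerset, |(Γ.card:ℝ) - 2 * σ.card| ≤
      (((Γ.card:ℝ) - 2 * σ.card)^2 / r + r) / 2 := by
    intro σ _
    rw [le_div_iff₀ (by norm_num), ← sub_nonneg]
    have : ((Γ.card:ℝ) - 2 * σ.card)^2 / r + r - |(Γ.card:ℝ) - 2 * σ.card| * 2 =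
        (|(Γ.card:ℝ) - 2 * σ.card| - r)^2 / r := by
      rw [← sq_abs]; field_simp; ring
    rw [this]; positivity
  calc _ ≤ ∑ σ ∈ Γ.powerset, (((Γ.card:ℝ) - 2 * σ.card)^2 / r + r) / 2 := sum_le_sum hb
    _ = ((∑ σ ∈ Γ.powerset, ((Γ.card:ℝ) - 2 * σ.card)^2) / r + 2^Γ.card * r) / 2 := by
      rw [← sum_div, sum_add_distrib, ← sum_div, sum_const, card_powerset]; simp
    _ = (2^Γ.card * (0^2 + Γ.card) / r + 2^Γ.card * r) / 2 := by rw [← h2]
    _ = _ := by rw [← hr2]; field_simp; ring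

theorem cube (Γ : Finset ι) (hΓ : 0 < Γ.card) (A : Finset ι → ℕ) (Θ : Finset ι → ℝ)
    (E : Finset ι → Prop) [DecidablePred E] (ϑ e0 : ℝ) (hϑ : 0 ≤ ϑ) (he0 : 0 ≤ e0)
    (h1 : ∀ σ ⊆ Γ, ∀ i ∈ Γ \ σ, A (insert i σ) ≤ A σ)
    (h2 : ∀ σ ⊆ Γ, E σ → ∀ j ∈ σ, ∀ i ∈ Γ \ σ, A (insert i σ) + 1 ≤ A (σ.erase j))
    (h3 : ∀ σ ⊆ Γ, |Θ σ - Real.pi * A σ| ≤ e0)
    (h4 : ∀ σ ⊆ Γ, ∀ i ∈ Γ \ σ, Θ σ - Θ (insert i σ) ≤ ϑ) :
    (((Γ.powerset.filter E).card : ℕ) : ℝ) ≤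
      2^Γ.card * (3 * ϑ + 3 * e0 / √(Γ.card:ℝ) + 1 / Γ.card) := by
  have hM : (0:ℝ) < Γ.card := by exact_mod_cast hΓ
  set M : ℝ := (Γ.card:ℝ) with hMdef
  have hpi := Real.pi_gt_three
  have hsq : 0 < √M := Real.sqrt_pos.mpr hM
  have hsq2 : √M^2 = M := Real.sq_sqrt hM.le
  -- influences
  let Inf : Finset ι → ℝ := fun σ => ∑ j ∈ σ, ((A (σ.erase j) : ℝ) - A σ) +
    ∑ i ∈ Γ \ σ, ((A σ : ℝ) - A (insert i σ))
  have hmono : ∀ σ ⊆ Γ, ∀ j ∈ σ, (A σ : ℝ) ≤ A (σ.erase j) := by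
    intro σ hσ j hj
    have := h1 (σ.erase j) ((erase_subset j σ).trans hσ) j (by
      rw [mem_sdiff]; exact ⟨hσ hj, notMem_erase j σ⟩)
    rw [insert_erase hj] at this
    exact_mod_cast this
  have hmono2 : ∀ σ ⊆ Γ, ∀ i ∈ Γ \ σ, (A (insert i σ) : ℝ) ≤ A σ := by
    intro σ hσ i hi; exact_mod_cast h1 σ hσ i hi
  have hInf0 : ∀ σ ⊆ Γ, 0 ≤ Inf σ := by
    intro σ hσ
    apply add_nonneg
    · exact sum_nonneg (fun j hj => sub_nonneg.mpr (hmono σ hσ j hj))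
    · exact sum_nonneg (fun i hi => sub_nonneg.mpr (hmono2 σ hσ i hi))
  have hInfE : ∀ σ ⊆ Γ, E σ → (σ.card:ℝ) * (M - σ.card) ≤ M * Inf σ := by
    intro σ hσ hE
    have hcs : ((Γ \ σ).card : ℝ) = M - σ.card := by
      rw [card_sdiff_of_subset hσ, Nat.cast_sub (card_le_card hσ)]
    have hd : ∑ j ∈ σ, ∑ i ∈ Γ \ σ, (1:ℝ) ≤
        ∑ j ∈ σ, ∑ i ∈ Γ \ σ, (((A (σ.erase j) : ℝ) - A σ) + ((A σ : ℝ) - A (insert i σ))) := by
      apply sum_le_sum
      intro j hj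
      apply sum_le_sum
      intro i hi
      have := h2 σ hσ hE j hj i hi
      have h' : (A (insert i σ) : ℝ) + 1 ≤ A (σ.erase j) := by exact_mod_cast this
      linarith
    have hl : ∑ j ∈ σ, ∑ i ∈ Γ \ σ, (1:ℝ) = (σ.card:ℝ) * (M - σ.card) := by
      simp only [sum_const, nsmul_eq_mul, mul_one, hcs]
    have hr : ∑ j ∈ σ, ∑ i ∈ Γ \ σ, (((A (σ.erase j) : ℝ) - A σ) + ((A σ : ℝ) - A (insert i σ))) =
        (M - σ.card) * ∑ j ∈ σ, ((A (σ.erase j) : ℝ) - A σ) +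
        (σ.card:ℝ) * ∑ i ∈ Γ \ σ, ((A σ : ℝ) - A (insert i σ)) := by
      simp only [sum_add_distrib]
      rw [← hcs, mul_sum]
      congr 1
      · apply sum_congr rfl
        intro j _
        rw [sum_const, nsmul_eq_mul]
      · rw [sum_const, nsmul_eq_mul]
    rw [hl, hr] at hd
    have ha : 0 ≤ ∑ j ∈ σ, ((A (σ.erase j) : ℝ) - A σ) :=
      sum_nonneg (fun j hj => sub_nonneg.mpr (hmono σ hσ j hj))
    have hb : 0 ≤ ∑ i ∈ Γ \ σ, ((A σ : ℝ) - A (insert i σ)) :=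
      sum_nonneg (fun i hi => sub_nonneg.mpr (hmono2 σ hσ i hi))
    have hc : (σ.card:ℝ) ≤ M := by rw [hMdef]; exact_mod_cast card_le_card hσ
    have hc0 : (0:ℝ) ≤ σ.card := Nat.cast_nonneg _
    simp only [Inf]
    nlinarith
  have hInfSum : ∑ σ ∈ Γ.powerset, Inf σ = 2 * ∑ σ ∈ Γ.powerset, (A σ : ℝ) * (M - 2 * σ.card) := by
    simp only [Inf]
    rw [sum_add_distrib]
    have e1 := pair_sum Γ (fun ρ i => (A (ρ.erase i) : ℝ) - A ρ)
    have e2 : ∑ σ ∈ Γ.powerset, ∑ i ∈ Γ \ σ, ((A ((insert i σ).erase i) : ℝ) - A (insert i σ)) =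
        ∑ σ ∈ Γ.powerset, ∑ i ∈ Γ \ σ, ((A σ : ℝ) - A (insert i σ)) := by
      apply sum_congr rfl
      intro σ _
      apply sum_congr rfl
      intro i hi
      rw [erase_insert (mem_sdiff.mp hi).2]
    rw [← e1, e2, TI_eq Γ (fun σ => (A σ : ℝ))]
    ring
  have hTI : Real.pi * ∑ σ ∈ Γ.powerset, (A σ : ℝ) * (M - 2 * σ.card) ≤
      2^Γ.card * (ϑ * M + e0 * √M) := by
    have g1 : ∀ σ ∈ Γ.powerset, Real.pi * ((A σ : ℝ) * (M - 2 * σ.card)) ≤
        Θ σ * (M - 2 * σ.card) + e0 * |M - 2 * σ.card| := by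
      intro σ hσ
      have h := h3 σ (mem_powerset.mp hσ)
      have h' : |(Θ σ - Real.pi * A σ) * (M - 2 * σ.card)| ≤ e0 * |M - 2 * σ.card| := by
        rw [abs_mul]; exact mul_le_mul_of_nonneg_right h (abs_nonneg _)
      have := neg_abs_le ((Θ σ - Real.pi * A σ) * (M - 2 * σ.card))
      nlinarith
    rw [mul_sum]
    refine (sum_le_sum g1).trans ?_
    rw [sum_add_distrib, ← mul_sum, ← TI_eq Γ Θ]
    have g2 : ∑ σ ∈ Γ.powerset, ∑ i ∈ Γ \ σ, (Θ σ - Θ (insert i σ)) ≤ 2^Γ.card * (ϑ * M) := by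
      calc _ ≤ ∑ σ ∈ Γ.powerset, (ϑ * M) := by
            apply sum_le_sum
            intro σ hσ
            calc _ ≤ ∑ i ∈ Γ \ σ, ϑ := sum_le_sum (fun i hi => h4 σ (mem_powerset.mp hσ) i hi)
              _ = ((Γ \ σ).card:ℝ) * ϑ := by rw [sum_const, nsmul_eq_mul]
              _ ≤ M * ϑ := by
                apply mul_le_mul_of_nonneg_right _ hϑ
                rw [hMdef]; exact_mod_cast card_le_card (sdiff_subset (s := Γ) (t := σ))
              _ = _ := by ring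
        _ = _ := by rw [sum_const, card_powerset]; simp
    have g3 := mul_le_mul_of_nonneg_left (abs_moment Γ hΓ) he0
    rw [← hMdef] at g3
    calc _ ≤ 2^Γ.card * (ϑ * M) + e0 * (2^Γ.card * √M) := add_le_add g2 g3
      _ = _ := by ring
  have hA : (((Γ.powerset.filter E).card : ℕ) : ℝ) * M^2 ≤
      4 * (M * ∑ σ ∈ Γ.powerset, Inf σ) + 2^Γ.card * M := by
    have e1 : (((Γ.powerset.filter E).card : ℕ) : ℝ) * M^2 =
        ∑ σ ∈ Γ.powerset.filter E, (4 * ((σ.card:ℝ) * (M - σ.card)) + (M - 2 * σ.card)^2) := by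
      have : ∀ σ ∈ Γ.powerset.filter E, (4 * ((σ.card:ℝ) * (M - σ.card)) + (M - 2 * σ.card)^2) = M^2 := by
        intro σ _; ring
      rw [sum_congr rfl this, sum_const, nsmul_eq_mul]
    rw [e1, sum_add_distrib]
    apply add_le_add
    · rw [← mul_sum]
      apply mul_le_mul_of_nonneg_left _ (by norm_num)
      rw [mul_sum]
      calc _ ≤ ∑ σ ∈ Γ.powerset.filter E, M * Inf σ := by
            apply sum_le_sum
            intro σ hσ
            rw [mem_filter, mem_powerset] at hσ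
            exact hInfE σ hσ.1 hσ.2
        _ ≤ _ := by
            apply sum_le_sum_of_subset_of_nonneg (filter_subset _ _)
            intro σ hσ _
            exact mul_nonneg hM.le (hInf0 σ (mem_powerset.mp hσ))
    · have h2m := second_moment Γ 0
      simp only [zero_add] at h2m
      calc _ ≤ ∑ σ ∈ Γ.powerset, (M - 2 * (σ.card:ℝ))^2 := by
            apply sum_le_sum_of_subset_of_nonneg (filter_subset _ _)
            intro σ _ _; positivity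
        _ = _ := by rw [h2m]; ring
  rw [hInfSum] at hA
  set T := ∑ σ ∈ Γ.powerset, (A σ : ℝ) * (M - 2 * σ.card)
  set c := (((Γ.powerset.filter E).card : ℕ) : ℝ)
  set P : ℝ := 2^Γ.card with hP
  have hPpos : 0 < P := by positivity
  have hR : 0 ≤ P * (ϑ * M + e0 * √M) := by positivity
  have hT : T ≤ P * (ϑ * M + e0 * √M) / 3 := by
    rw [le_div_iff₀ (by norm_num)]
    rcases le_or_gt T 0 with hT0 | hT0
    · linarith
    · nlinarith
  have hfin : c * M^2 ≤ P * (3 * ϑ + 3 * e0 / √M + 1 / M) * M^2 := by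
    have e1 : P * (3 * ϑ + 3 * e0 / √M + 1 / M) * M^2 = 3 * P * (ϑ * M + e0 * √M) * M + P * M := by
      have : e0 / √M * M = e0 * √M := by
        rw [div_mul_eq_mul_div, div_eq_iff hsq.ne']
        calc e0 * M = e0 * √M^2 := by rw [hsq2]
          _ = _ := by ring
      calc P * (3 * ϑ + 3 * e0 / √M + 1 / M) * M^2 =
          3 * P * (ϑ * M + (e0 / √M * M)) * M + P * (1/M * M) * M := by ring
        _ = _ := by rw [this, one_div, inv_mul_cancel₀ hM.ne']; ring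
    rw [e1]
    have : 4 * (M * (2 * T)) ≤ 3 * P * (ϑ * M + e0 * √M) * M := by
      have h5 : 8 * M * T ≤ 8 * M * (P * (ϑ * M + e0 * √M) / 3) :=
        mul_le_mul_of_nonneg_left hT (by positivity)
      have h6 : 8 * M * (P * (ϑ * M + e0 * √M) / 3) ≤ 3 * P * (ϑ * M + e0 * √M) * M := by
        have : 0 ≤ M * (P * (ϑ * M + e0 * √M)) := by positivity
        nlinarith
      linarith
    linarith
  exact le_of_mul_le_mul_right hfin (by positivity)

end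
end Pool.Agent.H704R3
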