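import Mathlib

set_option autoImplicit false
set_option linter.unusedSectionVars false
set_option linter.unusedVariables false
open Finset

namespace Pool.Agent.H704R3

/-- elementary symmetric function of `x` over the finite set `S`. -/
def es {ι R : Type*} [CommSemiring R] (S : Finset ι) (k : ℕ) (x : ι → R) : R :=
  ∑ T ∈ S.powersetCard k, ∏ i ∈ T, x i

section basic
variable {ι R : Type*} [DecidableEq ι] [CommRing R]

@[simp] lemma es_zero (S : Finset ι) (x : ι → R) : es S 0 x = 1 := by
  simp [es]

lemma es_empty (k : ℕ) (x : ι → R) : es (∅ : Finset ι) (k+1) x = 0 := by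
  unfold es
  rw [powersetCard_eq_empty.mpr (by simp)]
  simp

lemma es_eq_zero (S : Finset ι) (k : ℕ) (x : ι → R) (h : S.card < k) : es S k x = 0 := by
  unfold es
  rw [powersetCard_eq_empty.mpr h]
  simp

lemma es_insert {S : Finset ι} {i : ι} (h : i ∉ S) (k : ℕ) (x : ι → R) :
    es (insert i S) (k+1) x = es S (k+1) x + x i * es S k x := by
  unfold es
  rw [powersetCard_succ_insert h, sum_union, sum_image, mul_sum]
  · congr 1
    apply sum_congr rfl
    intro T hT
    have hiT : i ∉ T := fun hi => h ((mem_powersetCard.mp hT).1 hi)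
    rw [prod_insert hiT]
  · intro T hT T' hT' heq
    have hiT : i ∉ T := fun hi => h ((mem_powersetCard.mp hT).1 hi)
    have hiT' : i ∉ T' := fun hi => h ((mem_powersetCard.mp hT').1 hi)
    have := congrArg (fun U => U.erase i) heq
    simpa [erase_insert hiT, erase_insert hiT'] using this
  · rw [disjoint_left]
    intro T hT hT'
    obtain ⟨U, hU, rfl⟩ := mem_image.mp hT'
    exact h ((mem_powersetCard.mp hT).1 (mem_insert_self i U))

lemma es_erase {S : Finset ι} {i : ι} (h : i ∈ S) (k : ℕ) (x : ι → R) :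
    es S (k+1) x = es (S.erase i) (k+1) x + x i * es (S.erase i) k x := by
  conv_lhs => rw [← insert_erase h]
  rw [es_insert (notMem_erase i S)]

lemma sum_mul_es_erase (S : Finset ι) (x : ι → R) :
    ∀ k : ℕ, ∑ i ∈ S, x i * es (S.erase i) k x = ((k:R)+1) * es S (k+1) x := by
  induction S using Finset.induction_on with
  | empty => intro k; simp [es_empty]
  | @insert a S ha ih =>
    intro k
    rw [sum_insert ha, erase_insert ha]
    have hrw : ∀ i ∈ S, (insert a S).erase i = insert a (S.erase i) := by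
      intro i hi
      rw [erase_insert_of_ne]
      rintro rfl
      exact ha hi
    have hna : ∀ i ∈ S, a ∉ S.erase i := fun i _ h => ha (mem_of_mem_erase h)
    cases k with
    | zero =>
      have h0 := ih 0
      simp only [es_zero] at h0 ⊢
      rw [es_insert ha]
      simp at h0 ⊢
      rw [h0]; ring
    | succ k =>
      have e : ∑ i ∈ S, x i * es ((insert a S).erase i) (k+1) x =
          ∑ i ∈ S, x i * es (S.erase i) (k+1) x + x a * ∑ i ∈ S, x i * es (S.erase i) k x := by
        rw [mul_sum, ← sum_add_distrib]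
        apply sum_congr rfl
        intro i hi
        rw [hrw i hi, es_insert (hna i hi)]
        ring
      rw [e, ih, ih, es_insert ha]
      push_cast
      ring

end basic

section cx
variable {ι : Type*} [DecidableEq ι]

lemma hasDerivAt_es (y : ι → ℂ) (S : Finset ι) : ∀ (k : ℕ) (z : ℂ),
    HasDerivAt (fun w => es S (k+1) (fun i => y i + w))
      (((S.card:ℂ) - k) * es S k (fun i => y i + z)) z := by
  induction S using Finset.induction_on with
  | empty =>
    intro k z
    have : (fun w : ℂ => es (∅ : Finset ι) (k+1) (fun i => y i + w)) = fun _ => 0 := by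
      funext w; exact es_empty k _
    rw [this]
    cases k with
    | zero => simpa using hasDerivAt_const z (0:ℂ)
    | succ k => rw [es_empty]; simpa using hasDerivAt_const z (0:ℂ)
  | @insert a S ha ih =>
    intro k z
    have hf : (fun w : ℂ => es (insert a S) (k+1) (fun i => y i + w)) =
        fun w => es S (k+1) (fun i => y i + w) + (y a + w) * es S k (fun i => y i + w) := by
      funext w; rw [es_insert ha]
    rw [hf]
    have hid : HasDerivAt (fun w : ℂ => y a + w) 1 z := by
      simpa using (hasDerivAt_id z).const_add (y a)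
    cases k with
    | zero =>
      have h1 := ih 0 z
      simp only [es_zero] at h1 ⊢
      have h2 : HasDerivAt (fun w : ℂ => es S (0+1) (fun i => y i + w) + (y a + w) * 1) _ z :=
        h1.add (hid.mul (hasDerivAt_const z (1:ℂ)))
      refine h2.congr_deriv ?_
      rw [card_insert_of_notMem ha]; push_cast; ring
    | succ k =>
      have h2 : HasDerivAt (fun w : ℂ => es S (k+1+1) (fun i => y i + w) +
          (y a + w) * es S (k+1) (fun i => y i + w)) _ z := (ih (k+1) z).add (hid.mul (ih k z))
      refine h2.congr_deriv ?_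
      rw [card_insert_of_notMem ha, es_insert ha]; push_cast; ring

lemma par_formula (a b : ℂ) :
    (a * b / (a + b)).im = (a.im * Complex.normSq b + b.im * Complex.normSq a) /
      Complex.normSq (a + b) := by
  rw [Complex.div_im]
  simp only [Complex.normSq_apply, Complex.mul_re, Complex.mul_im, Complex.add_re, Complex.add_im]
  rw [← sub_div]
  congr 1
  ring

lemma par_im (a b : ℂ) (ha : 0 < a.im) (hb : 0 < b.im) :
    (a.im * b.im) / (a.im + b.im) ≤ (a * b / (a + b)).im := by
  rw [par_formula]
  have h1 : 0 < a.im + b.im := by linarith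
  have h2 : 0 < Complex.normSq (a + b) := by
    apply Complex.normSq_pos.mpr
    intro h
    have := congrArg Complex.im h
    simp at this; linarith
  rw [div_le_div_iff₀ h1 h2]
  simp only [Complex.normSq_apply, Complex.add_re, Complex.add_im]
  nlinarith [sq_nonneg (a.im * b.re - b.im * a.re)]

lemma par_mono (s t τ b : ℝ) (hτ : 0 < τ) (hb : 0 < b) (hs : τ ≤ s) (ht : b ≤ t) :
    τ * b / (τ + b) ≤ s * t / (s + t) := by
  have hs0 : 0 < s := by linarith
  have ht0 : 0 < t := by linarith
  rw [div_le_div_iff₀ (by positivity) (by positivity)]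
  nlinarith [mul_le_mul hs ht hb.le hs0.le, mul_nonneg (mul_nonneg hτ.le hs0.le) (sub_nonneg.mpr ht),
    mul_nonneg (mul_nonneg hb.le ht0.le) (sub_nonneg.mpr hs)]

/-- half-plane property of ratios of consecutive elementary symmetric functions -/
theorem es_half (τ : ℝ) (hτ : 0 < τ) (x : ι → ℂ) : ∀ (k : ℕ) (S : Finset ι),
    (∀ i ∈ S, τ ≤ (x i).im) → k + 1 ≤ S.card →
    es S k x ≠ 0 ∧ τ * ((S.card:ℝ) - k) / (k+1) ≤ (es S (k+1) x / es S k x).im := by
  intro k
  induction k with
  | zero =>
    intro S hS hc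
    refine ⟨by simp, ?_⟩
    have h1 : es S 1 x = ∑ i ∈ S, x i := by
      have := sum_mul_es_erase S x 0
      simp at this
      exact this.symm
    simp only [zero_add, es_zero, div_one, h1, Nat.cast_zero, sub_zero]
    rw [Complex.im_sum]
    calc τ * (S.card:ℝ) = ∑ i ∈ S, τ := by simp [mul_comm]
      _ ≤ _ := sum_le_sum hS
  | succ k ih =>
    intro S hS hc
    obtain ⟨h0, h1⟩ := ih S hS (by omega)
    have hcR : (k:ℝ) + 2 ≤ (S.card:ℝ) := by exact_mod_cast hc
    have hk0 : (0:ℝ) ≤ k := Nat.cast_nonneg k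
    have hpos : 0 < (es S (k+1) x / es S k x).im := by
      refine lt_of_lt_of_le ?_ h1
      have : (0:ℝ) < (S.card:ℝ) - k := by linarith
      positivity
    have hne : es S (k+1) x ≠ 0 := by
      intro h; rw [h] at hpos; simp at hpos
    refine ⟨hne, ?_⟩
    have hsum := sum_mul_es_erase S x (k+1)
    have hterm : ∀ i ∈ S, τ * ((S.card:ℝ) - (k+1)) / S.card ≤
        (x i * es (S.erase i) (k+1) x / es S (k+1) x).im := by
      intro i hi
      have hcard : (S.erase i).card = S.card - 1 := card_erase_of_mem hi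
      have hcardR : ((S.erase i).card : ℝ) = (S.card:ℝ) - 1 := by
        rw [hcard, Nat.cast_sub (by omega)]; simp
      obtain ⟨g0, g1⟩ := ih (S.erase i) (fun j hj => hS j (mem_of_mem_erase hj)) (by omega)
      rw [hcardR] at g1
      set E := es (S.erase i) (k+1) x
      set F := es (S.erase i) k x
      have hEF : es S (k+1) x = E + x i * F := es_erase hi k x
      have hb : 0 < τ * ((S.card:ℝ) - 1 - k) / (k+1) := by
        have : (0:ℝ) < (S.card:ℝ) - 1 - k := by linarith
        positivity
      have e1 : x i * E / es S (k+1) x = x i * (E/F) / (x i + E/F) := by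
        rw [hEF]
        have : x i + E/F ≠ 0 := by
          intro h
          have h' := congrArg Complex.im h
          have := hS i hi
          simp only [Complex.add_im, Complex.zero_im] at h'
          linarith
        have h3 : E + x i * F = (x i + E/F) * F := by field_simp; ring
        rw [h3]
        field_simp
      rw [e1]
      have hx : 0 < (x i).im := lt_of_lt_of_le hτ (hS i hi)
      refine le_trans ?_ (par_im _ _ hx (lt_of_lt_of_le hb g1))
      refine le_trans ?_ (par_mono _ _ τ _ hτ hb (hS i hi) g1)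
      apply le_of_eq
      have hS0 : (S.card:ℝ) ≠ 0 := by linarith
      have hk1 : (k:ℝ)+1 ≠ 0 := by linarith
      have h4 : τ + τ * ((S.card:ℝ) - 1 - k) / (k+1) = τ * S.card / (k+1) := by
        field_simp; ring
      rw [h4]
      field_simp
      ring
    have hmain : τ * ((S.card:ℝ) - (k+1)) ≤ ((k:ℝ)+2) * (es S (k+1+1) x / es S (k+1) x).im := by
      have e2 : (((k:ℝ)+2 : ℝ) : ℂ) * (es S (k+1+1) x / es S (k+1) x) =
          ∑ i ∈ S, x i * es (S.erase i) (k+1) x / es S (k+1) x := by
        rw [← sum_div, hsum]; push_cast; ring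
      have e3 : ((k:ℝ)+2) * (es S (k+1+1) x / es S (k+1) x).im =
          ∑ i ∈ S, (x i * es (S.erase i) (k+1) x / es S (k+1) x).im := by
        rw [← Complex.im_ofReal_mul, e2, Complex.im_sum]
      rw [e3]
      calc τ * ((S.card:ℝ) - (k+1)) = ∑ i ∈ S, τ * ((S.card:ℝ) - (k+1)) / S.card := by
            rw [sum_const, nsmul_eq_mul]
            have hS0 : (S.card:ℝ) ≠ 0 := by linarith
            field_simp
        _ ≤ _ := sum_le_sum hterm
    push_cast
    rw [div_le_iff₀ (by linarith)]
    calc τ * ((S.card:ℝ) - (k+1)) ≤ ((k:ℝ)+2) * (es S (k+1+1) x / es S (k+1) x).im := hmain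
      _ = _ := by ring

/-- real vector shifted by a complex number -/
def sh (y : ι → ℝ) (z : ℂ) : ι → ℂ := fun i => (y i : ℂ) + z

/-- ratio of consecutive elementary symmetric functions of the shifted vector -/
noncomputable def ph (y : ι → ℝ) (S : Finset ι) (k : ℕ) (z : ℂ) : ℂ :=
  es S (k+1) (sh y z) / es S k (sh y z)

lemma sh_im (y : ι → ℝ) (z : ℂ) (i : ι) : (sh y z i).im = z.im := by simp [sh]

lemma ph_im (y : ι → ℝ) (S : Finset ι) (k : ℕ) (z : ℂ) (hz : 0 < z.im) (h : k + 1 ≤ S.card) :
    es S k (sh y z) ≠ 0 ∧ z.im * ((S.card:ℝ) - k) / (k+1) ≤ (ph y S k z).im :=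
  es_half z.im hz (sh y z) k S (fun i _ => (sh_im y z i).ge) h

lemma ph_im_pos (y : ι → ℝ) (S : Finset ι) (k : ℕ) (z : ℂ) (hz : 0 < z.im) (h : k + 1 ≤ S.card) :
    0 < (ph y S k z).im := by
  refine lt_of_lt_of_le ?_ (ph_im y S k z hz h).2
  have : (k:ℝ) + 1 ≤ (S.card:ℝ) := by exact_mod_cast h
  have : (0:ℝ) < (S.card:ℝ) - k := by linarith
  positivity

lemma es_ne (y : ι → ℝ) (S : Finset ι) (k : ℕ) (z : ℂ) (hz : 0 < z.im) (h : k ≤ S.card) :
    es S k (sh y z) ≠ 0 := by
  cases k with
  | zero => simp
  | succ k =>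
    have h1 := ph_im_pos y S k z hz h
    intro h0
    unfold ph at h1
    rw [h0] at h1
    simp at h1

lemma hasDerivAt_es_sh (y : ι → ℝ) (S : Finset ι) (k : ℕ) (z : ℂ) :
    HasDerivAt (fun w => es S (k+1) (sh y w)) (((S.card:ℂ) - k) * es S k (sh y z)) z :=
  hasDerivAt_es (fun i => (y i : ℂ)) S k z

/-- half-plane Schwarz–Pick inequality -/
lemma pick (F : ℂ → ℂ) (z : ℂ) (hz : 0 < z.im) (hd : ∀ w : ℂ, 0 < w.im → DifferentiableAt ℂ F w)
    (hF : ∀ w : ℂ, 0 < w.im → 0 < (F w).im) : ‖deriv F z‖ ≤ 2 * ‖F z‖ / z.im := by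
  have hball : ∀ w ∈ Metric.ball z z.im, 0 < w.im := by
    intro w hw
    have h1 : ‖w - z‖ < z.im := by simpa [dist_eq_norm] using hw
    have h2 := (abs_le.mp (Complex.abs_im_le_norm (w - z))).1
    simp only [Complex.sub_im] at h2
    linarith
  set c := F z with hc
  have hcim : 0 < c.im := hF z hz
  let G : ℂ → ℂ := fun w => (F w - c) / (F w - (starRingEnd ℂ) c)
  have hne : ∀ w : ℂ, 0 < w.im → F w - (starRingEnd ℂ) c ≠ 0 := by
    intro w hw h
    have := congrArg Complex.im h
    simp at this
    have := hF w hw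
    linarith
  have hG0 : G z = 0 := by simp [G, hc]
  have hGd : ∀ w : ℂ, 0 < w.im → DifferentiableAt ℂ G w := by
    intro w hw
    exact ((hd w hw).sub_const c).div ((hd w hw).sub_const _) (hne w hw)
  have hmaps : Set.MapsTo G (Metric.ball z z.im) (Metric.ball (G z) 1) := by
    intro w hw
    have hw' := hball w hw
    rw [hG0, Metric.mem_ball, dist_zero_right]
    simp only [G]
    rw [norm_div, div_lt_one (norm_pos_iff.mpr (hne w hw'))]
    rw [← sq_lt_sq₀ (norm_nonneg _) (norm_nonneg _), ← Complex.normSq_eq_norm_sq,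
      ← Complex.normSq_eq_norm_sq]
    simp only [Complex.normSq_apply, Complex.sub_re, Complex.sub_im, Complex.conj_re, Complex.conj_im]
    have := hF w hw'
    nlinarith [mul_pos this hcim]
  have hS := Complex.norm_deriv_le_div_of_mapsTo_ball (f := G) (c := z) (R₁ := z.im) (R₂ := 1)
    (fun w hw => (hGd w (hball w hw)).differentiableWithinAt)
    (hmaps.mono_right Metric.ball_subset_closedBall) hz
  have hGder : HasDerivAt G (deriv F z / (c - (starRingEnd ℂ) c)) z := by
    have h1 := (hd z hz).hasDerivAt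
    have h2 := (h1.sub_const c).div (h1.sub_const ((starRingEnd ℂ) c)) (hne z hz)
    refine h2.congr_deriv ?_
    have h3 : F z - (starRingEnd ℂ) c ≠ 0 := hne z hz
    rw [← hc] at h3 ⊢
    field_simp
    ring
  rw [hGder.deriv, norm_div] at hS
  have h4 : ‖c - (starRingEnd ℂ) c‖ = 2 * c.im := by
    rw [Complex.sub_conj]
    rw [norm_mul, Complex.norm_I, mul_one]
    simp only [Complex.norm_real]
    rw [Real.norm_of_nonneg (by push_cast; positivity)]
  rw [h4] at hS
  have h5 : c.im ≤ ‖c‖ := (le_abs_self _).trans (Complex.abs_im_le_norm c)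
  rw [div_le_div_iff₀ (by positivity) hz] at hS
  rw [le_div_iff₀ hz]
  nlinarith

lemma inv_ph_sub (y : ι → ℝ) (S : Finset ι) (k : ℕ) (z : ℂ) (hz : 0 < z.im) (h : k + 2 ≤ S.card)
    (i : ι) (hi : i ∈ S) :
    ‖1 / ph y S (k+1) z - 1 / ph y (S.erase i) k z‖ ≤ 2 / (z.im * ((S.card:ℝ) - (k+1))) := by
  have hcard : (S.erase i).card = S.card - 1 := card_erase_of_mem hi
  let F : ℂ → ℂ := fun w => es S (k+2) (sh y w) / es (S.erase i) (k+1) (sh y w)
  have hden : ∀ w : ℂ, 0 < w.im → es (S.erase i) (k+1) (sh y w) ≠ 0 := fun w hw =>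
    es_ne y _ _ w hw (by omega)
  have hFim : ∀ w : ℂ, 0 < w.im → 0 < (F w).im := by
    intro w hw
    simp only [F]
    rw [es_erase hi, add_div, mul_div_assoc, div_self (hden w hw), mul_one, Complex.add_im, sh_im]
    rcases Nat.lt_or_ge (S.erase i).card (k+2) with h2 | h2
    · rw [es_eq_zero _ _ _ h2]; simpa using hw
    · have := ph_im_pos y (S.erase i) (k+1) w hw h2
      unfold ph at this
      have h3 : 0 < (es (S.erase i) (k + 1 + 1) (sh y w) / es (S.erase i) (k + 1) (sh y w)).im := this
      linarith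
  have hFd : ∀ w : ℂ, 0 < w.im → HasDerivAt F
      (((((S.card:ℂ) - (k+1:ℕ)) * es S (k+1) (sh y w)) * es (S.erase i) (k+1) (sh y w) -
        es S (k+2) (sh y w) * ((((S.erase i).card:ℂ) - k) * es (S.erase i) k (sh y w))) /
        (es (S.erase i) (k+1) (sh y w))^2) w := by
    intro w hw
    exact (hasDerivAt_es_sh y S (k+1) w).div (hasDerivAt_es_sh y (S.erase i) k w) (hden w hw)
  have hp := pick F z hz (fun w hw => (hFd w hw).differentiableAt) hFim
  rw [(hFd z hz).deriv] at hp
  have hcR : (k:ℝ) + 2 ≤ (S.card:ℝ) := by exact_mod_cast h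
  have hm : (0:ℝ) < (S.card:ℝ) - (k+1) := by linarith
  have hcC : ((S.erase i).card : ℂ) = (S.card:ℂ) - 1 := by
    rw [hcard, Nat.cast_sub (by omega)]; simp
  have n1 : es S (k+2) (sh y z) ≠ 0 := es_ne y S _ z hz h
  have n2 : es S (k+1) (sh y z) ≠ 0 := es_ne y S _ z hz (by omega)
  have n3 := hden z hz
  have n4 : es (S.erase i) k (sh y z) ≠ 0 := es_ne y _ _ z hz (by omega)
  have key : (((((S.card:ℂ) - (k+1:ℕ)) * es S (k+1) (sh y z)) * es (S.erase i) (k+1) (sh y z) -
        es S (k+2) (sh y z) * ((((S.erase i).card:ℂ) - k) * es (S.erase i) k (sh y z))) /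
        (es (S.erase i) (k+1) (sh y z))^2) =
      F z * ((((S.card:ℝ) - (k+1) : ℝ) : ℂ) * (1 / ph y S (k+1) z - 1 / ph y (S.erase i) k z)) := by
    simp only [F, ph, hcC]
    push_cast
    field_simp
    ring
  rw [key, norm_mul, norm_mul, Complex.norm_real, Real.norm_of_nonneg hm.le] at hp
  have hFz : 0 < ‖F z‖ := by
    apply norm_pos_iff.mpr
    intro h0
    have := hFim z hz
    rw [h0] at this; simp at this
  rw [le_div_iff₀ hz] at hp
  rw [le_div_iff₀ (by positivity)]
  have : ‖F z‖ * (‖1 / ph y S (k + 1) z - 1 / ph y (S.erase i) k z‖ * (z.im * ((S.card:ℝ) - (k+1)))) ≤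
      ‖F z‖ * 2 := by nlinarith
  exact le_of_mul_le_mul_left this hFz

/-- indices whose shifted entries are neither small nor large -/
noncomputable def gd (y : ι → ℝ) (δ B : ℝ) (z : ℂ) (S : Finset ι) : Finset ι :=
  S.filter (fun i => δ ≤ ‖sh y z i‖ ∧ ‖sh y z i‖ ≤ B)

lemma gd_erase (y : ι → ℝ) (δ B : ℝ) (z : ℂ) (S : Finset ι) (i : ι) (hi : i ∈ S) :
    (gd y δ B z S).card ≤ (gd y δ B z (S.erase i)).card + 1 := by
  have : gd y δ B z S ⊆ insert i (gd y δ B z (S.erase i)) := by
    intro j hj
    simp only [gd, mem_filter, mem_insert, mem_erase] at hj ⊢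
    by_cases h : j = i
    · exact Or.inl h
    · exact Or.inr ⟨⟨h, hj.1⟩, hj.2⟩
  exact (card_le_card this).trans (card_insert_le _ _)

theorem grow (y : ι → ℝ) (z : ℂ) (hz : 0 < z.im) (ω δ B K G : ℝ) (hω : 0 < ω) (hδ : 0 < δ)
    (hB : 0 < B) (hG : 2 * K * (B + 1/ω)^2 ≤ G * δ^2) : ∀ (l : ℕ) (S : Finset ι) (k : ℕ),
    k + 1 ≤ S.card → (k:ℝ) + 1 ≤ K → G + l ≤ ((gd y δ B z S).card : ℝ) →
    ω + 2 * l / (z.im * ((S.card:ℝ) - k)) ≤ ‖1 / ph y S k z‖ →
    2^l * (z.im * ((S.card:ℝ) - k) / K) ≤ (ph y S k z).im := by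
  intro l
  induction l with
  | zero =>
    intro S k hk hkK _ _
    have h1 := (ph_im y S k z hz hk).2
    have hm : (0:ℝ) < (S.card:ℝ) - k := by
      have : (k:ℝ) + 1 ≤ (S.card:ℝ) := by exact_mod_cast hk
      linarith
    refine le_trans ?_ h1
    rw [pow_zero, one_mul]
    have hk0 : (0:ℝ) ≤ k := Nat.cast_nonneg k
    exact div_le_div_of_nonneg_left (by positivity) (by linarith) hkK
  | succ l ih =>
    intro S k hk hkK hg hbad
    have hk0 : (0:ℝ) ≤ k := Nat.cast_nonneg k
    have hl0 : (0:ℝ) ≤ l := Nat.cast_nonneg l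
    have hK : 0 < K := by linarith
    have hm : (0:ℝ) < (S.card:ℝ) - k := by
      have : (k:ℝ) + 1 ≤ (S.card:ℝ) := by exact_mod_cast hk
      linarith
    cases k with
    | zero =>
      exfalso
      have h1 := (ph_im y S 0 z hz hk).2
      have h2 : (ph y S 0 z).im ≤ ‖ph y S 0 z‖ := (le_abs_self _).trans (Complex.abs_im_le_norm _)
      simp only [Nat.cast_zero, sub_zero, zero_add, div_one] at h1 hm hbad
      have h3 : ‖1 / ph y S 0 z‖ ≤ 1 / (z.im * S.card) := by
        rw [norm_div, norm_one]
        exact div_le_div_of_nonneg_left (by norm_num) (by positivity) (h1.trans h2)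
      have h4 : 1 / (z.im * S.card) ≤ 2 * ((l:ℝ)+1) / (z.im * S.card) := by
        apply div_le_div_of_nonneg_right _ (by positivity)
        linarith
      push_cast at hbad
      linarith
    | succ k =>
      push_cast at hm hkK hbad ⊢
      have hcR : (k:ℝ) + 2 ≤ (S.card:ℝ) := by exact_mod_cast hk
      have hi_facts : ∀ i ∈ S, 2^l * (z.im * ((S.card:ℝ) - (k+1)) / K) ≤ (ph y (S.erase i) k z).im ∧
          ‖ph y (S.erase i) k z‖ ≤ 1/ω := by
        intro i hi
        have hcard : (S.erase i).card = S.card - 1 := card_erase_of_mem hi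
        have hcardR : ((S.erase i).card : ℝ) = (S.card:ℝ) - 1 := by
          rw [hcard, Nat.cast_sub (by omega)]; simp
        have hd := inv_ph_sub y S k z hz hk i hi
        have htri : ‖1 / ph y S (k+1) z‖ ≤ ‖1 / ph y (S.erase i) k z‖ +
            2 / (z.im * ((S.card:ℝ) - (k+1))) := by
          have := norm_sub_norm_le (1 / ph y S (k+1) z) (1 / ph y (S.erase i) k z)
          linarith
        have hsplit : 2 * ((l:ℝ)+1) / (z.im * ((S.card:ℝ) - (k+1))) =
            2 * l / (z.im * ((S.card:ℝ) - (k+1))) + 2 / (z.im * ((S.card:ℝ) - (k+1))) := by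
          rw [← add_div]; ring
        have hb2 : ω + 2 * l / (z.im * ((S.card:ℝ) - (k+1))) ≤ ‖1 / ph y (S.erase i) k z‖ := by
          linarith
        have hmm : (((S.erase i).card:ℝ) - k) = (S.card:ℝ) - (k+1) := by rw [hcardR]; ring
        have hgg : (G + l : ℝ) ≤ ((gd y δ B z (S.erase i)).card : ℝ) := by
          have := gd_erase y δ B z S i hi
          have : ((gd y δ B z S).card : ℝ) ≤ ((gd y δ B z (S.erase i)).card : ℝ) + 1 := by
            exact_mod_cast this
          push_cast at hg
          linarith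
        refine ⟨?_, ?_⟩
        · have := ih (S.erase i) k (by omega) (by linarith) hgg (by rw [hmm]; exact hb2)
          rw [hmm] at this
          exact this
        · have hpos := ph_im_pos y (S.erase i) k z hz (by omega)
          have hne : 0 < ‖ph y (S.erase i) k z‖ := by
            apply norm_pos_iff.mpr
            intro h0; rw [h0] at hpos; simp at hpos
          have h5 : ω ≤ ‖1 / ph y (S.erase i) k z‖ := by
            have : 0 ≤ 2 * (l:ℝ) / (z.im * ((S.card:ℝ) - (k+1))) := by positivity
            linarith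
          rw [norm_div, norm_one, le_div_iff₀ hne] at h5
          rw [le_div_iff₀ hω]
          linarith
      -- the recursion
      have hne : es S (k+1) (sh y z) ≠ 0 := es_ne y S _ z hz (by omega)
      have hsum := sum_mul_es_erase S (sh y z) (k+1)
      have e2 : (((k:ℝ)+2 : ℝ) : ℂ) * ph y S (k+1) z =
          ∑ i ∈ S, sh y z i * ph y (S.erase i) k z / (sh y z i + ph y (S.erase i) k z) := by
        have : ∀ i ∈ S, sh y z i * ph y (S.erase i) k z / (sh y z i + ph y (S.erase i) k z) =
            sh y z i * es (S.erase i) (k+1) (sh y z) / es S (k+1) (sh y z) := by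
          intro i hi
          have hcard : (S.erase i).card = S.card - 1 := card_erase_of_mem hi
          have hF : es (S.erase i) k (sh y z) ≠ 0 := es_ne y _ _ z hz (by omega)
          have hx : sh y z i + ph y (S.erase i) k z ≠ 0 := by
            intro h
            have h' := congrArg Complex.im h
            have := ph_im_pos y (S.erase i) k z hz (by omega)
            simp only [Complex.add_im, Complex.zero_im, sh_im] at h'
            linarith
          have h3 : es S (k+1) (sh y z) = (sh y z i + ph y (S.erase i) k z) *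
              es (S.erase i) k (sh y z) := by
            rw [es_erase hi]; unfold ph; field_simp; ring
          rw [h3]
          unfold ph at hx ⊢
          field_simp
        rw [sum_congr rfl this, ← sum_div, hsum]
        unfold ph
        push_cast; ring
      have e3 : ((k:ℝ)+2) * (ph y S (k+1) z).im =
          ∑ i ∈ S, (sh y z i * ph y (S.erase i) k z / (sh y z i + ph y (S.erase i) k z)).im := by
        rw [← Complex.im_ofReal_mul, e2, Complex.im_sum]
      set T := 2^l * (z.im * ((S.card:ℝ) - (k+1)) / K) with hT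
      have hTpos : 0 < T := by positivity
      have hterm0 : ∀ i ∈ S, 0 ≤ (sh y z i * ph y (S.erase i) k z /
          (sh y z i + ph y (S.erase i) k z)).im := by
        intro i hi
        rw [par_formula, sh_im]
        have h1 := (hi_facts i hi).1
        have : 0 ≤ (ph y (S.erase i) k z).im := hTpos.le.trans h1
        apply div_nonneg _ (Complex.normSq_nonneg _)
        have := Complex.normSq_nonneg (ph y (S.erase i) k z)
        have := Complex.normSq_nonneg (sh y z i)
        positivity
      have hterm : ∀ i ∈ gd y δ B z S, T * δ^2 / (B + 1/ω)^2 ≤ (sh y z i * ph y (S.erase i) k z /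
          (sh y z i + ph y (S.erase i) k z)).im := by
        intro i hi
        simp only [gd, mem_filter] at hi
        obtain ⟨hiS, hi1, hi2⟩ := hi
        obtain ⟨h1, h2⟩ := hi_facts i hiS
        rw [par_formula, sh_im]
        have hphpos : 0 < (ph y (S.erase i) k z).im := lt_of_lt_of_le hTpos h1
        have hsumne : 0 < Complex.normSq (sh y z i + ph y (S.erase i) k z) := by
          apply Complex.normSq_pos.mpr
          intro h
          have h' := congrArg Complex.im h
          simp only [Complex.add_im, Complex.zero_im, sh_im] at h'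
          linarith
        have hle : Complex.normSq (sh y z i + ph y (S.erase i) k z) ≤ (B + 1/ω)^2 := by
          rw [Complex.normSq_eq_norm_sq]
          apply pow_le_pow_left₀ (norm_nonneg _)
          exact (norm_add_le _ _).trans (add_le_add hi2 h2)
        have hx2 : δ^2 ≤ Complex.normSq (sh y z i) := by
          rw [Complex.normSq_eq_norm_sq]
          exact pow_le_pow_left₀ hδ.le hi1 2
        have hnn := Complex.normSq_nonneg (ph y (S.erase i) k z)
        calc T * δ^2 / (B + 1/ω)^2 ≤ ((ph y (S.erase i) k z).im * Complex.normSq (sh y z i)) /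
              (B + 1/ω)^2 := by
              apply div_le_div_of_nonneg_right _ (by positivity)
              exact mul_le_mul h1 hx2 (by positivity) hphpos.le
          _ ≤ ((ph y (S.erase i) k z).im * Complex.normSq (sh y z i)) /
              Complex.normSq (sh y z i + ph y (S.erase i) k z) := by
              apply div_le_div_of_nonneg_left _ hsumne hle
              exact mul_nonneg hphpos.le (Complex.normSq_nonneg _)
          _ ≤ _ := by
              apply div_le_div_of_nonneg_right _ hsumne.le
              have : 0 ≤ z.im * Complex.normSq (ph y (S.erase i) k z) := mul_nonneg hz.le hnn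
              linarith
      have hbig : ((gd y δ B z S).card : ℝ) * (T * δ^2 / (B + 1/ω)^2) ≤
          ((k:ℝ)+2) * (ph y S (k+1) z).im := by
        rw [e3]
        calc ((gd y δ B z S).card : ℝ) * (T * δ^2 / (B + 1/ω)^2) =
            ∑ i ∈ gd y δ B z S, (T * δ^2 / (B + 1/ω)^2) := by rw [sum_const, nsmul_eq_mul]
          _ ≤ ∑ i ∈ gd y δ B z S, (sh y z i * ph y (S.erase i) k z /
              (sh y z i + ph y (S.erase i) k z)).im := sum_le_sum hterm
          _ ≤ _ := by
            apply sum_le_sum_of_subset_of_nonneg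
            · exact filter_subset _ _
            · intro i hi _; exact hterm0 i hi
      have hgG : G ≤ ((gd y δ B z S).card : ℝ) := by push_cast at hg; linarith
      have hD : (0:ℝ) < (B + 1/ω)^2 := by positivity
      have h6 : 2 * K * T ≤ ((gd y δ B z S).card : ℝ) * (T * δ^2 / (B + 1/ω)^2) := by
        rw [← mul_div_assoc, le_div_iff₀ hD]
        nlinarith [mul_le_mul_of_nonneg_right hgG (by positivity : (0:ℝ) ≤ T * δ^2)]
      have hpos := ph_im_pos y S (k+1) z hz hk
      have h7 : 2 * K * T ≤ K * (ph y S (k+1) z).im := by nlinarith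
      have h8 : 2 * T ≤ (ph y S (k+1) z).im := by nlinarith
      calc 2^(l+1) * (z.im * ((S.card:ℝ) - (k+1)) / K) = 2 * T := by rw [hT]; ring
        _ ≤ _ := h8

/-- main estimate: the ratio is large at moderate heights -/
theorem ph_large (y : ι → ℝ) (z : ℂ) (hz : 0 < z.im) (ω δ B K G : ℝ) (hω : 0 < ω) (hδ : 0 < δ)
    (hB : 0 < B) (hG : 2 * K * (B + 1/ω)^2 ≤ G * δ^2) (L : ℕ) (S : Finset ι) (k : ℕ)
    (hk : k + 1 ≤ S.card) (hkK : (k:ℝ) + 1 ≤ K) (hg : G + L ≤ ((gd y δ B z S).card : ℝ))
    (hL1 : 2 * L ≤ ω * (z.im * ((S.card:ℝ) - k)))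
    (hL2 : K / ω < 2^L * (z.im * ((S.card:ℝ) - k))) :
    ‖1 / ph y S k z‖ < 2 * ω := by
  by_contra hcon
  push Not at hcon
  have hk0 : (0:ℝ) ≤ k := Nat.cast_nonneg k
  have hK : 0 < K := by linarith
  have hm : (0:ℝ) < (S.card:ℝ) - k := by
    have : (k:ℝ) + 1 ≤ (S.card:ℝ) := by exact_mod_cast hk
    linarith
  have h1 : ω + 2 * L / (z.im * ((S.card:ℝ) - k)) ≤ ‖1 / ph y S k z‖ := by
    have : 2 * L / (z.im * ((S.card:ℝ) - k)) ≤ ω := by
      rw [div_le_iff₀ (by positivity)]; exact hL1
    linarith
  have h2 := grow y z hz ω δ B K G hω hδ hB hG L S k hk hkK hg h1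
  have hpos := ph_im_pos y S k z hz hk
  have hne : 0 < ‖ph y S k z‖ := by
    apply norm_pos_iff.mpr
    intro h0; rw [h0] at hpos; simp at hpos
  have h3 : (ph y S k z).im ≤ ‖ph y S k z‖ := (le_abs_self _).trans (Complex.abs_im_le_norm _)
  rw [norm_div, norm_one, le_div_iff₀ hne] at hcon
  have h4 : 1/ω < 2^L * (z.im * ((S.card:ℝ) - k) / K) := by
    rw [← mul_div_assoc, lt_div_iff₀ hK]
    calc 1/ω * K = K/ω := by ring
      _ < _ := hL2
  have h5 : 1/ω < ‖ph y S k z‖ := by linarith
  rw [div_lt_iff₀ hω] at h5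
  nlinarith

end cx

end Pool.Agent.H704R3
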