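import Mathlib
import Pool.Agent.H704R3.Es

set_option autoImplicit false
set_option linter.unusedSectionVars false
set_option linter.unusedVariables false

namespace Pool.Agent.H704R3
open Polynomial Filter Topology

/-- product of `z - t` -/
noncomputable def Pr (R : Multiset ℝ) (z : ℂ) : ℂ := (R.map (fun t : ℝ => z - (t:ℂ))).prod
/-- sum of arguments -/
noncomputable def Th (R : Multiset ℝ) (z : ℂ) : ℝ := (R.map (fun t : ℝ => Complex.arg (z - (t:ℂ)))).sum
/-- number of elements larger than `x` -/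
noncomputable def Ab (x : ℝ) (R : Multiset ℝ) : ℕ := (R.filter (fun t => x < t)).card
/-- logarithmic derivative -/
noncomputable def Ld (R : Multiset ℝ) (z : ℂ) : ℂ := (R.map (fun t : ℝ => 1 / (z - (t:ℂ)))).sum

@[simp] lemma Pr_zero (z : ℂ) : Pr 0 z = 1 := by simp [Pr]
@[simp] lemma Pr_cons (t : ℝ) (R : Multiset ℝ) (z : ℂ) : Pr (t ::ₘ R) z = (z - t) * Pr R z := by
  simp [Pr]
@[simp] lemma Th_zero (z : ℂ) : Th 0 z = 0 := by simp [Th]
@[simp] lemma Th_cons (t : ℝ) (R : Multiset ℝ) (z : ℂ) :
    Th (t ::ₘ R) z = Complex.arg (z - t) + Th R z := by simp [Th]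
@[simp] lemma Ld_zero (z : ℂ) : Ld 0 z = 0 := by simp [Ld]
@[simp] lemma Ld_cons (t : ℝ) (R : Multiset ℝ) (z : ℂ) :
    Ld (t ::ₘ R) z = 1 / (z - t) + Ld R z := by simp [Ld]
@[simp] lemma Ab_zero (x : ℝ) : Ab x 0 = 0 := by simp [Ab]
lemma Ab_cons (x t : ℝ) (R : Multiset ℝ) :
    Ab x (t ::ₘ R) = (if x < t then 1 else 0) + Ab x R := by
  unfold Ab
  rw [Multiset.filter_cons]
  split_ifs <;> simp <;> omega

lemma sub_ne (z : ℂ) (hz : 0 < z.im) (t : ℝ) : z - (t:ℂ) ≠ 0 := by
  intro h
  have := congrArg Complex.im h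
  simp at this; linarith

lemma sub_ne' (z : ℂ) (hz : z.im ≠ 0) (t : ℝ) : z - (t:ℂ) ≠ 0 := by
  intro h
  have := congrArg Complex.im h
  simp at this; exact hz this

lemma Pr_ne (R : Multiset ℝ) (z : ℂ) (hz : 0 < z.im) : Pr R z ≠ 0 := by
  induction R using Multiset.induction_on with
  | empty => simp
  | cons t R ih => rw [Pr_cons]; exact mul_ne_zero (sub_ne z hz t) ih

lemma Pr_polar (R : Multiset ℝ) (z : ℂ) :
    Pr R z = (‖Pr R z‖ : ℂ) * Complex.exp ((Th R z : ℂ) * Complex.I) := by
  induction R using Multiset.induction_on with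
  | empty => simp
  | cons t R ih =>
    rw [Pr_cons, Th_cons, norm_mul]
    have h := Complex.norm_mul_exp_arg_mul_I (z - t)
    push_cast
    rw [add_mul, Complex.exp_add]
    calc (z - t) * Pr R z = ((‖z - (t:ℂ)‖ : ℂ) * Complex.exp ((Complex.arg (z - t) : ℂ) * Complex.I)) *
        ((‖Pr R z‖ : ℂ) * Complex.exp ((Th R z : ℂ) * Complex.I)) := by rw [h, ← ih]
      _ = _ := by ring

lemma hasDerivAt_Pr (R : Multiset ℝ) (z : ℂ) (hz : 0 < z.im) :
    HasDerivAt (Pr R) (Pr R z * Ld R z) z := by
  induction R using Multiset.induction_on with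
  | empty =>
    have : Pr 0 = fun _ => (1:ℂ) := by funext w; simp
    rw [this]; simpa using hasDerivAt_const z (1:ℂ)
  | cons t R ih =>
    have : Pr (t ::ₘ R) = fun w => (w - t) * Pr R w := by funext w; simp
    rw [this]
    have h1 : HasDerivAt (fun w : ℂ => w - (t:ℂ)) 1 z := (hasDerivAt_id z).sub_const _
    refine (h1.mul ih).congr_deriv ?_
    rw [Ld_cons]
    have := sub_ne z hz t
    field_simp

/-- vertical line -/
noncomputable def vl (x y : ℝ) : ℂ := (x:ℂ) + y * Complex.I

@[simp] lemma vl_re (x y : ℝ) : (vl x y).re = x := by simp [vl]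
@[simp] lemma vl_im (x y : ℝ) : (vl x y).im = y := by simp [vl]
lemma vl_cont (x : ℝ) : Continuous (vl x) := by unfold vl; fun_prop

lemma Th_cont (R : Multiset ℝ) (x : ℝ) : ContinuousOn (fun y => Th R (vl x y)) (Set.Ioi 0) := by
  induction R using Multiset.induction_on with
  | empty => simp only [Th_zero]; exact continuousOn_const
  | cons t R ih =>
    simp only [Th_cons]
    apply ContinuousOn.add _ ih
    intro y hy
    apply ContinuousAt.continuousWithinAt
    have hc : ContinuousAt Complex.arg (vl x y - (t:ℂ)) := by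
      apply Complex.continuousAt_arg
      right
      simp only [Complex.sub_im, vl_im, Complex.ofReal_im, sub_zero]
      exact (ne_of_gt hy)
    exact ContinuousAt.comp (f := fun y => vl x y - (t:ℂ)) hc ((vl_cont x).sub continuous_const).continuousAt

lemma arg_lim (x t : ℝ) : Tendsto (fun y : ℝ => Complex.arg (vl x y - t)) atTop (𝓝 (Real.pi/2)) := by
  have h1 : Tendsto (fun y : ℝ => ((x - t) / y : ℝ)) atTop (𝓝 0) :=
    tendsto_const_nhds.div_atTop tendsto_id
  have h2 : Tendsto (fun y : ℝ => (((x - t) / y : ℝ) : ℂ) + Complex.I) atTop (𝓝 ((0:ℝ) + Complex.I)) :=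
    ((Complex.continuous_ofReal.tendsto 0).comp h1).add tendsto_const_nhds
  have h3 : ContinuousAt Complex.arg Complex.I := Complex.continuousAt_arg (by right; simp)
  have h4 := (h3.tendsto).comp (by simpa using h2)
  rw [Complex.arg_I] at h4
  refine h4.congr' ?_
  filter_upwards [eventually_gt_atTop 0] with y hy
  simp only [Function.comp]
  rw [← Complex.arg_real_mul (vl x y - t) (inv_pos.mpr hy)]
  congr 1
  unfold vl
  have : (y:ℂ) ≠ 0 := by exact_mod_cast hy.ne'
  push_cast
  field_simp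
  ring

lemma Th_lim (R : Multiset ℝ) (x : ℝ) :
    Tendsto (fun y : ℝ => Th R (vl x y)) atTop (𝓝 (R.card * (Real.pi/2))) := by
  induction R using Multiset.induction_on with
  | empty => simp
  | cons t R ih =>
    simp only [Th_cons, Multiset.card_cons]
    have := (arg_lim x t).add ih
    convert this using 2
    push_cast; ring

theorem Th_diff (R R' : Multiset ℝ) (hc : R.card = R'.card)
    (hu : ∀ z : ℂ, 0 < z.im → (Pr R' z / Pr R z).im < 0) (z : ℂ) (hz : 0 < z.im) :
    Th R' z - Th R z = Complex.arg (Pr R' z / Pr R z) := by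
  have hzv : z = vl z.re z.im := by simp [vl]
  set x := z.re with hx
  let u : ℝ → ℂ := fun y => Pr R' (vl x y) / Pr R (vl x y)
  let D : ℝ → ℝ := fun y => Th R' (vl x y) - Th R (vl x y) - Complex.arg (u y)
  have hint : ∀ y : ℝ, 0 < y → ∃ n : ℤ, D y = n * (2 * Real.pi) := by
    intro y hy
    have hy' : 0 < (vl x y).im := by simpa using hy
    have hne := Pr_ne R (vl x y) hy'
    have hne' := Pr_ne R' (vl x y) hy'
    have h1 := Pr_polar R (vl x y)
    have h2 := Pr_polar R' (vl x y)
    have h3 := Complex.norm_mul_exp_arg_mul_I (u y)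
    have hnu : (‖u y‖ : ℂ) = (‖Pr R' (vl x y)‖ : ℂ) / (‖Pr R (vl x y)‖ : ℂ) := by
      simp only [u, norm_div]; push_cast; rfl
    have n1 : (‖Pr R (vl x y)‖ : ℂ) ≠ 0 := by
      exact_mod_cast (norm_pos_iff.mpr hne).ne'
    have n2 : (‖Pr R' (vl x y)‖ : ℂ) ≠ 0 := by
      exact_mod_cast (norm_pos_iff.mpr hne').ne'
    have e1 : Complex.exp ((Complex.arg (u y) : ℂ) * Complex.I) =
        Complex.exp ((Th R' (vl x y) : ℂ) * Complex.I - (Th R (vl x y) : ℂ) * Complex.I) := by
      rw [Complex.exp_sub]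
      have hE : Complex.exp ((Th R (vl x y) : ℂ) * Complex.I) ≠ 0 := Complex.exp_ne_zero _
      rw [eq_div_iff hE]
      have e2 : u y * Pr R (vl x y) = Pr R' (vl x y) := by
        simp only [u]; field_simp
      rw [← h3, hnu] at e2
      rw [h1, h2] at e2
      simp only [norm_mul, Complex.norm_real, norm_norm, Complex.norm_exp_ofReal_mul_I, mul_one] at e2
      have e3 : (‖Pr R' (vl x y)‖ : ℂ) * (Complex.exp ((Complex.arg (u y) : ℂ) * Complex.I) *
          Complex.exp ((Th R (vl x y) : ℂ) * Complex.I)) =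
          (‖Pr R' (vl x y)‖ : ℂ) * Complex.exp ((Th R' (vl x y) : ℂ) * Complex.I) := by
        rw [← e2]; field_simp
      exact mul_left_cancel₀ n2 e3
    rw [Complex.exp_eq_exp_iff_exists_int] at e1
    obtain ⟨n, hn⟩ := e1
    refine ⟨-n, ?_⟩
    have hn' : ((Complex.arg (u y) : ℝ) : ℂ) * Complex.I =
        ((Th R' (vl x y) - Th R (vl x y) + n * (2 * Real.pi) : ℝ) : ℂ) * Complex.I := by
      rw [hn]; push_cast; ring
    have hn'' := mul_right_cancel₀ Complex.I_ne_zero hn'
    have hr : Complex.arg (u y) = Th R' (vl x y) - Th R (vl x y) + n * (2 * Real.pi) := by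
      exact_mod_cast hn''
    simp only [D]
    rw [hr]; push_cast; ring
  have hpi := Real.pi_pos
  let h : ℝ → ℤ := fun y => round (D y / (2 * Real.pi))
  have hh : ∀ y : ℝ, 0 < y → ((h y : ℤ) : ℝ) = D y / (2 * Real.pi) := by
    intro y hy
    obtain ⟨n, hn⟩ := hint y hy
    have : D y / (2 * Real.pi) = n := by rw [hn]; field_simp
    simp only [h]
    rw [this, round_intCast]
  have hDc : ContinuousOn D (Set.Ioi 0) := by
    apply ContinuousOn.sub ((Th_cont R' x).sub (Th_cont R x))
    intro y hy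
    apply ContinuousAt.continuousWithinAt
    have hy' : 0 < (vl x y).im := by simpa using hy
    have hc1 : ContinuousAt Complex.arg (u y) := by
      apply Complex.continuousAt_arg
      right
      exact (hu (vl x y) hy').ne
    have hc2 : ContinuousAt u y := by
      have a1 : ContinuousAt (Pr R') (vl x y) := (hasDerivAt_Pr R' _ hy').continuousAt
      have a2 : ContinuousAt (Pr R) (vl x y) := (hasDerivAt_Pr R _ hy').continuousAt
      exact (a1.comp (vl_cont x).continuousAt).div (a2.comp (vl_cont x).continuousAt) (Pr_ne R _ hy')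
    exact hc1.comp hc2
  have hhc : ContinuousOn h (Set.Ioi 0) := by
    rw [Int.isClosedEmbedding_coe_real.isEmbedding.continuousOn_iff]
    refine (hDc.div_const (2 * Real.pi)).congr ?_
    intro y hy
    exact hh y hy
  have hlim : Tendsto (fun y : ℝ => Th R' (vl x y) - Th R (vl x y)) atTop (𝓝 0) := by
    have := (Th_lim R' x).sub (Th_lim R x)
    rw [hc, sub_self] at this
    exact this
  have hev : ∀ᶠ y : ℝ in atTop, |Th R' (vl x y) - Th R (vl x y)| < 1 := by
    have := Metric.tendsto_nhds.mp hlim 1 one_pos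
    filter_upwards [this] with y hy
    simpa [Real.dist_eq] using hy
  obtain ⟨y1, hy1a, hy1b⟩ := (hev.and (eventually_gt_atTop (0:ℝ))).exists
  have hD1 : D y1 = 0 := by
    obtain ⟨n, hn⟩ := hint y1 hy1b
    have hy' : 0 < (vl x y1).im := by simpa using hy1b
    have ha1 := Complex.neg_pi_lt_arg (u y1)
    have ha2 : Complex.arg (u y1) < 0 := Complex.arg_neg_iff.mpr (hu _ hy')
    have h1 := abs_lt.mp hy1a
    have hDlt : D y1 < 1 + Real.pi := by simp only [D]; linarith [h1.2]
    have hDgt : -1 < D y1 := by simp only [D]; linarith [h1.1]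
    have hpi3 := Real.pi_gt_three
    have hn0 : n = 0 := by
      have h1 : (n:ℝ) < 1 := by
        by_contra hcon
        push Not at hcon
        nlinarith
      have h2 : (-1:ℝ) < n := by
        by_contra hcon
        push Not at hcon
        nlinarith
      have h1' : n < 1 := by exact_mod_cast h1
      have h2' : -1 < n := by exact_mod_cast h2
      omega
    rw [hn, hn0]; simp
  have hconst : h z.im = h y1 := isPreconnected_Ioi.constant hhc hz hy1b
  have e1 := hh z.im hz
  have e2 := hh y1 hy1b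
  rw [hconst, e2, hD1] at e1
  have hDz : D z.im = 0 := by
    have h2pi : (2 * Real.pi) ≠ 0 := by positivity
    have : D z.im / (2 * Real.pi) = 0 := by rw [← e1]; simp
    rcases div_eq_zero_iff.mp this with h | h
    · exact h
    · exact absurd h h2pi
  simp only [D, u] at hDz
  rw [← hzv] at hDz
  linarith

lemma elem (θ : ℝ) (h0 : 0 < θ) (h1 : θ ≤ Real.pi/2) :
    |θ - Real.sin θ * Real.cos θ| ≤ 4 * (Real.sin θ)^2 := by
  have hpi := Real.pi_gt_three
  have hpi4 := Real.pi_le_four
  have hs : 0 < Real.sin θ := Real.sin_pos_of_pos_of_lt_pi h0 (by linarith)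
  have hc : 0 ≤ Real.cos θ := Real.cos_nonneg_of_mem_Icc ⟨by linarith, h1⟩
  have hc1 := Real.cos_le_one θ
  have hs1 := Real.sin_le_one θ
  have hsl := Real.sin_lt h0
  rw [abs_of_nonneg (by nlinarith)]
  rcases le_or_gt θ (Real.pi/4) with h | h
  · have ht := Real.lt_tan h0 (by linarith)
    have hcpos : 0 < Real.cos θ := Real.cos_pos_of_mem_Ioo ⟨by linarith, by linarith⟩
    rw [Real.tan_eq_sin_div_cos, lt_div_iff₀ hcpos] at ht
    have hc2 : 1/2 ≤ Real.cos θ := by
      have := Real.cos_le_cos_of_nonneg_of_le_pi h0.le (by linarith) h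
      rw [Real.cos_pi_div_four] at this
      have h2 : 1 ≤ √2 := by
        rw [Real.one_le_sqrt]; norm_num
      linarith
    have hsc := Real.sin_sq_add_cos_sq θ
    have h5 : (θ - Real.sin θ * Real.cos θ) * Real.cos θ ≤ (Real.sin θ)^3 := by nlinarith
    have h6 : (Real.sin θ)^3 ≤ (Real.sin θ)^2 := by nlinarith [sq_nonneg (Real.sin θ)]
    have h7 : 0 ≤ θ - Real.sin θ * Real.cos θ := by nlinarith
    nlinarith
  · have hsin : √2/2 ≤ Real.sin θ := by
      rw [← Real.sin_pi_div_four]
      exact Real.sin_le_sin_of_le_of_le_pi_div_two (by linarith) h1 h.le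
    have h2 : √2^2 = 2 := Real.sq_sqrt (by norm_num)
    have h3 : 0 ≤ √2 := Real.sqrt_nonneg 2
    have h4 : 1/2 ≤ (Real.sin θ)^2 := by nlinarith
    nlinarith

lemma arg_est (w : ℂ) (hw : 0 < w.im) :
    |Complex.arg w - (if w.re < 0 then Real.pi else 0) - w.im * w.re / Complex.normSq w| ≤
      4 * (w.im^2 / Complex.normSq w) := by
  have hw0 : w ≠ 0 := by intro h; rw [h] at hw; simp at hw
  have hr : 0 < ‖w‖ := norm_pos_iff.mpr hw0
  set θ := Complex.arg w with hθ
  have h1 := Complex.norm_mul_cos_arg w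
  have h2 := Complex.norm_mul_sin_arg w
  rw [← hθ] at h1 h2
  have hnn : 0 ≤ θ := Complex.arg_nonneg_iff.mpr hw.le
  have hlepi : θ ≤ Real.pi := Complex.arg_le_pi w
  have hsin : 0 < Real.sin θ := by
    have : 0 < ‖w‖ * Real.sin θ := by rw [h2]; exact hw
    exact (mul_pos_iff_of_pos_left hr).mp this
  have hθ0 : 0 < θ := by
    rcases hnn.lt_or_eq with h | h
    · exact h
    · rw [← h] at hsin; simp at hsin
  have hθpi : θ < Real.pi := by
    rcases hlepi.lt_or_eq with h | h
    · exact h
    · rw [h] at hsin; simp at hsin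
  have e1 : w.im * w.re / Complex.normSq w = Real.sin θ * Real.cos θ := by
    rw [Complex.normSq_eq_norm_sq, ← h1, ← h2]
    simp only [h1, h2]
    rw [← h1, ← h2]
    field_simp
  have e2 : w.im^2 / Complex.normSq w = (Real.sin θ)^2 := by
    rw [Complex.normSq_eq_norm_sq, ← h2]
    field_simp
  rw [e1, e2]
  split_ifs with hre
  · have hcos : Real.cos θ < 0 := by
      by_contra hcon
      push Not at hcon
      have : 0 ≤ ‖w‖ * Real.cos θ := by positivity
      linarith
    have hbig : Real.pi/2 < θ := by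
      by_contra hcon
      push Not at hcon
      have := Real.cos_nonneg_of_mem_Icc (x := θ) ⟨by linarith [Real.pi_pos], hcon⟩
      linarith
    have := elem (Real.pi - θ) (by linarith) (by linarith)
    rw [Real.sin_pi_sub, Real.cos_pi_sub] at this
    calc |θ - Real.pi - Real.sin θ * Real.cos θ| = |Real.pi - θ - Real.sin θ * -Real.cos θ| := by
          rw [← abs_neg]; congr 1; ring
      _ ≤ _ := this
  · have hcos : 0 ≤ Real.cos θ := by
      by_contra hcon
      push Not at hcon
      have : ‖w‖ * Real.cos θ < 0 := by nlinarith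
      exact hre (by linarith)
    have hsmall : θ ≤ Real.pi/2 := by
      by_contra hcon
      push Not at hcon
      have := Real.cos_neg_of_pi_div_two_lt_of_lt hcon (by linarith)
      linarith
    rw [sub_zero]
    exact elem θ hθ0 hsmall

lemma Th_Ab (R : Multiset ℝ) (z : ℂ) (hz : 0 < z.im) :
    |Th R z - Real.pi * Ab z.re R - z.im * (Ld R z).re| ≤ 4 * (z.im * (-(Ld R z).im)) := by
  induction R using Multiset.induction_on with
  | empty => simp
  | cons t R ih =>
    have hw : 0 < (z - (t:ℂ)).im := by simpa using hz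
    have h := arg_est (z - t) hw
    rw [Th_cons, Ld_cons, Ab_cons, Complex.add_re, Complex.add_im]
    have i1 : (z - (t:ℂ)).im = z.im := by simp
    have i2 : (z - (t:ℂ)).re = z.re - t := by simp
    have r1 : (1 / (z - (t:ℂ))).re = (z.re - t) / Complex.normSq (z - t) := by
      rw [one_div, Complex.inv_re, i2]
    have r2 : (1 / (z - (t:ℂ))).im = - z.im / Complex.normSq (z - t) := by
      rw [one_div, Complex.inv_im, i1]
    rw [i1, i2] at h
    rw [r1, r2]
    have hif : (if z.re - t < 0 then Real.pi else 0) = Real.pi * ((if z.re < t then 1 else 0 : ℕ) : ℝ) := by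
      by_cases hlt : z.re < t
      · rw [if_pos hlt, if_pos (by linarith)]; simp
      · rw [if_neg hlt, if_neg (by linarith)]; simp
    rw [hif] at h
    push_cast at h ⊢
    have e1 : Complex.arg (z - ↑t) + Th R z - Real.pi * ((if z.re < t then (1:ℝ) else 0) + ↑(Ab z.re R)) -
        z.im * ((z.re - t) / Complex.normSq (z - ↑t) + (Ld R z).re) =
        (Complex.arg (z - ↑t) - Real.pi * (if z.re < t then (1:ℝ) else 0) -
          z.im * (z.re - t) / Complex.normSq (z - ↑t)) +
        (Th R z - Real.pi * ↑(Ab z.re R) - z.im * (Ld R z).re) := by ring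
    rw [e1]
    refine (abs_add_le _ _).trans ?_
    have e2 : 4 * (z.im * -(-z.im / Complex.normSq (z - ↑t) + (Ld R z).im)) =
        4 * (z.im^2 / Complex.normSq (z - ↑t)) + 4 * (z.im * -(Ld R z).im) := by ring
    rw [e2]
    exact add_le_add h ih

lemma Th_Ab' (R : Multiset ℝ) (z : ℂ) (hz : 0 < z.im) :
    |Th R z - Real.pi * Ab z.re R| ≤ 5 * (z.im * ‖Ld R z‖) := by
  have h := Th_Ab R z hz
  have h1 := Complex.abs_re_le_norm (Ld R z)
  have h2 := Complex.abs_im_le_norm (Ld R z)
  have h3 : -(Ld R z).im ≤ ‖Ld R z‖ := (neg_le_abs _).trans h2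
  have h4 : |z.im * (Ld R z).re| ≤ z.im * ‖Ld R z‖ := by
    rw [abs_mul, abs_of_pos hz]; exact mul_le_mul_of_nonneg_left h1 hz.le
  have h5 : |Th R z - Real.pi * Ab z.re R| ≤
      |Th R z - Real.pi * Ab z.re R - z.im * (Ld R z).re| + |z.im * (Ld R z).re| := by
    have := abs_add_le (Th R z - Real.pi * Ab z.re R - z.im * (Ld R z).re) (z.im * (Ld R z).re)
    simpa using this
  nlinarith [mul_le_mul_of_nonneg_left h3 hz.le]

lemma gap_exists (R : Multiset ℝ) : ∃ x : ℝ, 0 < x ∧ ∀ t ∈ R, 0 < t → 2 * x ≤ t := by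
  induction R using Multiset.induction_on with
  | empty => exact ⟨1, one_pos, by simp⟩
  | cons t R ih =>
    obtain ⟨x, hx, h⟩ := ih
    by_cases ht : 0 < t
    · refine ⟨min x (t/2), lt_min hx (by linarith), ?_⟩
      intro s hs hs0
      rcases Multiset.mem_cons.mp hs with rfl | hs
      · have := min_le_right x (s/2); linarith
      · have := h s hs hs0
        have := min_le_left x (t/2)
        linarith
    · refine ⟨x, hx, ?_⟩
      intro s hs hs0
      rcases Multiset.mem_cons.mp hs with rfl | hs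
      · exact absurd hs0 ht
      · exact h s hs hs0

lemma Ab_eq (R : Multiset ℝ) (x : ℝ) (hx : 0 < x) (h : ∀ t ∈ R, 0 < t → 2 * x ≤ t) :
    Ab x R = Ab 0 R := by
  unfold Ab
  congr 1
  apply Multiset.filter_congr
  intro t ht
  constructor
  · intro h1; linarith
  · intro h1; have := h t ht h1; linarith

lemma Ld_bound (R : Multiset ℝ) (x τ : ℝ) (hx : 0 < x) (hτ : 0 < τ) (h : ∀ t ∈ R, 0 < t → 2 * x ≤ t) :
    ‖Ld R (vl x τ)‖ ≤ R.card / x := by
  induction R using Multiset.induction_on with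
  | empty => simp
  | cons t R ih =>
    rw [Ld_cons, Multiset.card_cons]
    have ih' := ih (fun s hs => h s (Multiset.mem_cons_of_mem hs))
    have h1 : x ≤ ‖vl x τ - (t:ℂ)‖ := by
      have h2 := Complex.abs_re_le_norm (vl x τ - (t:ℂ))
      simp only [Complex.sub_re, vl_re, Complex.ofReal_re] at h2
      refine le_trans ?_ h2
      by_cases ht : 0 < t
      · have := h t (Multiset.mem_cons_self t R) ht
        rw [abs_sub_comm, abs_of_nonneg (by linarith)]; linarith
      · push Not at ht
        rw [abs_of_nonneg (by linarith)]; linarith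
    calc ‖1 / (vl x τ - (t:ℂ)) + Ld R (vl x τ)‖ ≤ ‖1 / (vl x τ - (t:ℂ))‖ + ‖Ld R (vl x τ)‖ := norm_add_le _ _
      _ ≤ 1 / x + R.card / x := by
        apply add_le_add _ ih'
        rw [norm_div, norm_one]
        exact div_le_div_of_nonneg_left (by norm_num) hx h1
      _ = _ := by push_cast; ring

lemma Ab_mono (R R' : Multiset ℝ) (h : ∀ z : ℂ, 0 < z.im → Th R' z ≤ Th R z) : Ab 0 R' ≤ Ab 0 R := by
  obtain ⟨x, hx, hg⟩ := gap_exists (R + R')
  have hg1 : ∀ t ∈ R, 0 < t → 2 * x ≤ t := fun t ht => hg t (Multiset.mem_add.mpr (Or.inl ht))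
  have hg2 : ∀ t ∈ R', 0 < t → 2 * x ≤ t := fun t ht => hg t (Multiset.mem_add.mpr (Or.inr ht))
  set c : ℝ := R.card + R'.card + 1 with hc
  have hcpos : 0 < c := by positivity
  set τ := x / (10 * c) with hτ
  have hτpos : 0 < τ := by positivity
  have hz : 0 < (vl x τ).im := by simpa using hτpos
  have h1 := Th_Ab' R (vl x τ) hz
  have h2 := Th_Ab' R' (vl x τ) hz
  have b1 := Ld_bound R x τ hx hτpos hg1
  have b2 := Ld_bound R' x τ hx hτpos hg2
  rw [vl_re, vl_im, Ab_eq R x hx hg1] at h1
  rw [vl_re, vl_im, Ab_eq R' x hx hg2] at h2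
  have c1 : (R.card:ℝ) ≤ c := by rw [hc]; have : (0:ℝ) ≤ R'.card := Nat.cast_nonneg _; linarith
  have c2 : (R'.card:ℝ) ≤ c := by rw [hc]; have : (0:ℝ) ≤ R.card := Nat.cast_nonneg _; linarith
  have d1 : 5 * (τ * ‖Ld R (vl x τ)‖) ≤ 1/2 := by
    have : τ * ‖Ld R (vl x τ)‖ ≤ τ * (c / x) := by
      apply mul_le_mul_of_nonneg_left _ hτpos.le
      exact b1.trans (div_le_div_of_nonneg_right c1 hx.le)
    have e : τ * (c / x) = 1/10 := by rw [hτ]; field_simp
    linarith
  have d2 : 5 * (τ * ‖Ld R' (vl x τ)‖) ≤ 1/2 := by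
    have : τ * ‖Ld R' (vl x τ)‖ ≤ τ * (c / x) := by
      apply mul_le_mul_of_nonneg_left _ hτpos.le
      exact b2.trans (div_le_div_of_nonneg_right c2 hx.le)
    have e : τ * (c / x) = 1/10 := by rw [hτ]; field_simp
    linarith
  have h3 := h (vl x τ) hz
  have h1' := abs_le.mp (h1.trans d1)
  have h2' := abs_le.mp (h2.trans d2)
  by_contra hcon
  push Not at hcon
  have hcon' : (Ab 0 R : ℝ) + 1 ≤ Ab 0 R' := by exact_mod_cast hcon
  have hpi := Real.pi_gt_three
  nlinarith [h1'.1, h1'.2, h2'.1, h2'.2]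

lemma sign_prod (R : Multiset ℝ) (h0 : (0:ℝ) ∉ R) :
    0 < (-1:ℝ)^(Ab 0 R) * (R.map (fun t => -t)).prod := by
  induction R using Multiset.induction_on with
  | empty => simp
  | cons t R ih =>
    have h1 : (0:ℝ) ∉ R := fun h => h0 (Multiset.mem_cons_of_mem h)
    have h2 : t ≠ 0 := fun h => h0 (by rw [h]; exact Multiset.mem_cons_self 0 R)
    have ih' := ih h1
    rw [Ab_cons, Multiset.map_cons, Multiset.prod_cons]
    by_cases ht : 0 < t
    · rw [if_pos ht, pow_add, pow_one]
      have : -1 * (-1:ℝ)^(Ab 0 R) * (-t * (R.map (fun t => -t)).prod) =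
        t * ((-1:ℝ)^(Ab 0 R) * (R.map (fun t => -t)).prod) := by ring
      rw [this]; positivity
    · rw [if_neg ht, zero_add]
      have ht' : 0 < -t := by
        push Not at ht
        have := lt_of_le_of_ne ht h2
        linarith
      have : (-1:ℝ)^(Ab 0 R) * (-t * (R.map (fun t => -t)).prod) =
        (-t) * ((-1:ℝ)^(Ab 0 R) * (R.map (fun t => -t)).prod) := by ring
      rw [this]; positivity

end Pool.Agent.H704R3
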