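import Mathlib
import Pool.Agent.H704R3.Roots

set_option autoImplicit false
set_option linter.unusedSectionVars false
set_option linter.unusedVariables false

namespace Pool.Agent.H704R3
open Polynomial Filter Topology

section
variable {ι : Type*} [DecidableEq ι]

lemma es_real_cast (S : Finset ι) (k : ℕ) (y : ι → ℝ) :
    es S k (sh y 0) = ((es S k y : ℝ) : ℂ) := by
  unfold es sh
  push_cast
  simp

lemma es_conj (S : Finset ι) (k : ℕ) (y : ι → ℝ) (z : ℂ) :
    es S k (sh y ((starRingEnd ℂ) z)) = (starRingEnd ℂ) (es S k (sh y z)) := by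
  unfold es sh
  simp [map_sum, map_prod]

theorem factor (y : ι → ℝ) (S : Finset ι) (k : ℕ) (hk : k ≤ S.card) :
    ∃ R : Multiset ℝ, R.card = k ∧ ∀ z : ℂ, es S k (sh y z) = (S.card.choose k : ℂ) * Pr R z := by
  set P : ℂ[X] := es S k (fun i => (X + C (y i : ℂ) : ℂ[X])) with hP
  have heval : ∀ z : ℂ, P.eval z = es S k (sh y z) := by
    intro z
    rw [hP]
    unfold es sh
    rw [eval_finset_sum]
    apply Finset.sum_congr rfl
    intro T _
    rw [eval_prod]
    apply Finset.prod_congr rfl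
    intro i _
    simp [add_comm]
  have hmon : ∀ T ∈ S.powersetCard k, (∏ i ∈ T, (X + C (y i : ℂ) : ℂ[X])).Monic ∧
      (∏ i ∈ T, (X + C (y i : ℂ) : ℂ[X])).natDegree = k := by
    intro T hT
    refine ⟨monic_prod_of_monic _ _ (fun i _ => monic_X_add_C _), ?_⟩
    rw [natDegree_prod_of_monic _ _ (fun i _ => monic_X_add_C _)]
    simp [natDegree_X_add_C, (Finset.mem_powersetCard.mp hT).2]
  have hcoeff : P.coeff k = (S.card.choose k : ℂ) := by
    rw [hP]
    unfold es
    rw [finset_sum_coeff]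
    have : ∀ T ∈ S.powersetCard k, (∏ i ∈ T, (X + C (y i : ℂ) : ℂ[X])).coeff k = 1 := by
      intro T hT
      have h := (hmon T hT).1.coeff_natDegree
      rwa [(hmon T hT).2] at h
    rw [Finset.sum_congr rfl this]
    simp
  have hchoose : (S.card.choose k : ℂ) ≠ 0 := by
    exact_mod_cast (Nat.choose_pos hk).ne'
  have hle : P.natDegree ≤ k := by
    rw [hP]
    unfold es
    exact natDegree_sum_le_of_forall_le _ _ (fun T hT => (hmon T hT).2.le)
  have hdeg : P.natDegree = k := by
    apply le_antisymm hle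
    apply le_natDegree_of_ne_zero
    rw [hcoeff]; exact hchoose
  have hlead : P.leadingCoeff = (S.card.choose k : ℂ) := by
    unfold leadingCoeff; rw [hdeg, hcoeff]
  have hroots : P.roots.card = P.natDegree := IsAlgClosed.card_roots_eq_natDegree
  have hq := C_leadingCoeff_mul_prod_multiset_X_sub_C hroots
  have hP0 : P ≠ 0 := by
    intro h; rw [h] at hcoeff; simp at hcoeff; exact hchoose hcoeff.symm
  have hreal : ∀ r ∈ P.roots, ((r.re : ℝ) : ℂ) = r := by
    intro r hr
    rw [mem_roots hP0, IsRoot, heval] at hr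
    have him : r.im = 0 := by
      rcases lt_trichotomy r.im 0 with h | h | h
      · exfalso
        have h1 := es_conj S k y r
        rw [hr, map_zero] at h1
        exact es_ne y S k ((starRingEnd ℂ) r) (by simpa using h) hk h1
      · exact h
      · exact absurd hr (es_ne y S k r h hk)
    apply Complex.ext <;> simp [him]
  refine ⟨P.roots.map Complex.re, by rw [Multiset.card_map, hroots, hdeg], ?_⟩
  intro z
  rw [← heval z]
  conv_lhs => rw [← hq]
  rw [eval_mul, eval_C, eval_multiset_prod, Multiset.map_map, hlead]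
  congr 1
  unfold Pr
  rw [Multiset.map_map]
  congr 1
  apply Multiset.map_congr rfl
  intro r hr
  simp only [Function.comp, eval_sub, eval_X, eval_C]
  rw [hreal r hr]

/-- the real roots of `t ↦ e_k(y+t)` -/
noncomputable def rts (y : ι → ℝ) (S : Finset ι) (k : ℕ) : Multiset ℝ :=
  if h : k ≤ S.card then (factor y S k h).choose else 0

lemma rts_card (y : ι → ℝ) (S : Finset ι) (k : ℕ) (hk : k ≤ S.card) : (rts y S k).card = k := by
  unfold rts; rw [dif_pos hk]; exact (factor y S k hk).choose_spec.1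

lemma rts_eq (y : ι → ℝ) (S : Finset ι) (k : ℕ) (hk : k ≤ S.card) (z : ℂ) :
    es S k (sh y z) = (S.card.choose k : ℂ) * Pr (rts y S k) z := by
  unfold rts; rw [dif_pos hk]; exact (factor y S k hk).choose_spec.2 z

lemma choose_ne (S : Finset ι) (k : ℕ) (hk : k ≤ S.card) : (S.card.choose k : ℂ) ≠ 0 := by
  exact_mod_cast (Nat.choose_pos hk).ne'

lemma Ld_rts (y : ι → ℝ) (S : Finset ι) (k : ℕ) (hk : k + 1 ≤ S.card) (z : ℂ) (hz : 0 < z.im) :
    Ld (rts y S (k+1)) z = (((S.card:ℝ) - k : ℝ) : ℂ) * (1 / ph y S k z) := by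
  have h1 := hasDerivAt_es_sh y S k z
  have h2 := (hasDerivAt_Pr (rts y S (k+1)) z hz).const_mul (S.card.choose (k+1) : ℂ)
  have h3 : (fun w => es S (k+1) (sh y w)) = fun w => (S.card.choose (k+1) : ℂ) * Pr (rts y S (k+1)) w := by
    funext w; exact rts_eq y S (k+1) hk w
  rw [h3] at h1
  have h4 := h1.unique h2
  have n1 : es S (k+1) (sh y z) ≠ 0 := es_ne y S _ z hz hk
  have n2 : es S k (sh y z) ≠ 0 := es_ne y S _ z hz (by omega)
  have h5 : es S (k+1) (sh y z) * Ld (rts y S (k+1)) z = ((S.card:ℂ) - k) * es S k (sh y z) := by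
    rw [rts_eq y S (k+1) hk z, h4]; ring
  unfold ph
  push_cast
  rw [one_div_div, ← mul_div_assoc, eq_div_iff n1, ← h5]
  ring

lemma norm_le_height (y : ι → ℝ) (S : Finset ι) (k : ℕ) (hk : k ≤ S.card) (τ : ℝ) :
    ‖es S k (sh y 0)‖ ≤ ‖es S k (sh y (τ * Complex.I))‖ := by
  rw [rts_eq y S k hk, rts_eq y S k hk, norm_mul, norm_mul]
  apply mul_le_mul_of_nonneg_left _ (norm_nonneg _)
  generalize rts y S k = R
  induction R using Multiset.induction_on with
  | empty => simp
  | cons t R ih =>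
    rw [Pr_cons, Pr_cons, norm_mul, norm_mul]
    apply mul_le_mul _ ih (norm_nonneg _) (norm_nonneg _)
    rw [← sq_le_sq₀ (norm_nonneg _) (norm_nonneg _), ← Complex.normSq_eq_norm_sq,
      ← Complex.normSq_eq_norm_sq]
    simp [Complex.normSq_apply]
    nlinarith [sq_nonneg τ]

lemma rts_real (y : ι → ℝ) (S : Finset ι) (k : ℕ) (hk : k ≤ S.card) :
    es S k y = (S.card.choose k : ℝ) * ((rts y S k).map (fun t => -t)).prod := by
  have h := rts_eq y S k hk 0
  rw [es_real_cast] at h
  have h2 : Pr (rts y S k) 0 = ((((rts y S k).map (fun t => -t)).prod : ℝ) : ℂ) := by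
    generalize rts y S k = R
    induction R using Multiset.induction_on with
    | empty => simp
    | cons t R ih => rw [Pr_cons, ih]; simp
  rw [h2] at h
  exact_mod_cast h

lemma rts_sign (y : ι → ℝ) (S : Finset ι) (k : ℕ) (hk : k ≤ S.card) (h0 : es S k y ≠ 0) :
    0 < (-1:ℝ)^(Ab 0 (rts y S k)) * es S k y := by
  have h := rts_real y S k hk
  have hc : (0:ℝ) < (S.card.choose k : ℝ) := by exact_mod_cast Nat.choose_pos hk
  have hmem : (0:ℝ) ∉ rts y S k := by
    intro hm
    apply h0
    rw [h]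
    have : (0:ℝ) ∈ (rts y S k).map (fun t => -t) := by
      rw [Multiset.mem_map]; exact ⟨0, hm, by simp⟩
    rw [Multiset.prod_eq_zero this, mul_zero]
  have := sign_prod _ hmem
  rw [h]
  calc (0:ℝ) < (S.card.choose k : ℝ) * ((-1:ℝ)^(Ab 0 (rts y S k)) *
        ((rts y S k).map (fun t => -t)).prod) := mul_pos hc this
    _ = _ := by ring

lemma Ab_ne_of_neg (y y' : ι → ℝ) (S : Finset ι) (k : ℕ) (hk : k ≤ S.card)
    (h : es S k y * es S k y' < 0) : Ab 0 (rts y S k) ≠ Ab 0 (rts y' S k) := by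
  intro heq
  have n1 : es S k y ≠ 0 := by intro h0; rw [h0] at h; simp at h
  have n2 : es S k y' ≠ 0 := by intro h0; rw [h0] at h; simp at h
  have h1 := rts_sign y S k hk n1
  have h2 := rts_sign y' S k hk n2
  rw [← heq] at h2
  have h3 := mul_pos h1 h2
  have h4 : (-1:ℝ)^(Ab 0 (rts y S k)) * es S k y * ((-1:ℝ)^(Ab 0 (rts y S k)) * es S k y') =
      ((-1:ℝ)^(Ab 0 (rts y S k)) * (-1:ℝ)^(Ab 0 (rts y S k))) * (es S k y * es S k y') := by ring
  rw [h4, ← mul_pow] at h3
  simp at h3
  linarith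

/-- effect of increasing one coordinate -/
theorem flip_Th (y : ι → ℝ) (S : Finset ι) (k : ℕ) (hk : k + 1 ≤ S.card) (i : ι) (hi : i ∈ S)
    (s : ℝ) (hs : 0 < s) (z : ℂ) (hz : 0 < z.im) :
    0 < (sh y z i + ph y (S.erase i) k z).im ∧
    Th (rts (Function.update y i (y i + s)) S (k+1)) z - Th (rts y S (k+1)) z =
      Complex.arg (1 + s / (sh y z i + ph y (S.erase i) k z)) ∧
    Th (rts (Function.update y i (y i + s)) S (k+1)) z ≤ Th (rts y S (k+1)) z := by
  set y' := Function.update y i (y i + s) with hy'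
  have hcard : (S.erase i).card = S.card - 1 := Finset.card_erase_of_mem hi
  have hQ : ∀ w : ℂ, 0 < w.im → 0 < (sh y w i + ph y (S.erase i) k w).im := by
    intro w hw
    rw [Complex.add_im, sh_im]
    rcases Nat.lt_or_ge (S.erase i).card (k+1) with h | h
    · unfold ph; rw [es_eq_zero _ _ _ h]; simpa using hw
    · have := ph_im_pos y (S.erase i) k w hw h; linarith
  have hratio : ∀ w : ℂ, 0 < w.im → Pr (rts y' S (k+1)) w / Pr (rts y S (k+1)) w =
      1 + s / (sh y w i + ph y (S.erase i) k w) := by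
    intro w hw
    have e1 : Pr (rts y' S (k+1)) w / Pr (rts y S (k+1)) w =
        es S (k+1) (sh y' w) / es S (k+1) (sh y w) := by
      rw [rts_eq y' S (k+1) hk, rts_eq y S (k+1) hk]
      rw [mul_div_mul_left _ _ (choose_ne S (k+1) hk)]
    rw [e1]
    have hcongr : ∀ j, es (S.erase i) j (sh y' w) = es (S.erase i) j (sh y w) := by
      intro j
      unfold es
      apply Finset.sum_congr rfl
      intro T hT
      apply Finset.prod_congr rfl
      intro a ha
      have : a ≠ i := by
        intro h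
        have := (Finset.mem_powersetCard.mp hT).1 ha
        rw [h] at this
        exact Finset.notMem_erase i S this
      unfold sh
      rw [hy', Function.update_of_ne this]
    have hyi : sh y' w i = sh y w i + s := by
      unfold sh; rw [hy', Function.update_self]; push_cast; ring
    have n1 : es S (k+1) (sh y w) ≠ 0 := es_ne y S _ w hw hk
    have n2 : es (S.erase i) k (sh y w) ≠ 0 := es_ne y _ _ w hw (by omega)
    have n3 : sh y w i + ph y (S.erase i) k w ≠ 0 := by
      intro h; have := hQ w hw; rw [h] at this; simp at this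
    have e2 : es S (k+1) (sh y w) = (sh y w i + ph y (S.erase i) k w) * es (S.erase i) k (sh y w) := by
      rw [es_erase hi]; unfold ph; field_simp; ring
    have e3 : es S (k+1) (sh y' w) = es S (k+1) (sh y w) + s * es (S.erase i) k (sh y w) := by
      rw [es_erase hi, es_erase hi, hcongr, hcongr, hyi]; ring
    rw [e3, e2]
    field_simp
  have hneg : ∀ w : ℂ, 0 < w.im → (Pr (rts y' S (k+1)) w / Pr (rts y S (k+1)) w).im < 0 := by
    intro w hw
    rw [hratio w hw]
    have h1 := hQ w hw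
    set Q := sh y w i + ph y (S.erase i) k w
    have hn : 0 < Complex.normSq Q := by
      apply Complex.normSq_pos.mpr; intro h; rw [h] at h1; simp at h1
    have : ((s:ℂ) / Q).im = - s * Q.im / Complex.normSq Q := by
      rw [div_eq_mul_inv, Complex.im_ofReal_mul, Complex.inv_im]; ring
    rw [Complex.add_im, Complex.one_im, this, zero_add]
    apply div_neg_of_neg_of_pos _ hn
    nlinarith
  have hc : (rts y S (k+1)).card = (rts y' S (k+1)).card := by
    rw [rts_card _ _ _ hk, rts_card _ _ _ hk]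
  have hd := Th_diff (rts y S (k+1)) (rts y' S (k+1)) hc hneg z hz
  refine ⟨hQ z hz, by rw [hd, hratio z hz], ?_⟩
  have := Complex.arg_neg_iff.mpr (hneg z hz)
  linarith

theorem flip_Ab (y : ι → ℝ) (S : Finset ι) (k : ℕ) (hk : k + 1 ≤ S.card) (i : ι) (hi : i ∈ S)
    (s : ℝ) (hs : 0 < s) :
    Ab 0 (rts (Function.update y i (y i + s)) S (k+1)) ≤ Ab 0 (rts y S (k+1)) :=
  Ab_mono _ _ (fun z hz => (flip_Th y S k hk i hi s hs z hz).2.2)

theorem flip_Th_bound (y : ι → ℝ) (S : Finset ι) (k : ℕ) (hk : k + 1 ≤ S.card) (i : ι) (hi : i ∈ S)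
    (s : ℝ) (hs : 0 < s) (z : ℂ) (hz : 0 < z.im) (q : ℝ) (hq : 2 * s ≤ q)
    (hQ : q ≤ ‖sh y z i + ph y (S.erase i) k z‖) :
    Th (rts y S (k+1)) z - Th (rts (Function.update y i (y i + s)) S (k+1)) z ≤ 3/2 * (s/q) := by
  obtain ⟨h1, h2, h3⟩ := flip_Th y S k hk i hi s hs z hz
  set Q := sh y z i + ph y (S.erase i) k z
  have hq0 : 0 < q := by linarith
  have hQ0 : 0 < ‖Q‖ := by linarith
  have hn : ‖(s:ℂ)/Q‖ ≤ s/q := by
    rw [norm_div, Complex.norm_real, Real.norm_of_nonneg hs.le]
    exact div_le_div_of_nonneg_left hs.le hq0 hQ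
  have hhalf : ‖(s:ℂ)/Q‖ ≤ 1/2 := by
    refine hn.trans ?_
    rw [div_le_div_iff₀ hq0 (by norm_num)]; linarith
  have hl := Complex.norm_log_one_add_half_le_self hhalf
  have ha : |Complex.arg (1 + (s:ℂ)/Q)| ≤ ‖Complex.log (1 + (s:ℂ)/Q)‖ := by
    rw [← Complex.log_im]; exact Complex.abs_im_le_norm _
  have := neg_abs_le (Complex.arg (1 + (s:ℂ)/Q))
  linarith

end
end Pool.Agent.H704R3
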