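import Mathlib
import Pool.Agent.H704R3.Es

set_option autoImplicit false
set_option linter.unusedSectionVars false
set_option linter.unusedVariables false

namespace Pool.Agent.H704R3
open Polynomial

lemma rolle_aux (p : ℝ[X]) (D : ℝ) :
    (p.roots.filter (fun x => |x| ≤ D)).toFinset.card ≤
      ((p.derivative.roots.filter (fun x => |x| ≤ D)).toFinset \
        (p.roots.filter (fun x => |x| ≤ D)).toFinset).card + 1 := by
  rcases eq_or_ne (derivative p) 0 with hp' | hp'
  · rw [eq_C_of_derivative_eq_zero hp']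
    simp
  have hp : p ≠ 0 := ne_of_apply_ne derivative (by rwa [derivative_zero])
  refine Finset.card_le_sdiff_of_interleaved fun x hx y hy hxy hxy' => ?_
  rw [Multiset.mem_toFinset, Multiset.mem_filter, mem_roots hp] at hx hy
  obtain ⟨z, hz1, hz2⟩ := exists_deriv_eq_zero hxy p.continuousOn (hx.1.trans hy.1.symm)
  refine ⟨z, ?_, hz1⟩
  rw [Multiset.mem_toFinset, Multiset.mem_filter, mem_roots hp', IsRoot, ← p.deriv]
  refine ⟨hz2, ?_⟩
  rw [abs_le]
  have h1 := abs_le.mp hx.2
  have h2 := abs_le.mp hy.2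
  exact ⟨by linarith [hz1.1], by linarith [hz1.2]⟩

theorem card_filter_le (p : ℝ[X]) (D : ℝ) :
    (p.roots.filter (fun x => |x| ≤ D)).card ≤
      (p.derivative.roots.filter (fun x => |x| ≤ D)).card + 1 := by
  set s := p.roots.filter (fun x => |x| ≤ D) with hs
  set t := p.derivative.roots.filter (fun x => |x| ≤ D) with ht
  have hcs : ∀ x ∈ s.toFinset, s.count x = p.rootMultiplicity x := by
    intro x hx
    rw [Multiset.mem_toFinset, hs, Multiset.mem_filter] at hx
    rw [hs, Multiset.count_filter_of_pos (p := fun x => |x| ≤ D) hx.2, count_roots]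
  have hct : ∀ x ∈ s.toFinset, t.count x = p.derivative.rootMultiplicity x := by
    intro x hx
    rw [Multiset.mem_toFinset, hs, Multiset.mem_filter] at hx
    rw [ht, Multiset.count_filter_of_pos (p := fun x => |x| ≤ D) hx.2, count_roots]
  calc
    Multiset.card s = ∑ x ∈ s.toFinset, s.count x := (Multiset.toFinset_sum_count_eq _).symm
    _ = ∑ x ∈ s.toFinset, (s.count x - 1 + 1) :=
      (Eq.symm <| Finset.sum_congr rfl fun _ hx => tsub_add_cancel_of_le <|
        Nat.succ_le_iff.2 <| Multiset.count_pos.2 <| Multiset.mem_toFinset.1 hx)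
    _ = (∑ x ∈ s.toFinset, (s.count x - 1)) + s.toFinset.card := by
      simp only [Finset.sum_add_distrib, Finset.card_eq_sum_ones]
    _ ≤ (∑ x ∈ s.toFinset, t.count x) + ((t.toFinset \ s.toFinset).card + 1) := by
      apply add_le_add _ (rolle_aux p D)
      apply Finset.sum_le_sum
      intro x hx
      rw [hcs x hx, hct x hx]
      exact rootMultiplicity_sub_one_le_derivative_rootMultiplicity _ _
    _ ≤ (∑ x ∈ s.toFinset, t.count x) + ((∑ x ∈ t.toFinset \ s.toFinset, t.count x) + 1) := by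
      simp only [Finset.card_eq_sum_ones]
      gcongr with x hx
      rw [Nat.succ_le_iff, Multiset.count_pos, ← Multiset.mem_toFinset]
      exact (Finset.mem_sdiff.1 hx).1
    _ = Multiset.card t + 1 := by
      rw [← add_assoc, ← Finset.sum_union Finset.disjoint_sdiff, Finset.union_sdiff_self_eq_union, ←
        Multiset.toFinset_sum_count_eq, ← Finset.sum_subset Finset.subset_union_right]
      intro x _ hx₂
      simpa only [Multiset.mem_toFinset, Multiset.count_eq_zero] using hx₂

theorem card_filter_iter (p : ℝ[X]) (D : ℝ) (j : ℕ) :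
    (p.roots.filter (fun x => |x| ≤ D)).card ≤
      ((derivative^[j] p).roots.filter (fun x => |x| ≤ D)).card + j := by
  induction j with
  | zero => simp
  | succ j ih =>
    have := card_filter_le (derivative^[j] p) D
    rw [Function.iterate_succ_apply']
    omega

/-- real-rootedness, as a counting statement -/
def RR (p : ℝ[X]) : Prop := Multiset.card p.roots = p.natDegree

lemma RR_derivative (p : ℝ[X]) (h : RR p) : RR (derivative p) := by
  unfold RR at h ⊢
  have h1 := card_roots_le_derivative p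
  have h2 := card_roots' (derivative p)
  have h3 := natDegree_derivative_le p
  rcases Nat.eq_zero_or_pos p.natDegree with h0 | h0
  · have : derivative p = 0 := by
      rw [eq_C_of_natDegree_eq_zero h0]; simp
    rw [this]; simp
  · omega

lemma RR_iter (p : ℝ[X]) (h : RR p) (j : ℕ) : RR (derivative^[j] p) := by
  induction j with
  | zero => simpa
  | succ j ih => rw [Function.iterate_succ_apply']; exact RR_derivative _ ih

lemma coeff_cons (x : ℝ) (r : ℝ[X]) :
    ((X - C x) * r).coeff 0 = - x * r.coeff 0 ∧ ((X - C x) * r).coeff 1 = r.coeff 0 - x * r.coeff 1 ∧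
    ((X - C x) * r).coeff 2 = r.coeff 1 - x * r.coeff 2 := by
  refine ⟨?_, ?_, ?_⟩
  · rw [sub_mul, coeff_sub, coeff_C_mul]; simp
  · rw [sub_mul, coeff_sub, coeff_C_mul, coeff_X_mul]
  · rw [sub_mul, coeff_sub, coeff_C_mul, coeff_X_mul]

lemma laguerre_mset (a : ℝ) (s : Multiset ℝ) :
    2 * (C a * (s.map (fun x => X - C x)).prod).coeff 0 * (C a * (s.map (fun x => X - C x)).prod).coeff 2 ≤
      ((C a * (s.map (fun x => X - C x)).prod).coeff 1)^2 := by
  induction s using Multiset.induction_on with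
  | empty => simp [coeff_C]
  | cons x s ih =>
    rw [Multiset.map_cons, Multiset.prod_cons]
    have e : C a * ((X - C x) * (s.map (fun x => X - C x)).prod) =
        (X - C x) * (C a * (s.map (fun x => X - C x)).prod) := by ring
    rw [e]
    obtain ⟨h0, h1, h2⟩ := coeff_cons x (C a * (s.map (fun x => X - C x)).prod)
    rw [h0, h1, h2]
    nlinarith [mul_nonneg (sq_nonneg x) (sub_nonneg.mpr ih),
      sq_nonneg ((C a * (s.map (fun x => X - C x)).prod).coeff 0)]

lemma laguerre (q : ℝ[X]) (h : RR q) : 2 * q.coeff 0 * q.coeff 2 ≤ (q.coeff 1)^2 := by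
  have := C_leadingCoeff_mul_prod_multiset_X_sub_C h
  rw [← this]
  exact laguerre_mset _ _

lemma laguerre_root (q : ℝ[X]) (h : RR q) (D : ℝ) (hD : 0 < D)
    (hx : 0 < (q.roots.filter (fun x => |x| ≤ D)).card) :
    (q.coeff 0)^2 ≤ D^2 * ((q.coeff 1)^2 - 2 * q.coeff 0 * q.coeff 2) := by
  obtain ⟨x, hx⟩ := Multiset.card_pos_iff_exists_mem.mp hx
  rw [Multiset.mem_filter] at hx
  obtain ⟨hx1, hx2⟩ := hx
  obtain ⟨s, hs⟩ := Multiset.exists_cons_of_mem hx1
  have hq := C_leadingCoeff_mul_prod_multiset_X_sub_C h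
  rw [hs, Multiset.map_cons, Multiset.prod_cons] at hq
  have e : q = (X - C x) * (C q.leadingCoeff * (s.map (fun x => X - C x)).prod) := by
    rw [← hq]
    conv_rhs => rw [hq]
    ring_nf
  obtain ⟨h0, h1, h2⟩ := coeff_cons x (C q.leadingCoeff * (s.map (fun x => X - C x)).prod)
  have hl := laguerre_mset q.leadingCoeff s
  set r := C q.leadingCoeff * (s.map (fun x => X - C x)).prod with hr
  have g0 : q.coeff 0 = - x * r.coeff 0 := by rw [e]; exact h0
  have g1 : q.coeff 1 = r.coeff 0 - x * r.coeff 1 := by rw [e]; exact h1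
  have g2 : q.coeff 2 = r.coeff 1 - x * r.coeff 2 := by rw [e]; exact h2
  have e1 : (q.coeff 1)^2 - 2 * q.coeff 0 * q.coeff 2 =
      (r.coeff 0)^2 + x^2 * ((r.coeff 1)^2 - 2 * r.coeff 0 * r.coeff 2) := by
    rw [g0, g1, g2]; ring
  have hx3 : x^2 ≤ D^2 := by
    rw [← sq_abs x]
    exact pow_le_pow_left₀ (abs_nonneg x) hx2 2
  rw [e1, g0]
  nlinarith [mul_nonneg (sq_nonneg D) (mul_nonneg (sq_nonneg x) (sub_nonneg.mpr hl)),
    mul_le_mul_of_nonneg_right hx3 (sq_nonneg (r.coeff 0))]

lemma df1 (j : ℕ) : ((1+j).descFactorial j : ℝ) = ((j:ℝ)+1) * (j.factorial : ℝ) := by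
  have h := Nat.factorial_mul_descFactorial (n := 1+j) (k := j) (by omega)
  rw [show 1+j-j=1 by omega, Nat.factorial_one, one_mul] at h
  rw [h, show 1+j = j+1 by omega, Nat.factorial_succ]; push_cast; ring

lemma df2 (j : ℕ) : 2 * ((2+j).descFactorial j : ℝ) = ((j:ℝ)+2) * (((j:ℝ)+1) * (j.factorial : ℝ)) := by
  have h := Nat.factorial_mul_descFactorial (n := 2+j) (k := j) (by omega)
  rw [show 2+j-j=2 by omega, Nat.factorial_two] at h
  have h' : (2:ℝ)*((2+j).descFactorial j:ℝ) = ((2+j).factorial:ℝ) := by exact_mod_cast h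
  rw [h', show 2+j=j+1+1 by omega, Nat.factorial_succ, Nat.factorial_succ]; push_cast; ring

section
variable {ι : Type*} [DecidableEq ι]

/-- generating polynomial -/
noncomputable def gp (S : Finset ι) (y : ι → ℝ) : ℝ[X] := ∏ i ∈ S, (C (y i) * X + C 1)

lemma gp_coeff (S : Finset ι) (y : ι → ℝ) : ∀ j, (gp S y).coeff j = es S j y := by
  induction S using Finset.induction_on with
  | empty =>
    intro j
    cases j with
    | zero => simp [gp]
    | succ j => rw [es_empty]; simp [gp, coeff_one]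
  | @insert a S ha ih =>
    intro j
    have e : gp (insert a S) y = C (y a) * (X * gp S y) + gp S y := by
      unfold gp
      rw [Finset.prod_insert ha]
      simp only [map_one]
      ring
    rw [e]
    cases j with
    | zero => simp [ih]
    | succ j =>
      rw [coeff_add, coeff_C_mul, coeff_X_mul, ih, ih, es_insert ha]; ring

lemma gp_facts (S : Finset ι) (y : ι → ℝ) (δ : ℝ) (hδ : 0 < δ) :
    gp S y ≠ 0 ∧ RR (gp S y) ∧ (S.filter (fun i => δ ≤ |y i|)).card ≤
      ((gp S y).roots.filter (fun x => |x| ≤ 1/δ)).card := by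
  induction S using Finset.induction_on with
  | empty => simp [gp, RR]
  | @insert a S ha ih =>
    obtain ⟨h1, h2, h3⟩ := ih
    have e : gp (insert a S) y = (C (y a) * X + C 1) * gp S y := by
      unfold gp
      rw [Finset.prod_insert ha]
    by_cases hy : y a = 0
    · have e2 : gp (insert a S) y = gp S y := by rw [e, hy]; simp
      rw [e2]
      refine ⟨h1, h2, ?_⟩
      rw [Finset.filter_insert, if_neg]
      · exact h3
      · rw [hy]; simpa using hδ
    · have hne : (C (y a) * X + C 1 : ℝ[X]) ≠ 0 := by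
        intro h
        have := congrArg (fun q => coeff q 0) h
        simp at this
      have hroots : (C (y a) * X + C 1 : ℝ[X]).roots = {-((y a)⁻¹ * 1)} := roots_C_mul_X_add_C 1 hy
      rw [e]
      refine ⟨mul_ne_zero hne h1, ?_, ?_⟩
      · unfold RR at h2 ⊢
        rw [roots_mul (mul_ne_zero hne h1), Multiset.card_add, h2, hroots, natDegree_mul hne h1,
          natDegree_linear hy]
        simp
      · rw [roots_mul (mul_ne_zero hne h1), Multiset.filter_add, Multiset.card_add, hroots]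
        rw [Finset.filter_insert]
        split_ifs with hif
        · have hmem : Multiset.card (Multiset.filter (fun x => |x| ≤ 1/δ) ({-((y a)⁻¹ * 1)} : Multiset ℝ)) = 1 := by
            rw [Multiset.filter_singleton, if_pos]
            · simp
            · rw [abs_neg, mul_one, abs_inv, ← one_div]
              exact div_le_div_of_nonneg_left (by norm_num) hδ hif
          rw [hmem]
          have := Finset.card_insert_le a (S.filter (fun i => δ ≤ |y i|))
          omega
        · omega

/-- strengthened Turán inequality -/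
theorem turan_strong (S : Finset ι) (y : ι → ℝ) (δ : ℝ) (hδ : 0 < δ) (j : ℕ)
    (hj : j + 1 ≤ (S.filter (fun i => δ ≤ |y i|)).card) :
    δ^2 * (es S j y)^2 ≤ ((j:ℝ)+1)^2 * (es S (j+1) y)^2 -
      ((j:ℝ)+1) * (j+2) * es S j y * es S (j+2) y := by
  obtain ⟨h1, h2, h3⟩ := gp_facts S y δ hδ
  have h4 := card_filter_iter (gp S y) (1/δ) j
  have h5 := laguerre_root (derivative^[j] (gp S y)) (RR_iter _ h2 j) (1/δ) (by positivity) (by omega)
  rw [coeff_iterate_derivative, coeff_iterate_derivative, coeff_iterate_derivative,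
    gp_coeff, gp_coeff, gp_coeff] at h5
  simp only [nsmul_eq_mul] at h5
  have d0 : ((0+j).descFactorial j : ℝ) = (j.factorial : ℝ) := by
    rw [zero_add, Nat.descFactorial_self]
  have d1 := df1 j
  have d2 := df2 j
  rw [d0, d1, show 0 + j = j by omega, show 1 + j = j + 1 by omega, show 2 + j = j + 2 by omega] at h5
  rw [show 2 + j = j + 2 by omega] at d2
  have hf : (0:ℝ) < j.factorial := by exact_mod_cast Nat.factorial_pos j
  set e0 := es S j y
  set e1 := es S (j+1) y
  set e2 := es S (j+2) y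
  have h6 : 2 * ((j.factorial:ℝ) * e0) * (((j+2).descFactorial j : ℝ) * e2) =
      (j.factorial:ℝ)^2 * (((j:ℝ)+1) * (j+2) * e0 * e2) := by
    calc 2 * ((j.factorial:ℝ) * e0) * (((j+2).descFactorial j : ℝ) * e2) =
        (2 * ((j+2).descFactorial j : ℝ)) * (j.factorial:ℝ) * e0 * e2 := by ring
      _ = _ := by rw [d2]; ring
  rw [h6] at h5
  have h7 : (j.factorial:ℝ)^2 * e0^2 ≤ (1/δ)^2 * ((j.factorial:ℝ)^2 *
      (((j:ℝ)+1)^2 * e1^2 - ((j:ℝ)+1) * (j+2) * e0 * e2)) := by
    calc (j.factorial:ℝ)^2 * e0^2 = ((j.factorial:ℝ) * e0)^2 := by ring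
      _ ≤ _ := h5
      _ = _ := by ring
  have hf2 : (0:ℝ) < (j.factorial:ℝ)^2 := by positivity
  have h8 : e0^2 ≤ (1/δ)^2 * (((j:ℝ)+1)^2 * e1^2 - ((j:ℝ)+1) * (j+2) * e0 * e2) := by
    have : (j.factorial:ℝ)^2 * e0^2 ≤ (j.factorial:ℝ)^2 * ((1/δ)^2 *
      (((j:ℝ)+1)^2 * e1^2 - ((j:ℝ)+1) * (j+2) * e0 * e2)) := by linarith
    exact le_of_mul_le_mul_left this hf2
  rw [one_div, inv_pow, ← div_eq_inv_mul, le_div_iff₀ (by positivity)] at h8
  linarith

/-- weak Turán inequality -/
theorem turan_weak (S : Finset ι) (y : ι → ℝ) (j : ℕ) :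
    es S j y * es S (j+2) y ≤ (es S (j+1) y)^2 := by
  obtain ⟨h1, h2, h3⟩ := gp_facts S y 1 one_pos
  have h5 := laguerre (derivative^[j] (gp S y)) (RR_iter _ h2 j)
  rw [coeff_iterate_derivative, coeff_iterate_derivative, coeff_iterate_derivative,
    gp_coeff, gp_coeff, gp_coeff] at h5
  simp only [nsmul_eq_mul] at h5
  have d0 : ((0+j).descFactorial j : ℝ) = (j.factorial : ℝ) := by
    rw [zero_add, Nat.descFactorial_self]
  have d1 := df1 j
  have d2 := df2 j
  rw [d0, d1, show 0 + j = j by omega, show 1 + j = j + 1 by omega, show 2 + j = j + 2 by omega] at h5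
  rw [show 2 + j = j + 2 by omega] at d2
  have hf : (0:ℝ) < j.factorial := by exact_mod_cast Nat.factorial_pos j
  set e0 := es S j y
  set e1 := es S (j+1) y
  set e2 := es S (j+2) y
  have h6 : 2 * ((j.factorial:ℝ) * e0) * (((j+2).descFactorial j : ℝ) * e2) =
      (j.factorial:ℝ)^2 * (((j:ℝ)+1) * (j+2) * e0 * e2) := by
    calc 2 * ((j.factorial:ℝ) * e0) * (((j+2).descFactorial j : ℝ) * e2) =
        (2 * ((j+2).descFactorial j : ℝ)) * (j.factorial:ℝ) * e0 * e2 := by ring
      _ = _ := by rw [d2]; ring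
  rw [h6] at h5
  have hf2 : (0:ℝ) < (j.factorial:ℝ)^2 := by positivity
  have h8 : ((j:ℝ)+1) * (j+2) * e0 * e2 ≤ ((j:ℝ)+1)^2 * e1^2 := by
    have : (j.factorial:ℝ)^2 * (((j:ℝ)+1) * (j+2) * e0 * e2) ≤
        (j.factorial:ℝ)^2 * (((j:ℝ)+1)^2 * e1^2) := by
      calc _ ≤ _ := h5
        _ = _ := by ring
    exact le_of_mul_le_mul_left this hf2
  have hj1 : (0:ℝ) < (j:ℝ)+1 := by positivity
  have h9 : ((j:ℝ)+2) * (e0 * e2) ≤ ((j:ℝ)+1) * e1^2 := by
    have : ((j:ℝ)+1) * (((j:ℝ)+2) * (e0 * e2)) ≤ ((j:ℝ)+1) * (((j:ℝ)+1) * e1^2) := by linarith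
    exact le_of_mul_le_mul_left this hj1
  by_cases hs : e0 * e2 ≤ 0
  · linarith [sq_nonneg e1]
  · push Not at hs
    have : ((j:ℝ)+1) * (e0 * e2) ≤ ((j:ℝ)+1) * e1^2 := by linarith
    exact le_of_mul_le_mul_left this hj1

end
end Pool.Agent.H704R3
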