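import Mathlib
import Pool.Agent.H704R3.Factor
import Pool.Agent.H704R3.Turan

set_option autoImplicit false
set_option linter.unusedSectionVars false
set_option linter.unusedVariables false

namespace Pool.Agent.H704R3
open Finset

section
variable {ι : Type*} [DecidableEq ι]

lemma shift_formula (y : ι → ℝ) (S : Finset ι) : ∀ k : ℕ, k ≤ S.card → ∀ z : ℂ,
    es S k (sh y z) = ∑ r ∈ range (k+1), ((S.card - k + r).choose r : ℂ) * z^r *
      ((es S (k-r) y : ℝ) : ℂ) := by
  intro k
  induction k with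
  | zero => intro _ z; simp
  | succ k ih =>
    intro hk z
    have ih' := ih (by omega)
    let g : ℂ → ℂ := fun w => (∑ r ∈ range (k+1), ((S.card - (k+1) + (r+1)).choose (r+1) : ℂ) * w^(r+1) *
      ((es S (k-r) y : ℝ) : ℂ)) + ((es S (k+1) y : ℝ) : ℂ)
    have hg : ∀ w : ℂ, HasDerivAt g (((S.card:ℂ) - k) * es S k (sh y w)) w := by
      intro w
      have h1 : HasDerivAt g ((∑ r ∈ range (k+1), ((S.card - (k+1) + (r+1)).choose (r+1) : ℂ) *
          (((r+1:ℕ):ℂ) * w^r) * ((es S (k-r) y : ℝ) : ℂ))) w := by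
        apply HasDerivAt.add_const
        apply HasDerivAt.fun_sum
        intro r _
        have h2 := ((hasDerivAt_pow (r+1) w).const_mul
          ((S.card - (k+1) + (r+1)).choose (r+1) : ℂ)).mul_const ((es S (k-r) y : ℝ) : ℂ)
        simpa using h2
      refine h1.congr_deriv ?_
      rw [ih' w, mul_sum]
      apply sum_congr rfl
      intro r hr
      have e1 : S.card - (k+1) + (r+1) = S.card - k + r := by omega
      have e2 := Nat.choose_succ_right_eq (S.card - k + r) r
      rw [show S.card - k + r - r = S.card - k by omega] at e2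
      have e3 : (((S.card - k + r).choose (r+1) : ℕ) : ℂ) * ((r+1:ℕ):ℂ) =
          (((S.card - k + r).choose r : ℕ) : ℂ) * ((S.card:ℂ) - k) := by
        have := congrArg (Nat.cast : ℕ → ℂ) e2
        rw [Nat.cast_mul, Nat.cast_mul, Nat.cast_sub (by omega : k ≤ S.card)] at this
        exact this
      rw [e1]
      calc (((S.card - k + r).choose (r+1) : ℕ) : ℂ) * (((r+1:ℕ):ℂ) * w^r) * ((es S (k-r) y : ℝ) : ℂ) =
          ((((S.card - k + r).choose (r+1) : ℕ) : ℂ) * ((r+1:ℕ):ℂ)) * w^r * ((es S (k-r) y : ℝ) : ℂ) := by ring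
        _ = _ := by rw [e3]; ring
    let d : ℂ → ℂ := fun w => es S (k+1) (sh y w) - g w
    have hd : ∀ w, HasDerivAt d 0 w := by
      intro w
      have := (hasDerivAt_es_sh y S k w).sub (hg w)
      rw [sub_self] at this
      exact this
    have hconst : d z = d 0 := is_const_of_deriv_eq_zero (fun w => (hd w).differentiableAt)
      (fun w => (hd w).deriv) z 0
    have hd0 : d 0 = 0 := by
      simp only [d, g]
      rw [es_real_cast]
      simp
    rw [hd0] at hconst
    have : es S (k+1) (sh y z) = g z := sub_eq_zero.mp hconst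
    rw [this, sum_range_succ']
    simp only [g]
    congr 1
    · apply sum_congr rfl
      intro r _
      rw [show k + 1 - (r+1) = k - r by omega]
    · simp

lemma shift_bound (y : ι → ℝ) (S : Finset ι) (k : ℕ) (hk : k ≤ S.card) (N τ : ℝ)
    (hN : (S.card:ℝ) ≤ N) (hτ : 0 < τ) :
    ‖es S k (sh y (τ * Complex.I))‖ ≤ ∑ r ∈ range (k+1), (N*τ)^r / (r.factorial:ℝ) * |es S (k-r) y| := by
  rw [shift_formula y S k hk]
  refine (norm_sum_le _ _).trans ?_
  apply sum_le_sum
  intro r hr
  rw [norm_mul, norm_mul, norm_pow, norm_mul, Complex.norm_I, mul_one, Complex.norm_real,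
    Complex.norm_real, Real.norm_of_nonneg hτ.le, Real.norm_eq_abs, Complex.norm_natCast]
  apply mul_le_mul_of_nonneg_right _ (abs_nonneg _)
  have h1 : ((S.card - k + r).choose r : ℝ) ≤ ((S.card - k + r : ℕ) : ℝ)^r / (r.factorial:ℝ) :=
    Nat.choose_le_pow_div r (S.card - k + r)
  have h2 : ((S.card - k + r : ℕ) : ℝ) ≤ N := by
    refine le_trans ?_ hN
    have : r ≤ k := by have := mem_range.mp hr; omega
    exact_mod_cast (by omega : S.card - k + r ≤ S.card)
  have h3 : ((S.card - k + r : ℕ) : ℝ)^r ≤ N^r := pow_le_pow_left₀ (Nat.cast_nonneg _) h2 r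
  have hf : (0:ℝ) < r.factorial := by exact_mod_cast Nat.factorial_pos r
  calc ((S.card - k + r).choose r : ℝ) * τ^r ≤ (N^r / (r.factorial:ℝ)) * τ^r := by
        apply mul_le_mul_of_nonneg_right _ (by positivity)
        exact h1.trans (div_le_div_of_nonneg_right h3 hf.le)
    _ = _ := by rw [mul_pow]; ring

lemma geo_sum (n : ℕ) : ∑ r ∈ range n, (1/2:ℝ)^(r+2) ≤ 1/2 := by
  have : ∑ r ∈ range n, (1/2:ℝ)^(r+2) = 1/2 - (1/2)^(n+1) := by
    induction n with
    | zero => norm_num
    | succ n ih => rw [sum_range_succ, ih]; ring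
  rw [this]
  have : (0:ℝ) < (1/2)^(n+1) := by positivity
  linarith

lemma pow_fact_bound (X : ℝ) (hX : 0 ≤ X) (m r : ℕ) (hm : 1 ≤ m) (hm2 : 24 * X ≤ m) (hr : m ≤ r) :
    X^r / (r.factorial:ℝ) ≤ (1/2)^(r+2) := by
  have hmR : (1:ℝ) ≤ m := by exact_mod_cast hm
  have hf : (0:ℝ) < r.factorial := by exact_mod_cast Nat.factorial_pos r
  have h1 : (m:ℝ)^r / (r.factorial:ℝ) ≤ Real.exp m := Real.pow_div_factorial_le_exp (m:ℝ) (by linarith) r
  have h2 : Real.exp m ≤ 3^r := by
    have : Real.exp m ≤ Real.exp r := Real.exp_le_exp.mpr (by exact_mod_cast hr)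
    refine this.trans ?_
    have h3 : Real.exp (r:ℝ) = (Real.exp 1)^r := by
      rw [← Real.exp_nat_mul, mul_one]
    rw [h3]
    apply pow_le_pow_left₀ (Real.exp_pos 1).le
    have := Real.exp_one_lt_d9
    linarith
  have h4 : X ≤ m / 24 := by linarith
  calc X^r / (r.factorial:ℝ) ≤ (m/24)^r / (r.factorial:ℝ) := by
        apply div_le_div_of_nonneg_right _ hf.le
        exact pow_le_pow_left₀ hX h4 r
    _ = (1/24)^r * ((m:ℝ)^r / (r.factorial:ℝ)) := by rw [div_pow, div_pow, one_pow]; ring
    _ ≤ (1/24)^r * 3^r := by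
        apply mul_le_mul_of_nonneg_left (h1.trans h2) (by positivity)
    _ = (1/8)^r := by rw [← mul_pow]; norm_num
    _ = (1/2)^(3*r) := by rw [pow_mul]; norm_num
    _ ≤ (1/2)^(r+2) := by
        apply pow_le_pow_of_le_one (by norm_num) (by norm_num)
        omega

set_option maxHeartbeats 4000000 in
theorem window (y : ι → ℝ) (S : Finset ι) (k : ℕ) (hk : k + 1 ≤ S.card) (δ β N τ ρ γ V : ℝ) (m : ℕ)
    (hN : (S.card:ℝ) ≤ N) (hδ : 0 < δ) (hβ : 0 < β) (hβ1 : β ≤ 1) (hβ2 : 2 * N * β ≤ δ)
    (hβ3 : 2 * N^2 * β ≤ δ^2) (hτ : 0 < τ) (hρ : 1 ≤ ρ)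
    (hgood : k + 1 ≤ (S.filter (fun i => δ ≤ |y i|)).card)
    (hrat : ∀ j ≤ k, ρ * ‖es S j (sh y (τ * Complex.I))‖ ≤ ‖es S (j+1) (sh y (τ * Complex.I))‖)
    (hm : 1 ≤ m) (hm2 : 24 * (N*τ/ρ) ≤ m) (hV : 1 ≤ V) (hV2 : N*τ/β ≤ V)
    (hγ : 0 ≤ γ) (hsmall : 2 * m * V^m * γ < 1)
    (h1 : |es S (k+1) y| ≤ γ) (h0 : |es S k y| ≤ γ) : False := by
  have hNpos : 0 < N := by
    have : (1:ℝ) ≤ S.card := by exact_mod_cast (by omega : 1 ≤ S.card)
    linarith
  -- backwards recursion on the line
  have hback : ∀ j, j + 2 ≤ k + 1 → β * |es S j y| ≤ max |es S (j+1) y| |es S (j+2) y| := by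
    intro j hj
    by_contra hcon
    push Not at hcon
    obtain ⟨c1, c2⟩ := max_lt_iff.mp hcon
    have ht := turan_strong S y δ hδ j (by omega)
    set a0 := |es S j y| with ha0
    set a1 := |es S (j+1) y|
    set a2 := |es S (j+2) y|
    have ha0n : 0 ≤ a0 := abs_nonneg _
    have ha1n : 0 ≤ a1 := abs_nonneg _
    have ha2n : 0 ≤ a2 := abs_nonneg _
    have ha0p : 0 < a0 := by
      rcases ha0n.lt_or_eq with h | h
      · exact h
      · rw [← h] at c1; simp at c1; linarith
    have hjN : (j:ℝ) + 2 ≤ N := by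
      refine le_trans ?_ hN
      exact_mod_cast (by omega : j + 2 ≤ S.card)
    have hj0 : (0:ℝ) ≤ j := Nat.cast_nonneg j
    have q0 : (es S j y)^2 = a0^2 := (sq_abs _).symm
    have q1 : (es S (j+1) y)^2 = a1^2 := (sq_abs _).symm
    have q2 : -(es S j y * es S (j+2) y) ≤ a0 * a2 := by
      have := neg_abs_le (es S j y * es S (j+2) y)
      rw [abs_mul] at this
      linarith
    have hc : 0 ≤ ((j:ℝ)+1) * (j+2) := by positivity
    have t2 : δ^2 * a0^2 ≤ ((j:ℝ)+1)^2 * a1^2 + ((j:ℝ)+1) * (j+2) * (a0 * a2) := by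
      rw [q0, q1] at ht
      nlinarith [mul_le_mul_of_nonneg_left q2 hc]
    have t3 : ((j:ℝ)+1)^2 * a1^2 ≤ N^2 * (β * a0)^2 := by
      apply mul_le_mul
      · exact pow_le_pow_left₀ (by linarith) (by linarith) 2
      · exact pow_le_pow_left₀ ha1n c1.le 2
      · positivity
      · positivity
    have t4 : ((j:ℝ)+1) * (j+2) * (a0 * a2) ≤ N^2 * (a0 * (β * a0)) := by
      apply mul_le_mul
      · rw [sq]; exact mul_le_mul (by linarith) hjN (by linarith) hNpos.le
      · exact mul_le_mul_of_nonneg_left c2.le ha0n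
      · positivity
      · positivity
    have t5 : (2 * N * β)^2 ≤ δ^2 := pow_le_pow_left₀ (by positivity) hβ2 2
    have ha2p : 0 < a0^2 := by positivity
    have t6 : δ^2 * a0^2 ≤ (δ^2/4 + δ^2/2) * a0^2 := by
      calc δ^2 * a0^2 ≤ N^2 * (β * a0)^2 + N^2 * (a0 * (β * a0)) := by linarith
        _ = ((2*N*β)^2/4 + (2*N^2*β)/2) * a0^2 := by ring
        _ ≤ _ := by
          apply mul_le_mul_of_nonneg_right _ ha2p.le
          linarith
    have : 0 < δ^2 * a0^2 := by positivity
    nlinarith
  have hchain : ∀ r, r ≤ k + 1 → |es S (k+1-r) y| ≤ γ / β^r := by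
    intro r
    induction r using Nat.strong_induction_on with
    | _ r ih =>
      intro hr
      rcases r with _ | _ | r
      · simpa using h1
      · simp only [zero_add, pow_one, Nat.add_sub_cancel]
        refine h0.trans ?_
        rw [le_div_iff₀ hβ]; nlinarith
      · have e1 := ih r (by omega) (by omega)
        have e2 := ih (r+1) (by omega) (by omega)
        have hb := hback (k+1-(r+1+1)) (by omega)
        rw [show k+1-(r+1+1)+1 = k+1-(r+1) by omega, show k+1-(r+1+1)+2 = k+1-r by omega] at hb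
        have hpow : (0:ℝ) < β^r := by positivity
        have hmax : max |es S (k+1-(r+1)) y| |es S (k+1-r) y| ≤ γ / β^(r+1) := by
          apply max_le e2
          refine e1.trans ?_
          apply div_le_div_of_nonneg_left hγ (by positivity)
          rw [pow_succ]; nlinarith
        have h3 := hb.trans hmax
        rw [pow_succ β (r+1), ← div_div, le_div_iff₀ hβ]
        linarith
  -- amplitude
  have hamp : ∀ j ≤ k + 1, 1 ≤ ‖es S j (sh y (τ * Complex.I))‖ := by
    intro j
    induction j with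
    | zero => intro _; simp
    | succ j ih =>
      intro hj
      have h2 := hrat j (by omega)
      have h3 := ih (by omega)
      nlinarith
  have hdec : ∀ r ≤ k + 1, ρ^r * ‖es S (k+1-r) (sh y (τ * Complex.I))‖ ≤
      ‖es S (k+1) (sh y (τ * Complex.I))‖ := by
    intro r
    induction r with
    | zero => intro _; simp
    | succ r ih =>
      intro hr
      have h2 := hrat (k+1-(r+1)) (by omega)
      rw [show k+1-(r+1)+1 = k+1-r by omega] at h2
      refine le_trans ?_ (ih (by omega))
      rw [pow_succ, mul_assoc]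
      exact mul_le_mul_of_nonneg_left h2 (by positivity)
  set E := ‖es S (k+1) (sh y (τ * Complex.I))‖ with hE
  have hE1 : 1 ≤ E := hamp (k+1) le_rfl
  have hsum := shift_bound y S (k+1) hk N τ hN hτ
  have hterm : ∀ r ∈ range (k+1+1), (N*τ)^r / (r.factorial:ℝ) * |es S (k+1-r) y| ≤
      (if r < m then V^m * γ else 0) + (1/2)^(r+2) * E := by
    intro r hr
    have hr' : r ≤ k + 1 := by have := mem_range.mp hr; omega
    have hf : (1:ℝ) ≤ r.factorial := by exact_mod_cast Nat.factorial_pos r
    by_cases hrm : r < m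
    · rw [if_pos hrm]
      have hpos : 0 ≤ (1/2:ℝ)^(r+2) * E := by positivity
      have hpow : (0:ℝ) < β^r := by positivity
      calc (N*τ)^r / (r.factorial:ℝ) * |es S (k+1-r) y| ≤ (N*τ)^r * (γ / β^r) := by
            apply mul_le_mul _ (hchain r hr') (abs_nonneg _) (by positivity)
            exact div_le_self (by positivity) hf
        _ = (N*τ/β)^r * γ := by rw [div_pow]; ring
        _ ≤ V^r * γ := by
            apply mul_le_mul_of_nonneg_right _ hγ
            exact pow_le_pow_left₀ (by positivity) hV2 r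
        _ ≤ V^m * γ := by
            apply mul_le_mul_of_nonneg_right _ hγ
            exact pow_le_pow_right₀ hV hrm.le
        _ ≤ _ := by linarith
    · rw [if_neg hrm, zero_add]
      push Not at hrm
      have hle : |es S (k+1-r) y| ≤ E / ρ^r := by
        rw [le_div_iff₀ (by positivity)]
        have h2 := norm_le_height y S (k+1-r) (by omega) τ
        rw [es_real_cast, Complex.norm_real, Real.norm_eq_abs] at h2
        have h3 := hdec r hr'
        have : |es S (k+1-r) y| * ρ^r ≤ ‖es S (k+1-r) (sh y (τ * Complex.I))‖ * ρ^r :=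
          mul_le_mul_of_nonneg_right h2 (by positivity)
        linarith
      calc (N*τ)^r / (r.factorial:ℝ) * |es S (k+1-r) y| ≤ (N*τ)^r / (r.factorial:ℝ) * (E / ρ^r) := by
            apply mul_le_mul_of_nonneg_left hle (by positivity)
        _ = (N*τ/ρ)^r / (r.factorial:ℝ) * E := by rw [div_pow]; ring
        _ ≤ _ := by
            apply mul_le_mul_of_nonneg_right _ (by linarith)
            exact pow_fact_bound _ (by positivity) m r hm hm2 hrm
  have htot : E ≤ m * (V^m * γ) + 1/2 * E := by
    calc E ≤ ∑ r ∈ range (k+1+1), ((if r < m then V^m * γ else 0) + (1/2)^(r+2) * E) :=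
          hsum.trans (sum_le_sum hterm)
      _ = ∑ r ∈ range (k+1+1), (if r < m then V^m * γ else 0) + (∑ r ∈ range (k+1+1), (1/2:ℝ)^(r+2)) * E := by
          rw [sum_add_distrib, sum_mul]
      _ ≤ m * (V^m * γ) + 1/2 * E := by
          apply add_le_add
          · rw [← sum_filter, sum_const, nsmul_eq_mul]
            apply mul_le_mul_of_nonneg_right _ (by positivity)
            have : ((range (k+1+1)).filter (fun r => r < m)).card ≤ (range m).card := by
              apply card_le_card
              intro r hr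
              rw [mem_filter] at hr
              exact mem_range.mpr hr.2
            rw [card_range] at this
            exact_mod_cast this
          · exact mul_le_mul_of_nonneg_right (geo_sum _) (by linarith)
  nlinarith

/-- algebra of two coordinates -/
lemma pq_facts (y : ι → ℝ) (S : Finset ι) (k : ℕ) (i j : ι) (hi : i ∈ S) (hj : j ∈ S) (hij : i ≠ j) :
    ∃ C : ℝ, (y j - y i) * C = es (S.erase i) k y - es (S.erase j) k y ∧
      es S (k+1) y * C ≤ es (S.erase i) k y * es (S.erase j) k y := by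
  have hji : j ∈ S.erase i := mem_erase.mpr ⟨hij.symm, hj⟩
  have hij' : i ∈ S.erase j := mem_erase.mpr ⟨hij, hi⟩
  cases k with
  | zero => exact ⟨0, by simp, by simp⟩
  | succ k =>
    set T := (S.erase i).erase j with hT
    have hT' : (S.erase j).erase i = T := by rw [hT, erase_right_comm]
    refine ⟨es T k y, ?_, ?_⟩
    · rw [es_erase hji, es_erase hij', hT']; ring
    · have ht := turan_weak T y k
      rw [es_erase hi (k+1), es_erase hji (k+1), es_erase hji k, es_erase hij' k, hT', ← hT]
      nlinarith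

/-- near a zero the sign changes -/
theorem sign_change (y : ι → ℝ) (S : Finset ι) (k : ℕ) (i j : ι) (hi : i ∈ S) (hj : j ∈ S) (hij : i ≠ j)
    (s0 P0 γ s s' : ℝ) (hs0 : 0 < s0) (hP0 : 0 < P0) (hγ0 : 0 ≤ γ) (hγ : 2 * γ < s0 * P0)
    (hgap : s0 ≤ y j - y i) (hs : s0 ≤ s) (hs' : s0 ≤ s')
    (hf : |es S (k+1) y| ≤ γ) (hp : P0 ≤ |es (S.erase i) k y|) (hq : P0 ≤ |es (S.erase j) k y|) :
    es S (k+1) (Function.update y i (y i + s)) * es S (k+1) (Function.update y j (y j - s')) < 0 := by
  have hupd : ∀ (a : ι) (ha : a ∈ S) (c : ℝ), es S (k+1) (Function.update y a (y a + c)) =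
      es S (k+1) y + c * es (S.erase a) k y := by
    intro a ha c
    have hcongr : ∀ l, es (S.erase a) l (Function.update y a (y a + c)) = es (S.erase a) l y := by
      intro l
      unfold es
      apply sum_congr rfl
      intro T hT
      apply prod_congr rfl
      intro b hb
      have : b ≠ a := by
        intro h
        have := (mem_powersetCard.mp hT).1 hb
        rw [h] at this
        exact notMem_erase a S this
      rw [Function.update_of_ne this]
    rw [es_erase ha, es_erase ha, hcongr, hcongr, Function.update_self]; ring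
  have e1 := hupd i hi s
  have e2 := hupd j hj (-s')
  rw [← sub_eq_add_neg] at e2
  rw [e1, e2]
  obtain ⟨C, hC1, hC2⟩ := pq_facts y S k i j hi hj hij
  set f := es S (k+1) y
  set p := es (S.erase i) k y
  set q := es (S.erase j) k y
  have hf' := abs_le.mp hf
  have hpq : 0 < p * q := by
    by_contra hcon
    push Not at hcon
    have hap : 0 < |p| := by linarith
    have haq : 0 < |q| := by linarith
    have h1 : p * q = -(|p| * |q|) := by
      rw [← abs_mul, abs_of_nonpos hcon]; ring
    have h2 : |C| * s0 ≤ |p| + |q| := by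
      have : |y j - y i| * |C| = |p - q| := by rw [← abs_mul, hC1]
      have h3 : |p - q| ≤ |p| + |q| := abs_sub p q
      have h4 : s0 ≤ |y j - y i| := hgap.trans (le_abs_self _)
      nlinarith [abs_nonneg C]
    have h5 : -(γ * |C|) ≤ f * C := by
      have := neg_abs_le (f * C)
      rw [abs_mul] at this
      nlinarith [abs_nonneg C]
    have h6 : |p| * |q| ≤ γ * |C| := by linarith
    have h7 : s0 * (|p| * |q|) ≤ γ * (|p| + |q|) := by
      calc s0 * (|p| * |q|) ≤ s0 * (γ * |C|) := mul_le_mul_of_nonneg_left h6 hs0.le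
        _ = γ * (|C| * s0) := by ring
        _ ≤ _ := mul_le_mul_of_nonneg_left h2 hγ0
    have h8 : s0 * P0 * |q| ≤ s0 * (|p| * |q|) := by
      rw [mul_assoc]
      apply mul_le_mul_of_nonneg_left _ hs0.le
      exact mul_le_mul_of_nonneg_right hp haq.le
    have h9 : s0 * P0 * |p| ≤ s0 * (|p| * |q|) := by
      rw [mul_assoc]
      apply mul_le_mul_of_nonneg_left _ hs0.le
      rw [mul_comm P0]
      exact mul_le_mul_of_nonneg_left hq hap.le
    nlinarith
  have hsp : s0 * P0 ≤ s * |p| := mul_le_mul hs hp hP0.le (by linarith)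
  have hsq : s0 * P0 ≤ s' * |q| := mul_le_mul hs' hq hP0.le (by linarith)
  rcases pos_and_pos_or_neg_and_neg_of_mul_pos hpq with ⟨hp', hq'⟩ | ⟨hp', hq'⟩
  · rw [abs_of_pos hp'] at hsp
    rw [abs_of_pos hq'] at hsq
    apply mul_neg_of_pos_of_neg
    · linarith [hf'.1]
    · linarith [hf'.2]
  · rw [abs_of_neg hp'] at hsp
    rw [abs_of_neg hq'] at hsq
    apply mul_neg_of_neg_of_pos
    · linarith [hf'.2]
    · linarith [hf'.1]

end
end Pool.Agent.H704R3
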