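import Mathlib
import Pool.Agent.H704R3.Window
import Pool.Agent.H704R3.Cube

set_option autoImplicit false
set_option linter.unusedSectionVars false
set_option linter.unusedVariables false

namespace Pool.Agent.H704R3
open Finset

section
variable {ι : Type*} [DecidableEq ι]

/-- flipped vector -/
noncomputable def ys (y b : ι → ℝ) (σ : Finset ι) : ι → ℝ := fun i => if i ∈ σ then b i else y i

lemma ys_insert (y b : ι → ℝ) (σ : Finset ι) (i : ι) (h : i ∉ σ) :
    ys y b (insert i σ) = Function.update (ys y b σ) i (ys y b σ i + (b i - y i)) := by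
  funext j
  by_cases hj : j = i
  · subst hj; simp [ys, h]
  · rw [Function.update_of_ne hj]; simp [ys, hj]

lemma ys_erase (y b : ι → ℝ) (σ : Finset ι) (i : ι) (h : i ∈ σ) :
    ys y b (σ.erase i) = Function.update (ys y b σ) i (ys y b σ i - (b i - y i)) := by
  funext j
  by_cases hj : j = i
  · subst hj; simp [ys, h]
  · rw [Function.update_of_ne hj]; simp [ys, hj]

set_option maxHeartbeats 4000000 in
theorem det_cube (S Γ : Finset ι) (hΓ : Γ ⊆ S) (hΓ0 : 0 < Γ.card) (y b : ι → ℝ) (k : ℕ)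
    (B δ s0 ω τ K G N m0 β V γ γw P0 : ℝ) (L m : ℕ)
    (hB : 0 < B) (hδ : 0 < δ) (hs0 : 0 < s0) (hω : 0 < ω) (hτ : 0 < τ) (hτ1 : τ ≤ 1)
    (hya : ∀ i ∈ Γ, |y i| ≤ B) (hyb : ∀ i ∈ Γ, |b i| ≤ B)
    (hgap : ∀ i ∈ Γ, ∀ j ∈ Γ, s0 ≤ b j - y i)
    (hkK : (k:ℝ) + 1 ≤ K) (hm0 : 0 < m0) (hcard : (k:ℝ) + 1 + m0 ≤ S.card) (hk2 : k + 2 ≤ S.card)
    (hN : (S.card:ℝ) ≤ N) (hG : 2 * K * (B + 1 + 1/ω)^2 ≤ G * δ^2)
    (hGd : G + L + 1 ≤ (((S \ Γ).filter (fun i => δ ≤ |y i| ∧ |y i| ≤ B)).card : ℝ))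
    (hGd2 : k + 2 ≤ ((S \ Γ).filter (fun i => δ ≤ |y i| ∧ |y i| ≤ B)).card)
    (hL1 : 2 * L ≤ ω * (τ * m0)) (hL2 : K / ω < 2^L * (τ * m0)) (hω1 : 16 * ω * (B + 1) ≤ 1)
    (hβ : 0 < β) (hβ1 : β ≤ 1) (hβ2 : 2 * N * β ≤ δ) (hβ3 : 2 * N^2 * β ≤ δ^2)
    (hm : 1 ≤ m) (hm2 : 24 * (N * τ * (2 * ω)) ≤ m) (hV : 1 ≤ V) (hV2 : N * τ / β ≤ V)
    (hγ0 : 0 ≤ γ) (hP0 : 0 < P0) (hPw : P0 ≤ γw) (hγw : γ + B * P0 ≤ γw)
    (hsmall : 2 * m * V^m * γw < 1) (hγP : 2 * γ < s0 * P0) :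
    (((Γ.powerset.filter (fun σ => |es S (k+1) (ys y b σ)| ≤ γ)).card : ℕ) : ℝ) ≤
      2^Γ.card * (36 * B * ω + 3 * (10 * τ * N * ω) / √(Γ.card:ℝ) + 1 / Γ.card) := by
  set z : ℂ := τ * Complex.I with hzdef
  have hzim : z.im = τ := by simp [hzdef]
  have hzre : z.re = 0 := by simp [hzdef]
  have hz : 0 < z.im := by rw [hzim]; exact hτ
  have hNpos : 0 < N := by
    have : (0:ℝ) ≤ k := Nat.cast_nonneg k
    linarith
  have h2ω : 2 * ω ≤ 1 := by nlinarith
  -- vectors agree off Γ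
  have hoff : ∀ σ ⊆ Γ, ∀ i, i ∉ Γ → ys y b σ i = y i := by
    intro σ hσ i hi
    unfold ys; rw [if_neg (fun h => hi (hσ h))]
  have hon : ∀ σ ⊆ Γ, ∀ i ∈ Γ, |ys y b σ i| ≤ B := by
    intro σ hσ i hi
    unfold ys; split_ifs
    · exact hyb i hi
    · exact hya i hi
  -- main ratio estimate
  have hph : ∀ σ ⊆ Γ, ∀ S' ⊆ S, S \ Γ ⊆ S' → S.card - 1 ≤ S'.card → ∀ j ≤ k,
      ‖1 / ph (ys y b σ) S' j z‖ < 2 * ω := by
    intro σ hσ S' hS' hsub hc j hj
    have hcR : (S.card:ℝ) - 1 ≤ S'.card := by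
      have : S.card ≤ S'.card + 1 := by omega
      have : (S.card:ℝ) ≤ S'.card + 1 := by exact_mod_cast this
      linarith
    have hjR : (j:ℝ) ≤ k := by exact_mod_cast hj
    have hmm : m0 ≤ (S'.card:ℝ) - j := by linarith
    have hg : (G + L : ℝ) ≤ ((gd (ys y b σ) δ (B+1) z S').card : ℝ) := by
      have hss : (S \ Γ).filter (fun i => δ ≤ |y i| ∧ |y i| ≤ B) ⊆ gd (ys y b σ) δ (B+1) z S' := by
        intro i hi
        rw [mem_filter] at hi
        unfold gd
        rw [mem_filter]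
        have hiΓ : i ∉ Γ := (mem_sdiff.mp hi.1).2
        refine ⟨hsub hi.1, ?_, ?_⟩
        · have h1 := Complex.abs_re_le_norm (sh (ys y b σ) z i)
          have h2 : (sh (ys y b σ) z i).re = y i := by
            unfold sh; simp [hzre, hoff σ hσ i hiΓ]
          rw [h2] at h1
          exact hi.2.1.trans h1
        · unfold sh
          refine (norm_add_le _ _).trans ?_
          rw [hoff σ hσ i hiΓ, Complex.norm_real, Real.norm_eq_abs]
          have : ‖z‖ = τ := by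
            rw [hzdef, norm_mul, Complex.norm_I, mul_one, Complex.norm_real, Real.norm_of_nonneg hτ.le]
          rw [this]
          linarith [hi.2.2]
      have := card_le_card hss
      have h3 : ((((S \ Γ).filter (fun i => δ ≤ |y i| ∧ |y i| ≤ B)).card : ℕ) : ℝ) ≤
          ((gd (ys y b σ) δ (B+1) z S').card : ℝ) := by exact_mod_cast this
      linarith
    apply ph_large (ys y b σ) z hz ω δ (B+1) K G hω hδ (by linarith) hG L S' j (by omega)
      (by linarith) hg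
    · rw [hzim]
      refine hL1.trans ?_
      apply mul_le_mul_of_nonneg_left _ hω.le
      exact mul_le_mul_of_nonneg_left hmm hτ.le
    · rw [hzim]
      refine hL2.trans_le ?_
      apply mul_le_mul_of_nonneg_left _ (by positivity)
      exact mul_le_mul_of_nonneg_left hmm hτ.le
  have hphne : ∀ σ ⊆ Γ, ∀ S' ⊆ S, S.card - 1 ≤ S'.card → ∀ j ≤ k, 0 < ‖ph (ys y b σ) S' j z‖ := by
    intro σ hσ S' hS' hc j hj
    apply norm_pos_iff.mpr
    intro h0
    have := ph_im_pos (ys y b σ) S' j z hz (by omega)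
    rw [h0] at this; simp at this
  have herase : ∀ i ∈ Γ, S.erase i ⊆ S ∧ S \ Γ ⊆ S.erase i ∧ S.card - 1 ≤ (S.erase i).card := by
    intro i hi
    refine ⟨erase_subset i S, ?_, ?_⟩
    · intro j hj
      rw [mem_sdiff] at hj
      exact mem_erase.mpr ⟨fun h => hj.2 (h ▸ hi), hj.1⟩
    · rw [card_erase_of_mem (hΓ hi)]
  -- lower bound for the derivative when near zero
  have hder : ∀ σ ⊆ Γ, |es S (k+1) (ys y b σ)| ≤ γ → ∀ i ∈ Γ, P0 ≤ |es (S.erase i) k (ys y b σ)| := by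
    intro σ hσ hE i hi
    by_contra hcon
    push Not at hcon
    obtain ⟨e1, e2, e3⟩ := herase i hi
    have hb : |es (S.erase i) (k+1) (ys y b σ)| ≤ γw := by
      have h1 := es_erase (hΓ hi) k (ys y b σ)
      have h2 : es (S.erase i) (k+1) (ys y b σ) = es S (k+1) (ys y b σ) -
          ys y b σ i * es (S.erase i) k (ys y b σ) := by linarith
      rw [h2]
      refine (abs_sub _ _).trans ?_
      rw [abs_mul]
      have h3 : |ys y b σ i| * |es (S.erase i) k (ys y b σ)| ≤ B * P0 :=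
        mul_le_mul (hon σ hσ i hi) hcon.le (abs_nonneg _) hB.le
      linarith
    have hcardE : (S.erase i).card = S.card - 1 := card_erase_of_mem (hΓ hi)
    apply window (ys y b σ) (S.erase i) k (by omega) δ β N τ (1/(2*ω)) γw V m
      (le_trans (by exact_mod_cast card_le_card e1) hN) hδ hβ hβ1 hβ2 hβ3 hτ
      (by rw [le_div_iff₀ (by positivity)]; linarith) _ _ hm _ hV hV2 (by linarith) hsmall hb
      (hcon.le.trans hPw)
    · refine le_trans (by omega) (card_le_card (s := (S \ Γ).filter (fun i => δ ≤ |y i| ∧ |y i| ≤ B)) ?_)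
      intro j hj
      rw [mem_filter] at hj ⊢
      refine ⟨e2 hj.1, ?_⟩
      rw [hoff σ hσ j (mem_sdiff.mp hj.1).2]
      exact hj.2.1
    · intro j hj
      have h1 := hph σ hσ (S.erase i) e1 e2 e3 j hj
      have h2 := hphne σ hσ (S.erase i) e1 e3 j hj
      have n1 : es (S.erase i) j (sh (ys y b σ) z) ≠ 0 := es_ne _ _ _ z hz (by omega)
      rw [norm_div, norm_one, div_lt_iff₀ h2] at h1
      unfold ph at h1
      rw [norm_div] at h1
      have h3 : 0 < ‖es (S.erase i) j (sh (ys y b σ) z)‖ := norm_pos_iff.mpr n1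
      rw [← mul_div_assoc, lt_div_iff₀ h3] at h1
      rw [← hzdef, div_mul_eq_mul_div, div_le_iff₀ (by positivity)]
      linarith
    · have : N * τ / (1/(2*ω)) = N * τ * (2*ω) := by field_simp
      rw [this]; exact hm2
  have hmono : ∀ σ ⊆ Γ, ∀ i ∈ Γ \ σ, Ab 0 (rts (ys y b (insert i σ)) S (k+1)) ≤
      Ab 0 (rts (ys y b σ) S (k+1)) := by
    intro σ hσ i hi
    rw [mem_sdiff] at hi
    rw [ys_insert y b σ i hi.2]
    exact flip_Ab _ S k (by omega) i (hΓ hi.1) _ (lt_of_lt_of_le hs0 (hgap i hi.1 i hi.1))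
  have hmono2 : ∀ σ ⊆ Γ, ∀ j ∈ σ, Ab 0 (rts (ys y b σ) S (k+1)) ≤
      Ab 0 (rts (ys y b (σ.erase j)) S (k+1)) := by
    intro σ hσ j hj
    have := hmono (σ.erase j) ((erase_subset j σ).trans hσ) j (by
      rw [mem_sdiff]; exact ⟨hσ hj, notMem_erase j σ⟩)
    rwa [insert_erase hj] at this
  have hfin := cube Γ hΓ0 (fun σ => Ab 0 (rts (ys y b σ) S (k+1))) (fun σ => Th (rts (ys y b σ) S (k+1)) z)
    (fun σ => |es S (k+1) (ys y b σ)| ≤ γ) (12 * B * ω) (10 * τ * N * ω) (by positivity) (by positivity)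
    hmono ?_ ?_ ?_
  · refine hfin.trans (le_of_eq ?_)
    ring
  · -- strict drop
    intro σ hσ hE j hj i hi
    have hi' := mem_sdiff.mp hi
    have hij : i ≠ j := fun h => hi'.2 (h ▸ hj)
    have hyi : ys y b σ i = y i := by unfold ys; rw [if_neg hi'.2]
    have hyj : ys y b σ j = b j := by unfold ys; rw [if_pos hj]
    have hsc := sign_change (ys y b σ) S k i j (hΓ hi'.1) (hΓ (hσ hj)) hij s0 P0 γ (b i - y i) (b j - y j)
      hs0 hP0 hγ0 hγP (by rw [hyi, hyj]; exact hgap i hi'.1 j (hσ hj)) (hgap i hi'.1 i hi'.1)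
      (hgap j (hσ hj) j (hσ hj)) hE (hder σ hσ hE i hi'.1) (hder σ hσ hE j (hσ hj))
    rw [← ys_insert y b σ i hi'.2, ← ys_erase y b σ j hj] at hsc
    have hne := Ab_ne_of_neg _ _ S (k+1) (by omega) hsc
    have h1 := hmono σ hσ i hi
    have h2 := hmono2 σ hσ j hj
    show Ab 0 (rts (ys y b (insert i σ)) S (k+1)) + 1 ≤ Ab 0 (rts (ys y b (σ.erase j)) S (k+1))
    omega
  · intro σ hσ
    have h1 := Th_Ab' (rts (ys y b σ) S (k+1)) z hz
    rw [hzre, Ld_rts _ S k (by omega) z hz, norm_mul, hzim, Complex.norm_real] at h1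
    refine h1.trans ?_
    have h2 := hph σ hσ S (Subset.refl S) sdiff_subset (by omega) k le_rfl
    have hc : ‖(S.card:ℝ) - k‖ ≤ N := by
      have hk0 : (0:ℝ) ≤ k := Nat.cast_nonneg k
      rw [Real.norm_of_nonneg (by linarith)]; linarith
    have h3 : ‖(S.card:ℝ) - k‖ * ‖1 / ph (ys y b σ) S k z‖ ≤ N * (2 * ω) :=
      mul_le_mul hc h2.le (norm_nonneg _) hNpos.le
    have h4 := mul_le_mul_of_nonneg_left h3 hτ.le
    linarith
  · intro σ hσ i hi
    have hi' := mem_sdiff.mp hi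
    show Th (rts (ys y b σ) S (k+1)) z - Th (rts (ys y b (insert i σ)) S (k+1)) z ≤ 12 * B * ω
    rw [ys_insert y b σ i hi'.2]
    obtain ⟨e1, e2, e3⟩ := herase i hi'.1
    have hs := lt_of_lt_of_le hs0 (hgap i hi'.1 i hi'.1)
    have hsB : b i - y i ≤ 2 * B := by
      have := abs_le.mp (hya i hi'.1)
      have := abs_le.mp (hyb i hi'.1)
      linarith [this.2]
    have h1 := hph σ hσ (S.erase i) e1 e2 e3 k le_rfl
    have h2 := hphne σ hσ (S.erase i) e1 e3 k le_rfl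
    have h3 : 1/(2*ω) ≤ ‖ph (ys y b σ) (S.erase i) k z‖ := by
      rw [norm_div, norm_one, div_lt_iff₀ h2] at h1
      rw [div_le_iff₀ (by positivity)]; linarith
    have hx : ‖sh (ys y b σ) z i‖ ≤ B + 1 := by
      unfold sh
      refine (norm_add_le _ _).trans ?_
      rw [Complex.norm_real, Real.norm_eq_abs]
      have : ‖z‖ = τ := by
        rw [hzdef, norm_mul, Complex.norm_I, mul_one, Complex.norm_real, Real.norm_of_nonneg hτ.le]
      rw [this]
      have := hon σ hσ i hi'.1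
      linarith
    have h4 : B + 1 ≤ 1/(4*ω) := by
      rw [le_div_iff₀ (by positivity)]; nlinarith
    have h5 : 1/(4*ω) ≤ ‖sh (ys y b σ) z i + ph (ys y b σ) (S.erase i) k z‖ := by
      have h6 : ‖ph (ys y b σ) (S.erase i) k z‖ ≤
          ‖sh (ys y b σ) z i + ph (ys y b σ) (S.erase i) k z‖ + ‖sh (ys y b σ) z i‖ := by
        calc _ = ‖(sh (ys y b σ) z i + ph (ys y b σ) (S.erase i) k z) - sh (ys y b σ) z i‖ := by
              congr 1; ring
          _ ≤ _ := norm_sub_le _ _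
      have h7 : 1/(2*ω) = 1/(4*ω) + 1/(4*ω) := by field_simp; norm_num
      linarith
    have h8 := flip_Th_bound (ys y b σ) S k (by omega) i (hΓ hi'.1) (b i - y i) hs z hz (1/(4*ω))
      (by rw [le_div_iff₀ (by positivity)]; nlinarith) h5
    refine h8.trans ?_
    have h9 : (b i - y i) / (1/(4*ω)) = (b i - y i) * (4*ω) := by field_simp
    rw [h9]
    nlinarith

end
end Pool.Agent.H704R3
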