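import Mathlib
import Pool.Agent.H704R3.Det

set_option autoImplicit false
set_option linter.unusedSectionVars false
set_option linter.unusedVariables false

namespace Pool.Agent.H704R3
open Finset Filter Topology

lemma exp_half_le (L : ℕ) : Real.exp ((L:ℝ)/2) ≤ 2^L := by
  have h : Real.exp ((L:ℝ)/2) = (Real.exp (1/2))^L := by
    rw [← Real.exp_nat_mul]; congr 1; ring
  rw [h]
  apply pow_le_pow_left₀ (Real.exp_pos _).le
  have h1 : Real.exp (1/2) ^ 2 = Real.exp 1 := by rw [← Real.exp_nat_mul]; norm_num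
  have h2 := Real.exp_one_lt_d9
  have h3 := Real.exp_pos (1/2)
  nlinarith

/-- eventual exponential domination -/
lemma ev_exp (ω : ℝ) (hω : 0 < ω) :
    ∀ᶠ u : ℝ in atTop, u^4 / ω < 2^(⌊ω*u/8⌋₊) * (u/4) := by
  have ht := Real.tendsto_pow_mul_exp_neg_atTop_nhds_zero 3
  have hc : (0:ℝ) < ω^4 / (8 * 16^3) := by positivity
  have h1 : ∀ᶠ t : ℝ in atTop, t^3 * Real.exp (-t) < ω^4 / (8 * 16^3) :=
    ht.eventually (gt_mem_nhds hc)
  have h2 : Tendsto (fun u : ℝ => ω*u/16) atTop atTop := by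
    have : (fun u : ℝ => ω*u/16) = fun u => (ω/16) * u := by funext u; ring
    rw [this]
    exact tendsto_id.const_mul_atTop (by positivity)
  filter_upwards [h2.eventually h1, eventually_gt_atTop (0:ℝ)] with u hu hu0
  set t := ω*u/16 with htdef
  have hut : u = 16 * t / ω := by rw [htdef]; field_simp
  have hfl : ω*u/8 - 1 < (⌊ω*u/8⌋₊ : ℝ) := Nat.sub_one_lt_floor _
  have hL := exp_half_le ⌊ω*u/8⌋₊
  have hexp : Real.exp (t - 1/2) ≤ 2^(⌊ω*u/8⌋₊) := by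
    refine le_trans (Real.exp_le_exp.mpr ?_) hL
    rw [htdef]; linarith
  have hexp2 : Real.exp t / 2 ≤ Real.exp (t - 1/2) := by
    rw [Real.exp_sub]
    apply div_le_div_of_nonneg_left (Real.exp_pos t).le (Real.exp_pos _)
    have h1 : Real.exp (1/2) ^ 2 = Real.exp 1 := by rw [← Real.exp_nat_mul]; norm_num
    have h2 := Real.exp_one_lt_d9
    have h3 := Real.exp_pos (1/2)
    nlinarith
  have hmain : t^3 < ω^4 / (8 * 16^3) * Real.exp t := by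
    have he := Real.exp_pos t
    have : t^3 * Real.exp (-t) * Real.exp t < ω^4 / (8 * 16^3) * Real.exp t :=
      mul_lt_mul_of_pos_right hu he
    rwa [mul_assoc, ← Real.exp_add, neg_add_cancel, Real.exp_zero, mul_one] at this
  have hu3 : u^3 < ω * Real.exp t / 8 := by
    rw [hut]
    have : (16 * t / ω)^3 = (16^3/ω^3) * t^3 := by field_simp
    rw [this]
    calc (16^3/ω^3) * t^3 < (16^3/ω^3) * (ω^4 / (8 * 16^3) * Real.exp t) :=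
          mul_lt_mul_of_pos_left hmain (by positivity)
      _ = _ := by field_simp
  calc u^4/ω = u^3 * u / ω := by ring
    _ < (ω * Real.exp t / 8) * u / ω := by
        apply div_lt_div_of_pos_right _ hω
        exact mul_lt_mul_of_pos_right hu3 hu0
    _ = (Real.exp t / 2) * (u/4) := by field_simp; ring
    _ ≤ _ := mul_le_mul_of_nonneg_right (hexp2.trans hexp) (by positivity)


lemma a_le1 (ω B : ℝ) (hω : 0 < ω) (hB : 0 < B) (h : 16 * ω * (B+1) ≤ 1) : ω ≤ 1 := by nlinarith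

lemma a_L (L ω u : ℝ) (h : L ≤ ω*u/8) (hω1 : ω ≤ 1) (hu : 0 < u) : L ≤ u := by nlinarith

lemma a_m (x ω u : ℝ) (h : x < 48*ω*u + 1) (hω1 : ω ≤ 1) (hu : 1 ≤ u) : x + 1 ≤ 50*u := by nlinarith

lemma a_prod (g u v : ℝ) (hg : 0 < g) (h1 : g * v ≤ 1) (h2 : u ≤ v) : g * u ≤ 1 := by nlinarith

lemma a_g1 (g u B : ℝ) (hg : 0 < g) (h1 : g * u ≤ 1) (h2 : 2*(B+1) ≤ u) : 2*(B+1)*g ≤ 1 := by nlinarith

lemma a_g2 (g u B s0 : ℝ) (hg : 0 < g) (hs0 : 0 < s0) (h1 : g * u ≤ 1) (h2 : 4*(B+1) ≤ u * s0) :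
    4*(B+1)*g ≤ s0 := by nlinarith

lemma a_m2 (u m : ℝ) (u1 : 1 ≤ u) (hm : 0 ≤ m) (hm2 : m ≤ 50*u) : 2*m + 16*u*m ≤ 1000*u^3 := by
  have h4 : 2 * m + 16 * u * m ≤ 18 * u * m := by nlinarith
  have h5 : 18 * u * m ≤ 900 * u^2 := by nlinarith
  have h6 : u^2 ≤ u^3 := pow_le_pow_right₀ u1 (by norm_num)
  nlinarith [pow_pos (by linarith : (0:ℝ) < u) 2]

lemma a_exp (u y : ℝ) (h : u^3 ≤ y) (u1 : 1 ≤ u) : u ≤ y := by
  have : u^1 ≤ u^3 := pow_le_pow_right₀ u1 (by norm_num)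
  rw [pow_one] at this
  linarith

lemma a_gg (g B : ℝ) (hg : 0 < g) (hB : 0 < B) (h : 2*(B+1)*g ≤ 1) : g * g * (B+1) ≤ g := by nlinarith

lemma a_gP (g B s0 : ℝ) (hg : 0 < g) (hB : 0 < B) (hs0 : 0 < s0) (h : 4*(B+1)*g ≤ s0) :
    2 * (g*g) * (B+1) < s0 * g := by nlinarith [mul_pos hg hg, mul_pos (mul_pos hg hg) hB]

lemma a_mm (κ n : ℝ) (hκ : κ ≤ 1/2) (hn : 0 < n) : κ * n ≤ n := by nlinarith

lemma a_t1 (η c1 u w : ℝ) (hu : 0 < u) (h : 120 * w ≤ u * (c1 * η)) :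
    30 * w * u ≤ η/4 * (c1 * u^2) := by nlinarith

lemma a_b (β0 n δ : ℝ) (hn : 1 ≤ n) (hδ : 0 < δ) (h : 2*β0 ≤ δ) : 2 * β0 ≤ δ * n := by nlinarith

lemma a_t2 (η c n G : ℝ) (hη : 0 < η) (h5 : 4 ≤ η * (c * n)) (h : c * n ≤ G) : 1 ≤ η/4 * G := by
  nlinarith

/-- size conditions on `n`, packaged -/
structure Cond (B δ s0 c ε η ω κ β0 : ℝ) (n : ℕ) (u τ : ℝ) (L m : ℕ) : Prop where
  u1 : 1 ≤ u
  hn4 : (n:ℝ) = u^4
  hsq1 : u^2 = √(n:ℝ)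
  hnτ : (n:ℝ) * τ = u
  τpos : 0 < τ
  τ1 : τ ≤ 1
  Lle : (L:ℝ) ≤ ω*u/8
  mlow : 48*ω*u ≤ m
  mhigh : (m:ℝ) ≤ 50*u
  m1 : 1 ≤ m
  u2 : 4 ≤ u * c
  u3 : 120*ω ≤ u * (√c*η)
  u4 : 4 ≤ u * (c*η)
  u5 : 1/β0 ≤ u
  u6 : 2000 ≤ ε * u
  u7 : 2*(B+1) ≤ u
  u8 : 4*(B+1) ≤ u * s0
  hexp : (n:ℝ) / ω < 2^L * (u/4)

lemma cond_ev (B δ s0 c ε η ω κ β0 : ℝ) (hB : 0 < B) (hs0 : 0 < s0) (hc : 0 < c) (hε : 0 < ε)
    (hη : 0 < η) (hω : 0 < ω) (hω1 : ω ≤ 1) :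
    ∃ n0 : ℕ, ∀ n ≥ n0, ∃ (u τ : ℝ) (L m : ℕ), Cond B δ s0 c ε η ω κ β0 n u τ L m := by
  set U : ℝ := max 1 (max (4/c) (max (120*ω/(√c*η)) (max (4/(c*η)) (max (1/β0) (max (2000/ε)
    (max (2*(B+1)) (4*(B+1)/s0))))))) with hU
  have hev : ∀ᶠ n : ℕ in atTop, U ≤ √(√(n:ℝ)) ∧
      (√(√(n:ℝ)))^4 / ω < 2^(⌊ω*(√(√(n:ℝ)))/8⌋₊) * ((√(√(n:ℝ)))/4) := by
    have ht : Tendsto (fun n : ℕ => √(√(n:ℝ))) atTop atTop :=
      Real.tendsto_sqrt_atTop.comp (Real.tendsto_sqrt_atTop.comp tendsto_natCast_atTop_atTop)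
    exact (ht.eventually (eventually_ge_atTop U)).and (ht.eventually (ev_exp ω hω))
  obtain ⟨n0, hn0⟩ := eventually_atTop.mp hev
  refine ⟨n0, ?_⟩
  intro n hn
  obtain ⟨hUu, hexpu⟩ := hn0 n hn
  have hcs : 0 < √c := Real.sqrt_pos.mpr hc
  have hsq1 : (√(√(n:ℝ)))^2 = √(n:ℝ) := Real.sq_sqrt (Real.sqrt_nonneg _)
  have hsq2 : √(n:ℝ)^2 = n := Real.sq_sqrt (Nat.cast_nonneg n)
  generalize √(√(n:ℝ)) = u at hUu hexpu hsq1
  have hn4 : (n:ℝ) = u^4 := by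
    calc (n:ℝ) = (u^2)^2 := by rw [hsq1, hsq2]
      _ = _ := by ring
  have u1 : 1 ≤ u := (le_max_left _ _).trans hUu
  have hU' : max (4/c) (max (120*ω/(√c*η)) (max (4/(c*η)) (max (1/β0) (max (2000/ε)
    (max (2*(B+1)) (4*(B+1)/s0)))))) ≤ u := (le_max_right _ _).trans hUu
  have u2 : 4/c ≤ u := (le_max_left _ _).trans hU'
  have hU2 := (le_max_right _ _).trans hU'
  have u3 : 120*ω/(√c*η) ≤ u := (le_max_left _ _).trans hU2
  have hU3 := (le_max_right _ _).trans hU2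
  have u4 : 4/(c*η) ≤ u := (le_max_left _ _).trans hU3
  have hU4 := (le_max_right _ _).trans hU3
  have u5 : 1/β0 ≤ u := (le_max_left _ _).trans hU4
  have hU5 := (le_max_right _ _).trans hU4
  have u6 : 2000/ε ≤ u := (le_max_left _ _).trans hU5
  have hU6 := (le_max_right _ _).trans hU5
  have u7 : 2*(B+1) ≤ u := (le_max_left _ _).trans hU6
  have u8 : 4*(B+1)/s0 ≤ u := (le_max_right _ _).trans hU6
  clear hU' hU2 hU3 hU4 hU5 hU6 hUu hn0 hev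
  clear_value U
  clear hU
  have hu0 : 0 < u := by linarith
  have hu3 : 1 ≤ u^3 := one_le_pow₀ u1
  rw [div_le_iff₀ hc] at u2
  rw [div_le_iff₀ (by positivity)] at u3
  rw [div_le_iff₀ (by positivity)] at u4
  rw [div_le_iff₀ hε] at u6
  rw [div_le_iff₀ hs0] at u8
  refine ⟨u, 1/u^3, ⌊ω*u/8⌋₊, ⌈48*ω*u⌉₊ + 1, ?_⟩
  exact
  { u1 := u1
    hn4 := hn4
    hsq1 := hsq1
    hnτ := by rw [hn4]; field_simp
    τpos := by positivity
    τ1 := by rw [div_le_one (by positivity)]; exact hu3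
    Lle := Nat.floor_le (by positivity)
    mlow := by
      have := Nat.le_ceil (48*ω*u)
      push_cast; linarith
    mhigh := by
      have := Nat.ceil_lt_add_one (by positivity : 0 ≤ 48*ω*u)
      push_cast
      exact a_m _ ω u this hω1 u1
    m1 := by omega
    u2 := u2
    u3 := u3
    u4 := u4
    u5 := u5
    u6 := by linarith
    u7 := u7
    u8 := u8
    hexp := by rw [hn4]; exact hexpu }

lemma small_ev (ε u β0 : ℝ) (n m : ℕ) (u1 : 1 ≤ u) (hn4 : (n:ℝ) = u^4) (hβ0 : 0 < β0)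
    (u5 : 1/β0 ≤ u) (hεu : 2000 ≤ ε * u) (hm2 : (m:ℝ) ≤ 50*u) (hV0 : 0 ≤ (n:ℝ)^3/β0) :
    2 * m * ((n:ℝ)^3/β0)^m * Real.exp (-(ε * n)/2) < 1 := by
  have hu0 : 0 < u := by linarith
  have hVle : (n:ℝ)^3/β0 ≤ Real.exp (16 * u) := by
    have h1 : (n:ℝ)^3/β0 ≤ u^16 := by
      rw [div_eq_mul_inv, ← one_div]
      calc (n:ℝ)^3 * (1/β0) ≤ (n:ℝ)^3 * u := mul_le_mul_of_nonneg_left u5 (by positivity)
        _ = u^13 := by rw [hn4]; ring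
        _ ≤ u^16 := pow_le_pow_right₀ u1 (by norm_num)
    have h2 : u^16 ≤ (Real.exp u)^16 :=
      pow_le_pow_left₀ hu0.le (by linarith [Real.add_one_le_exp u]) 16
    rw [← Real.exp_nat_mul] at h2
    refine h1.trans (h2.trans (le_of_eq ?_))
    norm_num
  have h1 : ((n:ℝ)^3/β0)^m ≤ Real.exp (16 * u * m) := by
    calc ((n:ℝ)^3/β0)^m ≤ (Real.exp (16*u))^m := pow_le_pow_left₀ hV0 hVle m
      _ = _ := by rw [← Real.exp_nat_mul]; congr 1; ring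
  have h2 : 2 * (m:ℝ) < Real.exp (2*m) := by
    have := Real.add_one_le_exp (2*(m:ℝ))
    linarith
  have h3 : 2 * m * ((n:ℝ)^3/β0)^m * Real.exp (-(ε * n)/2) <
      Real.exp (2*m) * Real.exp (16 * u * m) * Real.exp (-(ε * n)/2) := by
    apply mul_lt_mul_of_pos_right _ (Real.exp_pos _)
    calc 2 * (m:ℝ) * ((n:ℝ)^3/β0)^m ≤ 2 * (m:ℝ) * Real.exp (16 * u * m) :=
          mul_le_mul_of_nonneg_left h1 (by positivity)
      _ < _ := mul_lt_mul_of_pos_right h2 (Real.exp_pos _)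
  refine h3.trans_le ?_
  rw [← Real.exp_add, ← Real.exp_add, Real.exp_le_one_iff]
  have h4 := a_m2 u m u1 (Nat.cast_nonneg m) hm2
  have h5 : 2000 * u^3 ≤ ε * n := by
    rw [hn4]
    calc 2000 * u^3 ≤ (ε * u) * u^3 := mul_le_mul_of_nonneg_right hεu (by positivity)
      _ = _ := by ring
  linarith

lemma gw_ev (ε u : ℝ) (n : ℕ) (u1 : 1 ≤ u) (hn4 : (n:ℝ) = u^4) (hεu : 2000 ≤ ε * u) :
    Real.exp (-(ε * n)/2) * u ≤ 1 := by
  have hu0 : 0 < u := by linarith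
  have h5 : 2000 * u^3 ≤ ε * n := by
    rw [hn4]
    calc 2000 * u^3 ≤ (ε * u) * u^3 := mul_le_mul_of_nonneg_right hεu (by positivity)
      _ = _ := by ring
  have h6 := a_exp u (u^3) le_rfl u1
  apply a_prod _ u (Real.exp u) (Real.exp_pos _) _ (by linarith [Real.add_one_le_exp u])
  rw [← Real.exp_add, Real.exp_le_one_iff]
  linarith

lemma gd_ev (c n u Lr X : ℝ) (hn4 : n = u^4) (u1 : 1 ≤ u) (u2 : 4 ≤ u * c) (hL : Lr ≤ u)
    (hX : c * n ≤ X) : c/2*n + Lr + 1 ≤ X := by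
  have hu0 : 0 < u := by linarith
  have h5 : 4 * u^3 ≤ c * n := by
    rw [hn4]
    calc 4 * u^3 ≤ (u * c) * u^3 := mul_le_mul_of_nonneg_right u2 (by positivity)
      _ = _ := by ring
  have h6 := a_exp u (u^3) le_rfl u1
  linarith

lemma fin_ev (B ω τ n c η u M : ℝ) (hc : 0 < c) (hη : 0 < η) (hω2 : 36 * B * ω ≤ η / 4)
    (hnτ : n * τ = u) (u1 : 1 ≤ u) (hn4 : n = u^4) (hsq1 : u^2 = √n) (hM : c * n ≤ M)
    (u3 : 120*ω ≤ u * (√c*η)) (u4 : 4 ≤ u * (c*η)) :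
    36 * B * ω + 3 * (10 * τ * n * ω) / √M + 1 / M ≤ η := by
  have hu0 : 0 < u := by linarith
  have hnpos : 0 < n := by rw [hn4]; positivity
  have hMp : 0 < M := lt_of_lt_of_le (by positivity) hM
  have hcpos : 0 < √c := Real.sqrt_pos.mpr hc
  have hMM : √c * u^2 ≤ √M := by
    have h1 : √c * u^2 = √(c*n) := by rw [Real.sqrt_mul hc.le, hsq1]
    rw [h1]
    exact Real.sqrt_le_sqrt hM
  have hMpos : 0 < √M := Real.sqrt_pos.mpr hMp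
  have t1 : 3 * (10 * τ * n * ω) / √M ≤ η/4 := by
    have e1 : 3 * (10 * τ * n * ω) = 30 * ω * u := by
      calc 3 * (10 * τ * n * ω) = 30 * ω * (n * τ) := by ring
        _ = _ := by rw [hnτ]
    rw [e1, div_le_iff₀ hMpos]
    have : 30 * ω * u ≤ η/4 * (√c * u^2) := a_t1 η (√c) u ω hu0 u3
    exact this.trans (mul_le_mul_of_nonneg_left hMM (by positivity))
  have t2 : 1 / M ≤ η/4 := by
    rw [div_le_iff₀ hMp]
    have h5 : 4 ≤ η * (c * n) := by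
      rw [hn4]
      have h7 : u ≤ u^4 := by
        have : u^1 ≤ u^4 := pow_le_pow_right₀ u1 (by norm_num)
        rwa [pow_one] at this
      have : u * (c * η) ≤ u^4 * (c*η) := mul_le_mul_of_nonneg_right h7 (by positivity)
      linarith
    exact a_t2 η c n M hη h5 hM
  linarith

theorem asym (B δ s0 c ε η : ℝ) (hB : 0 < B) (hδ : 0 < δ) (hs0 : 0 < s0) (hc : 0 < c) (hε : 0 < ε)
    (hη : 0 < η) : ∃ κ > 0, ∃ n0 : ℕ, ∀ n ≥ n0, ∀ k : ℕ, (k:ℝ) + 1 ≤ κ * n → ∀ Γ ⊆ range n,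
      c * n ≤ (Γ.card:ℝ) → ∀ y b : ℕ → ℝ, (∀ i ∈ Γ, |y i| ≤ B) → (∀ i ∈ Γ, |b i| ≤ B) →
      (∀ i ∈ Γ, ∀ j ∈ Γ, s0 ≤ b j - y i) →
      c * n ≤ (((range n \ Γ).filter (fun i => δ ≤ |y i| ∧ |y i| ≤ B)).card : ℝ) →
      (((Γ.powerset.filter (fun σ => |es (range n) (k+1) (ys y b σ)| ≤ Real.exp (-(ε * n)))).card : ℕ) : ℝ) ≤
        2^Γ.card * η := by
  -- choice of ω
  obtain ⟨ω, hω, hω1, hω2⟩ : ∃ ω : ℝ, 0 < ω ∧ 16 * ω * (B+1) ≤ 1 ∧ 36 * B * ω ≤ η / 4 := by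
    refine ⟨min (1 / (16 * (B+1))) (η / (144 * B)), by positivity, ?_, ?_⟩
    · have := min_le_left (1 / (16 * (B+1))) (η / (144 * B))
      rw [le_div_iff₀ (by positivity)] at this
      linarith
    · have := min_le_right (1 / (16 * (B+1))) (η / (144 * B))
      rw [le_div_iff₀ (by positivity)] at this
      linarith
  have hωle := a_le1 ω B hω hB hω1
  obtain ⟨κ, hκpos, hκ1, hκ2, hκ3⟩ : ∃ κ : ℝ, 0 < κ ∧ κ ≤ 1/2 ∧ κ ≤ c/2 ∧
      2 * κ * (B + 1 + 1/ω)^2 ≤ c/2 * δ^2 := by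
    have hQ : 0 < (B + 1 + 1/ω)^2 := by positivity
    refine ⟨min (c * δ^2 / (4 * (B + 1 + 1/ω)^2)) (min (1/2) (c/2)), by positivity,
      (min_le_right _ _).trans (min_le_left _ _), (min_le_right _ _).trans (min_le_right _ _), ?_⟩
    have := min_le_left (c * δ^2 / (4 * (B + 1 + 1/ω)^2)) (min (1/2) (c/2))
    rw [le_div_iff₀ (by positivity)] at this
    linarith
  obtain ⟨β0, hβ0pos, hβ01, hβ02, hβ03⟩ : ∃ β0 : ℝ, 0 < β0 ∧ β0 ≤ 1 ∧ 2 * β0 ≤ δ ∧ 2 * β0 ≤ δ^2 := by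
    refine ⟨min (δ/2) (min (δ^2/2) 1), by positivity, (min_le_right _ _).trans (min_le_right _ _), ?_, ?_⟩
    · have := min_le_left (δ/2) (min (δ^2/2) 1); linarith
    · have := (min_le_right (δ/2) (min (δ^2/2) 1)).trans (min_le_left _ _); linarith
  refine ⟨κ, hκpos, ?_⟩
  obtain ⟨n0, hn0⟩ := cond_ev B δ s0 c ε η ω κ β0 hB hs0 hc hε hη hω hωle
  refine ⟨n0, ?_⟩
  intro n hn k hk Γ hΓ hΓc y b hya hyb hgap hgood
  obtain ⟨u, τ, L, m, C⟩ := hn0 n hn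
  have hu0 : 0 < u := by linarith [C.u1]
  have hn1 : (1:ℝ) ≤ n := by rw [C.hn4]; exact one_le_pow₀ C.u1
  have hnpos : (0:ℝ) < n := by linarith
  have hk0 : (0:ℝ) ≤ k := Nat.cast_nonneg k
  have hk2n : (k:ℝ) + 1 ≤ n/2 := by
    refine hk.trans ?_
    have := mul_le_mul_of_nonneg_right hκ1 hnpos.le
    linarith
  have hkcn : (k:ℝ) + 1 ≤ c/2 * n := hk.trans (mul_le_mul_of_nonneg_right hκ2 hnpos.le)
  have hu4 : u ≤ u^4 := by
    have : u^1 ≤ u^4 := pow_le_pow_right₀ C.u1 (by norm_num)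
    rwa [pow_one] at this
  have hcn : 4 ≤ c * n := by
    rw [C.hn4]
    have := mul_le_mul_of_nonneg_right hu4 hc.le
    linarith [C.u2]
  have hΓn : (Γ.card:ℝ) ≤ n := by
    have := card_le_card hΓ
    rw [card_range] at this
    exact_mod_cast this
  have hn4' : (4:ℝ) ≤ n := by linarith
  have hΓpos : (0:ℝ) < Γ.card := by linarith
  have hΓ0 : 0 < Γ.card := by exact_mod_cast hΓpos
  have hτm : τ * ((n:ℝ)/4) = u/4 := by
    calc τ * ((n:ℝ)/4) = (n * τ)/4 := by ring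
      _ = _ := by rw [C.hnτ]
  have hLu := a_L L ω u C.Lle hωle hu0
  have hgwu := gw_ev ε u n C.u1 C.hn4 C.u6
  have hsmall := small_ev ε u β0 n m C.u1 C.hn4 hβ0pos C.u5 C.u6 C.mhigh (by positivity)
  have hgw : 0 < Real.exp (-(ε * n)/2) := Real.exp_pos _
  have hγeq : Real.exp (-(ε * n)) = Real.exp (-(ε * n)/2) * Real.exp (-(ε * n)/2) := by
    rw [← Real.exp_add]; congr 1; ring
  have hg1 := a_g1 _ u B hgw hgwu C.u7
  have hg2 := a_g2 _ u B s0 hgw hs0 hgwu C.u8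
  have hB1 : 0 < B + 1 := by linarith
  have p_card : (k:ℝ) + 1 + (n:ℝ)/4 ≤ ((range n).card : ℝ) := by rw [card_range]; linarith
  have p_k2 : k + 2 ≤ (range n).card := by
    rw [card_range]
    have : (k:ℝ) + 2 ≤ n := by linarith
    exact_mod_cast this
  have p_G : 2 * (κ * n) * (B + 1 + 1/ω)^2 ≤ c/2*n * δ^2 := by
    calc 2 * (κ * n) * (B + 1 + 1/ω)^2 = (2 * κ * (B + 1 + 1/ω)^2) * n := by ring
      _ ≤ (c/2 * δ^2) * n := mul_le_mul_of_nonneg_right hκ3 hnpos.le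
      _ = _ := by ring
  have p_Gd := gd_ev c n u L _ C.hn4 C.u1 C.u2 hLu hgood
  have p_Gd2 : k + 2 ≤ ((range n \ Γ).filter (fun i => δ ≤ |y i| ∧ |y i| ≤ B)).card := by
    have : ((k:ℝ) + 2) ≤ (((range n \ Γ).filter (fun i => δ ≤ |y i| ∧ |y i| ≤ B)).card : ℝ) := by
      linarith
    exact_mod_cast this
  have p_L1 : 2 * (L:ℝ) ≤ ω * (τ * ((n:ℝ)/4)) := by rw [hτm]; linarith [C.Lle]
  have p_L2 : (κ * n) / ω < 2^L * (τ * ((n:ℝ)/4)) := by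
    rw [hτm]
    refine lt_of_le_of_lt ?_ C.hexp
    exact div_le_div_of_nonneg_right (a_mm κ n hκ1 hnpos) hω.le
  have p_b1 : β0/(n:ℝ)^2 ≤ 1 := by
    rw [div_le_one (by positivity)]
    have : (1:ℝ) ≤ (n:ℝ)^2 := one_le_pow₀ hn1
    linarith
  have p_b2 : 2 * (n:ℝ) * (β0/(n:ℝ)^2) ≤ δ := by
    have : 2 * (n:ℝ) * (β0/(n:ℝ)^2) = 2*β0/n := by field_simp
    rw [this, div_le_iff₀ hnpos]; exact a_b β0 n δ hn1 hδ hβ02
  have p_b3 : 2 * (n:ℝ)^2 * (β0/(n:ℝ)^2) ≤ δ^2 := by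
    have : 2 * (n:ℝ)^2 * (β0/(n:ℝ)^2) = 2*β0 := by field_simp
    rw [this]; exact hβ03
  have p_m2 : 24 * ((n:ℝ) * τ * (2 * ω)) ≤ m := by rw [C.hnτ]; linarith [C.mlow]
  have p_V1 : 1 ≤ (n:ℝ)^3/β0 := by
    rw [le_div_iff₀ hβ0pos]
    have : (1:ℝ) ≤ (n:ℝ)^3 := one_le_pow₀ hn1
    linarith
  have p_V2 : (n:ℝ) * τ / (β0/(n:ℝ)^2) ≤ (n:ℝ)^3/β0 := by
    have : (n:ℝ) * τ / (β0/(n:ℝ)^2) = u * n^2/β0 := by rw [C.hnτ]; field_simp
    rw [this]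
    apply div_le_div_of_nonneg_right _ hβ0pos.le
    have : u ≤ n := by rw [C.hn4]; exact hu4
    calc u * (n:ℝ)^2 ≤ n * (n:ℝ)^2 := mul_le_mul_of_nonneg_right this (by positivity)
      _ = _ := by ring
  have p_P1 : Real.exp (-(ε * n)/2)/(B+1) ≤ Real.exp (-(ε * n)/2) :=
    div_le_self hgw.le (by linarith)
  have p_P2 : Real.exp (-(ε * n)) + B * (Real.exp (-(ε * n)/2)/(B+1)) ≤ Real.exp (-(ε * n)/2) := by
    have h1 : B * (Real.exp (-(ε * n)/2)/(B+1)) = Real.exp (-(ε * n)/2) - Real.exp (-(ε * n)/2)/(B+1) := by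
      field_simp; ring
    rw [h1]
    have h2 : Real.exp (-(ε * n)) ≤ Real.exp (-(ε * n)/2)/(B+1) := by
      rw [hγeq, le_div_iff₀ hB1]; exact a_gg _ B hgw hB hg1
    linarith
  have p_P3 : 2 * Real.exp (-(ε * n)) < s0 * (Real.exp (-(ε * n)/2)/(B+1)) := by
    rw [hγeq, ← mul_div_assoc, lt_div_iff₀ hB1]
    exact a_gP _ B s0 hgw hB hs0 hg2
  have hfin := det_cube (range n) Γ hΓ hΓ0 y b k B δ s0 ω τ (κ*n) (c/2*n) n ((n:ℝ)/4) (β0/(n:ℝ)^2)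
    ((n:ℝ)^3/β0) (Real.exp (-(ε * n))) (Real.exp (-(ε * n)/2))
    (Real.exp (-(ε * n)/2)/(B+1)) L m hB hδ hs0 hω C.τpos C.τ1 hya hyb hgap hk (by positivity)
    p_card p_k2 (by rw [card_range]) p_G p_Gd p_Gd2 p_L1 p_L2 hω1 (by positivity) p_b1 p_b2 p_b3
    C.m1 p_m2 p_V1 p_V2 (Real.exp_pos _).le (by positivity) p_P1 p_P2 hsmall p_P3
  refine hfin.trans ?_
  apply mul_le_mul_of_nonneg_left _ (by positivity)
  exact fin_ev B ω τ n c η u _ hc hη hω2 C.hnτ C.u1 C.hn4 C.hsq1 hΓc C.u3 C.u4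

end Pool.Agent.H704R3
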