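import Mathlib
import Pool.Agent.H704R3.Asym

set_option autoImplicit false
set_option linter.unusedSectionVars false
set_option linter.unusedVariables false

namespace Pool.Agent.H704R3
open Finset Filter Topology MeasureTheory ProbabilityTheory

instance sepIic : HasCountableSeparatingOn ℝ (fun U => ∃ q : ℚ, U = Set.Iic (q:ℝ)) Set.univ := by
  refine ⟨⟨Set.range (fun q : ℚ => Set.Iic (q:ℝ)), Set.countable_range _, ?_, ?_⟩⟩
  · rintro s ⟨q, rfl⟩; exact ⟨q, rfl⟩
  · intro x _ y _ h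
    by_contra hne
    rcases lt_or_gt_of_ne hne with hlt | hlt
    · obtain ⟨q, hq1, hq2⟩ := exists_rat_btwn hlt
      have := (h (Set.Iic (q:ℝ)) ⟨q, rfl⟩).mp hq1.le
      exact absurd this (not_le.mpr hq2)
    · obtain ⟨q, hq1, hq2⟩ := exists_rat_btwn hlt
      have := (h (Set.Iic (q:ℝ)) ⟨q, rfl⟩).mpr hq1.le
      exact absurd this (not_le.mpr hq2)

section
variable {Ω : Type} [MeasurableSpace Ω] (P : Measure Ω) [IsProbabilityMeasure P]

lemma exists_split (X : Ω → ℝ) (hX : Measurable X) (hnd : ¬ ∃ c : ℝ, ∀ᵐ ω ∂P, X ω = c) :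
    ∃ q : ℝ, P {ω | X ω ≤ q} ≠ 0 ∧ P {ω | q < X ω} ≠ 0 := by
  by_contra hcon
  push Not at hcon
  apply hnd
  have := Filter.exists_eventuallyEq_const_of_forall_separating (l := ae P) (f := X)
    (fun U => ∃ q : ℚ, U = Set.Iic (q:ℝ)) (by
      rintro U ⟨q, rfl⟩
      by_cases h0 : P {ω | X ω ≤ q} = 0
      · right
        rw [ae_iff]
        simpa using h0
      · left
        rw [ae_iff]
        have := hcon q h0
        simpa using this)
  obtain ⟨a, ha⟩ := this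
  exact ⟨a, ha⟩

lemma constants (X : Ω → ℝ) (hX : Measurable X) (hnd : ¬ ∃ c : ℝ, ∀ᵐ ω ∂P, X ω = c) :
    ∃ c0 c1 B δ : ℝ, c0 < c1 ∧ 0 < B ∧ 0 < δ ∧ 0 < P {ω | |X ω| ≤ B ∧ X ω ≤ c0} ∧
      0 < P {ω | |X ω| ≤ B ∧ c1 ≤ X ω} ∧ 0 < P {ω | δ ≤ |X ω| ∧ |X ω| ≤ B} := by
  obtain ⟨q, hq1, hq2⟩ := exists_split P X hX hnd
  have hq1' : P (⋃ n : ℕ, {ω | |X ω| ≤ n ∧ X ω ≤ q}) ≠ 0 := by
    intro h
    apply hq1
    refine measure_mono_null ?_ h
    intro ω hω
    obtain ⟨n, hn⟩ := exists_nat_ge |X ω|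
    exact Set.mem_iUnion.mpr ⟨n, hn, hω⟩
  obtain ⟨n1, hn1⟩ := exists_measure_pos_of_not_measure_iUnion_null hq1'
  have hq2' : P (⋃ n : ℕ, {ω | |X ω| ≤ n ∧ q + 1/((n:ℝ)+1) ≤ X ω}) ≠ 0 := by
    intro h
    apply hq2
    refine measure_mono_null ?_ h
    intro ω hω
    have hpos : 0 < X ω - q := sub_pos.mpr hω
    obtain ⟨n, hn⟩ := exists_nat_ge (max |X ω| (1/(X ω - q)))
    refine Set.mem_iUnion.mpr ⟨n, (le_max_left _ _).trans hn, ?_⟩
    have h2 : 1/(X ω - q) ≤ n := (le_max_right _ _).trans hn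
    have h3 : 1/((n:ℝ)+1) ≤ X ω - q := by
      rw [div_le_iff₀ hpos] at h2
      rw [div_le_iff₀ (by positivity)]
      nlinarith
    linarith
  obtain ⟨n2, hn2⟩ := exists_measure_pos_of_not_measure_iUnion_null hq2'
  have hq3' : P (⋃ n : ℕ, {ω | 1/((n:ℝ)+1) ≤ |X ω| ∧ |X ω| ≤ n}) ≠ 0 := by
    intro h
    apply hnd
    refine ⟨0, ?_⟩
    rw [ae_iff]
    refine measure_mono_null ?_ h
    intro ω hω
    have hpos : 0 < |X ω| := abs_pos.mpr hω
    obtain ⟨n, hn⟩ := exists_nat_ge (max |X ω| (1/|X ω|))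
    refine Set.mem_iUnion.mpr ⟨n, ?_, (le_max_left _ _).trans hn⟩
    have h2 : 1/|X ω| ≤ n := (le_max_right _ _).trans hn
    rw [div_le_iff₀ hpos] at h2
    rw [div_le_iff₀ (by positivity)]
    nlinarith
  obtain ⟨n3, hn3⟩ := exists_measure_pos_of_not_measure_iUnion_null hq3'
  have m1 : (n1:ℝ) ≤ (n1:ℝ)+n2+n3+1 := by
    have := Nat.cast_nonneg (α := ℝ) n2; have := Nat.cast_nonneg (α := ℝ) n3; linarith
  have m2 : (n2:ℝ) ≤ (n1:ℝ)+n2+n3+1 := by
    have := Nat.cast_nonneg (α := ℝ) n1; have := Nat.cast_nonneg (α := ℝ) n3; linarith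
  have m3 : (n3:ℝ) ≤ (n1:ℝ)+n2+n3+1 := by
    have := Nat.cast_nonneg (α := ℝ) n1; have := Nat.cast_nonneg (α := ℝ) n2; linarith
  refine ⟨q, q + 1/((n2:ℝ)+1), (n1:ℝ)+n2+n3+1, 1/((n3:ℝ)+1), ?_, by positivity, by positivity, ?_, ?_, ?_⟩
  · have : (0:ℝ) < 1/((n2:ℝ)+1) := by positivity
    linarith
  · exact lt_of_lt_of_le hn1 (measure_mono (fun ω hω => ⟨hω.1.trans m1, hω.2⟩))
  · exact lt_of_lt_of_le hn2 (measure_mono (fun ω hω => ⟨hω.1.trans m2, hω.2⟩))
  · exact lt_of_lt_of_le hn3 (measure_mono (fun ω hω => ⟨hω.1, hω.2.trans m3⟩))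

/-- law of large numbers for pairs -/
lemma pair_lln (Y : ℕ → Ω → ℝ) (hm : ∀ i, Measurable (Y i)) (hind : iIndepFun Y P)
    (hid : ∀ i, IdentDistrib (Y i) (Y 0) P P) (A : Set (ℝ × ℝ)) (hA : MeasurableSet A)
    (hpos : 0 < P {ω | (Y 0 ω, Y 1 ω) ∈ A}) :
    ∃ a > 0, Tendsto (fun n : ℕ => P {ω | (∑ i ∈ range n, A.indicator (fun _ => (1:ℝ)) (Y (2*i) ω, Y (2*i+1) ω))
      ≤ a * n}) atTop (𝓝 0) := by
  set F : ℝ × ℝ → ℝ := A.indicator (fun _ => (1:ℝ)) with hF
  have hFm : Measurable F := measurable_const.indicator hA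
  let X : ℕ → Ω → ℝ := fun i ω => F (Y (2*i) ω, Y (2*i+1) ω)
  have hpm : ∀ i, Measurable (fun ω => (Y (2*i) ω, Y (2*i+1) ω)) := fun i => (hm _).prodMk (hm _)
  have hXm : ∀ i, Measurable (X i) := fun i => hFm.comp (hpm i)
  have hF01 : ∀ p, 0 ≤ F p ∧ F p ≤ 1 := by
    intro p
    by_cases h : p ∈ A
    · rw [hF, Set.indicator_of_mem h]; norm_num
    · rw [hF, Set.indicator_of_notMem h]; norm_num
  have hint : Integrable (X 0) P := by
    refine Integrable.of_bound (hXm 0).aestronglyMeasurable 1 ?_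
    filter_upwards with ω
    rw [Real.norm_eq_abs, abs_of_nonneg (hF01 _).1]
    exact (hF01 _).2
  have hindep : Pairwise (fun i j => IndepFun (X i) (X j) P) := by
    intro i j hij
    have h1 := hind.indepFun_prodMk_prodMk hm (2*i) (2*i+1) (2*j) (2*j+1) (by omega) (by omega)
      (by omega) (by omega)
    exact h1.comp hFm hFm
  have hident : ∀ i, IdentDistrib (X i) (X 0) P P := by
    intro i
    have i1 : IndepFun (Y (2*i)) (Y (2*i+1)) P := hind.indepFun (by omega)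
    have i2 : IndepFun (Y (2*0)) (Y (2*0+1)) P := hind.indepFun (by omega)
    have h1 : IdentDistrib (fun ω => (Y (2*i) ω, Y (2*i+1) ω)) (fun ω => (Y (2*0) ω, Y (2*0+1) ω)) P P :=
      IdentDistrib.prodMk ((hid _).trans (hid _).symm) ((hid _).trans (hid _).symm) i1 i2
    exact h1.comp hFm
  have hslln := strong_law_ae_real X hint hindep hident
  set a := ∫ ω, X 0 ω ∂P with ha
  have hapos : 0 < a := by
    rw [ha, integral_pos_iff_support_of_nonneg (fun ω => (hF01 _).1) hint]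
    refine lt_of_lt_of_le hpos (measure_mono ?_)
    intro ω hω
    rw [Function.mem_support]
    simp only [X, mul_zero, zero_add]
    rw [hF, Set.indicator_of_mem (by exact hω)]
    norm_num
  refine ⟨a/2, by positivity, ?_⟩
  have hmeas : TendstoInMeasure P (fun n : ℕ => fun ω => (∑ i ∈ range n, X i ω) / n) atTop (fun _ => a) := by
    apply tendstoInMeasure_of_tendsto_ae _ hslln
    intro n
    exact ((Finset.measurable_sum _ (fun i _ => hXm i)).div_const _).aestronglyMeasurable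
  rw [tendstoInMeasure_iff_norm] at hmeas
  have h2 := hmeas (a/2) (by positivity)
  refine tendsto_of_tendsto_of_tendsto_of_le_of_le' tendsto_const_nhds h2 (Eventually.of_forall (fun _ => bot_le)) ?_
  filter_upwards [eventually_gt_atTop 0] with n hn
  apply measure_mono
  intro ω hω
  have hnR : (0:ℝ) < n := by exact_mod_cast hn
  have h3 : (∑ i ∈ range n, X i ω) / n ≤ a/2 := by
    rw [div_le_iff₀ hnR]; exact hω
  show a/2 ≤ ‖(∑ i ∈ range n, X i ω) / n - a‖
  rw [Real.norm_eq_abs]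
  have := neg_abs_le ((∑ i ∈ range n, X i ω) / n - a)
  linarith

/-- the swapped vector -/
noncomputable def zs (Y : ℕ → Ω → ℝ) (σ : Finset ℕ) (ω : Ω) (i : ℕ) : ℝ :=
  Y (if i ∈ σ then 2*i+1 else 2*i) ω

lemma es_measurable (n k : ℕ) : Measurable (fun v : ℕ → ℝ => es (range n) k v) := by
  unfold es
  apply Finset.measurable_sum
  intro T _
  apply Finset.measurable_prod
  intro i _
  exact measurable_pi_apply i

lemma zs_measure (Y : ℕ → Ω → ℝ) (hm : ∀ i, Measurable (Y i)) (hind : iIndepFun Y P)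
    (hid : ∀ i, IdentDistrib (Y i) (Y 0) P P) (n k : ℕ) (γ : ℝ) (σ : Finset ℕ) :
    P {ω | |es (range n) k (zs Y σ ω)| ≤ γ} = P {ω | |es (range n) k (fun i => Y i ω)| ≤ γ} := by
  have hinj : Function.Injective (fun i : ℕ => if i ∈ σ then 2*i+1 else 2*i) := by
    intro i j h
    simp only at h
    split_ifs at h <;> omega
  have h1 : iIndepFun (fun i => Y (if i ∈ σ then 2*i+1 else 2*i)) P := hind.precomp hinj
  have h2 : IdentDistrib (fun ω => (fun i => Y (if i ∈ σ then 2*i+1 else 2*i) ω))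
      (fun ω => (fun i => Y i ω)) P P :=
    IdentDistrib.pi (fun i => (hid _).trans (hid _).symm) h1 hind
  have hset : MeasurableSet {v : ℕ → ℝ | |es (range n) k v| ≤ γ} :=
    measurableSet_le (es_measurable n k).abs measurable_const
  exact h2.measure_mem_eq hset

lemma powerset_split (F : Finset ℕ → ℝ) (A B : Finset ℕ) (h : Disjoint A B) :
    ∑ σ ∈ (A ∪ B).powerset, F σ = ∑ ρ ∈ A.powerset, ∑ σ ∈ B.powerset, F (ρ ∪ σ) := by
  induction B using Finset.induction_on generalizing F with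
  | empty => simp
  | @insert b B hb ih =>
    have hbA : b ∉ A := by
      intro hbA
      exact (disjoint_left.mp h) hbA (mem_insert_self b B)
    have hd : Disjoint A B := disjoint_of_subset_right (subset_insert b B) h
    rw [union_insert, sum_powerset_insert (by
      rw [mem_union]; push Not; exact ⟨hbA, hb⟩)]
    rw [ih F hd, ih (fun t => F (insert b t)) hd, ← sum_add_distrib]
    apply sum_congr rfl
    intro ρ _
    rw [sum_powerset_insert hb]
    congr 1
    apply sum_congr rfl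
    intro σ _
    rw [union_insert]

/-- deterministic count of subsets on a good sample -/
lemma count_good (c0 c1 B δ c ε η : ℝ) (n0 n k : ℕ) (κ : ℝ) (hn : n0 ≤ n)
    (hasym : ∀ n ≥ n0, ∀ k : ℕ, (k:ℝ) + 1 ≤ κ * n → ∀ Γ ⊆ range n,
      c * n ≤ (Γ.card:ℝ) → ∀ y b : ℕ → ℝ, (∀ i ∈ Γ, |y i| ≤ B) → (∀ i ∈ Γ, |b i| ≤ B) →
      (∀ i ∈ Γ, ∀ j ∈ Γ, (c1 - c0) ≤ b j - y i) →
      c * n ≤ (((range n \ Γ).filter (fun i => δ ≤ |y i| ∧ |y i| ≤ B)).card : ℝ) →
      (((Γ.powerset.filter (fun σ => |es (range n) (k+1) (ys y b σ)| ≤ Real.exp (-(ε * n)))).card : ℕ) : ℝ) ≤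
        2^Γ.card * η)
    (hk : (k:ℝ) + 1 ≤ κ * n) (x : ℕ → ℝ)
    (A2 A3 : Set (ℝ × ℝ)) (hA2 : A2 = {p | (|p.1| ≤ B ∧ p.1 ≤ c0) ∧ (|p.2| ≤ B ∧ c1 ≤ p.2)})
    (hA3 : ∀ p ∈ A3, (δ ≤ |p.1| ∧ |p.1| ≤ B) ∧ (δ ≤ |p.2| ∧ |p.2| ≤ B) ∧ p ∉ A2)
    (h2 : c * n ≤ ∑ i ∈ range n, A2.indicator (fun _ => (1:ℝ)) (x (2*i), x (2*i+1)))
    (h3 : c * n ≤ ∑ i ∈ range n, A3.indicator (fun _ => (1:ℝ)) (x (2*i), x (2*i+1))) :
    ∑ σ ∈ (range n).powerset,
      (if |es (range n) (k+1) (fun i => x (if i ∈ σ then 2*i+1 else 2*i))| ≤ Real.exp (-(ε * n))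
        then (1:ℝ) else 0) ≤ 2^n * η := by
  classical
  set Γ : Finset ℕ := (range n).filter (fun i => (x (2*i), x (2*i+1)) ∈ A2) with hΓ
  have hΓs : Γ ⊆ range n := filter_subset _ _
  have hΓc : c * n ≤ (Γ.card : ℝ) := by
    refine h2.trans (le_of_eq ?_)
    rw [hΓ, card_filter]
    push_cast
    apply sum_congr rfl
    intro i _
    by_cases h : (x (2*i), x (2*i+1)) ∈ A2
    · rw [Set.indicator_of_mem h, if_pos h]
    · rw [Set.indicator_of_notMem h, if_neg h]
  have hsplit : range n = (range n \ Γ) ∪ Γ := (sdiff_union_of_subset hΓs).symm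
  have hdisj : Disjoint (range n \ Γ) Γ := sdiff_disjoint
  have e1 := powerset_split (fun σ => (if |es (range n) (k+1) (fun i => x (if i ∈ σ then 2*i+1 else 2*i))| ≤ Real.exp (-(ε * n))
        then (1:ℝ) else 0)) (range n \ Γ) Γ hdisj
  rw [← hsplit] at e1
  rw [e1]
  have hρ : ∀ ρ ∈ (range n \ Γ).powerset, ∑ σ ∈ Γ.powerset,
      (if |es (range n) (k+1) (fun i => x (if i ∈ ρ ∪ σ then 2*i+1 else 2*i))| ≤ Real.exp (-(ε * n))
        then (1:ℝ) else 0) ≤ 2^Γ.card * η := by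
    intro ρ hρ
    rw [mem_powerset] at hρ
    have hρΓ : ∀ i ∈ Γ, i ∉ ρ := fun i hi h => (mem_sdiff.mp (hρ h)).2 hi
    set y : ℕ → ℝ := fun i => x (if i ∈ ρ then 2*i+1 else 2*i) with hy
    set b : ℕ → ℝ := fun i => x (2*i+1) with hb
    have hy1 : ∀ i ∈ Γ, y i = x (2*i) := by
      intro i hi; rw [hy]; simp only; rw [if_neg (hρΓ i hi)]
    have hmem : ∀ i ∈ Γ, (|x (2*i)| ≤ B ∧ x (2*i) ≤ c0) ∧ (|x (2*i+1)| ≤ B ∧ c1 ≤ x (2*i+1)) := by
      intro i hi
      have := (mem_filter.mp hi).2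
      rw [hA2] at this
      exact this
    have hmain := hasym n hn k hk Γ hΓs hΓc y b (fun i hi => by rw [hy1 i hi]; exact (hmem i hi).1.1)
      (fun i hi => (hmem i hi).2.1)
      (fun i hi j hj => by
        rw [hy1 i hi]
        have h4 := (hmem i hi).1.2
        have h5 := (hmem j hj).2.2
        show c1 - c0 ≤ x (2*j+1) - x (2*i)
        linarith)
      (by
        refine h3.trans ?_
        have e2 : ∑ i ∈ range n, A3.indicator (fun _ => (1:ℝ)) (x (2*i), x (2*i+1)) =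
            (((range n).filter (fun i => (x (2*i), x (2*i+1)) ∈ A3)).card : ℝ) := by
          rw [card_filter]
          push_cast
          apply sum_congr rfl
          intro i _
          by_cases h : (x (2*i), x (2*i+1)) ∈ A3
          · rw [Set.indicator_of_mem h, if_pos h]
          · rw [Set.indicator_of_notMem h, if_neg h]
        rw [e2]
        have : (range n).filter (fun i => (x (2*i), x (2*i+1)) ∈ A3) ⊆
            (range n \ Γ).filter (fun i => δ ≤ |y i| ∧ |y i| ≤ B) := by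
          intro i hi
          rw [mem_filter] at hi
          obtain ⟨g1, g2, g3⟩ := hA3 _ hi.2
          refine mem_filter.mpr ⟨mem_sdiff.mpr ⟨hi.1, ?_⟩, ?_⟩
          · intro hiΓ
            exact g3 (mem_filter.mp hiΓ).2
          · show δ ≤ |x (if i ∈ ρ then 2*i+1 else 2*i)| ∧ |x (if i ∈ ρ then 2*i+1 else 2*i)| ≤ B
            split_ifs
            · exact g2
            · exact g1
        exact_mod_cast card_le_card this)
    refine le_trans (le_of_eq ?_) hmain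
    rw [card_filter]
    push_cast
    apply sum_congr rfl
    intro σ hσ
    rw [mem_powerset] at hσ
    have hvec : (fun i => x (if i ∈ ρ ∪ σ then 2*i+1 else 2*i)) = ys y b σ := by
      funext i
      unfold ys
      rw [hy, hb]
      simp only [mem_union]
      by_cases h1 : i ∈ σ
      · simp [h1]
      · by_cases h2 : i ∈ ρ <;> simp [h1, h2]
    rw [hvec]
  calc _ ≤ ∑ ρ ∈ (range n \ Γ).powerset, (2^Γ.card * η) := sum_le_sum hρ
    _ = 2^n * η := by
      rw [sum_const, card_powerset, nsmul_eq_mul, card_sdiff_of_subset hΓs, card_range]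
      push_cast
      rw [← mul_assoc, ← pow_add]
      congr 2
      have := card_le_card hΓs
      rw [card_range] at this
      omega

end
end Pool.Agent.H704R3
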