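import Mathlib
import Pool.Agent.H704R3.Prob

set_option autoImplicit false
set_option linter.unusedSectionVars false
set_option linter.unusedVariables false

namespace Pool.Agent.H704R3
open Finset Filter Topology MeasureTheory ProbabilityTheory

section
variable {Ω : Type} [MeasurableSpace Ω] (P : Measure Ω) [IsProbabilityMeasure P]

/-- averaging over swaps -/
lemma average (Y : ℕ → Ω → ℝ) (hm : ∀ i, Measurable (Y i)) (hind : iIndepFun Y P)
    (hid : ∀ i, IdentDistrib (Y i) (Y 0) P P) (n k : ℕ) (γ η : ℝ) (hη : 0 ≤ η) (Bad : Set Ω)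
    (hcount : ∀ ω, ω ∉ Bad → ∑ σ ∈ (range n).powerset,
      (if |es (range n) k (zs Y σ ω)| ≤ γ then (1:ℝ) else 0) ≤ 2^n * η) :
    P {ω | |es (range n) k (fun i => Y i ω)| ≤ γ} ≤ P Bad + ENNReal.ofReal η := by
  have hE : ∀ σ, MeasurableSet {ω | |es (range n) k (zs Y σ ω)| ≤ γ} := by
    intro σ
    have h1 : Measurable (fun ω => zs Y σ ω) := measurable_pi_lambda _ (fun i => hm _)
    exact measurableSet_le ((es_measurable n k).comp h1).abs measurable_const
  have h1 : ∑ σ ∈ (range n).powerset, P {ω | |es (range n) k (zs Y σ ω)| ≤ γ} =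
      2^n * P {ω | |es (range n) k (fun i => Y i ω)| ≤ γ} := by
    rw [sum_congr rfl (fun σ _ => zs_measure P Y hm hind hid n k γ σ)]
    rw [sum_const, card_powerset, card_range, nsmul_eq_mul]
    push_cast
    rfl
  have h2 : ∑ σ ∈ (range n).powerset, P {ω | |es (range n) k (zs Y σ ω)| ≤ γ} =
      ∫⁻ ω, ∑ σ ∈ (range n).powerset,
        Set.indicator {ω | |es (range n) k (zs Y σ ω)| ≤ γ} (1 : Ω → ENNReal) ω ∂P := by
    rw [lintegral_finsetSum]
    · apply sum_congr rfl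
      intro σ _
      rw [lintegral_indicator_one (hE σ)]
    · intro σ _
      exact measurable_one.indicator (hE σ)
  have h3 : ∀ ω, ∑ σ ∈ (range n).powerset,
      Set.indicator {ω | |es (range n) k (zs Y σ ω)| ≤ γ} (1 : Ω → ENNReal) ω ≤
      2^n * (Set.indicator Bad (1 : Ω → ENNReal) ω + ENNReal.ofReal η) := by
    intro ω
    by_cases h : ω ∈ Bad
    · rw [Set.indicator_of_mem h]
      calc ∑ σ ∈ (range n).powerset,
            Set.indicator {ω | |es (range n) k (zs Y σ ω)| ≤ γ} (1 : Ω → ENNReal) ω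
          ≤ ∑ σ ∈ (range n).powerset, (1 : ENNReal) := by
            apply sum_le_sum
            intro σ _
            by_cases h5 : ω ∈ {ω | |es (range n) k (zs Y σ ω)| ≤ γ}
            · rw [Set.indicator_of_mem h5]; exact le_refl _
            · rw [Set.indicator_of_notMem h5]; exact bot_le
        _ = 2^n * 1 := by
            rw [sum_const, card_powerset, card_range, nsmul_eq_mul]
            push_cast
            rfl
        _ ≤ 2^n * ((1 : Ω → ENNReal) ω + ENNReal.ofReal η) := by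
            gcongr
            exact le_add_right (le_refl _)
    · rw [Set.indicator_of_notMem h, zero_add]
      have h4 := hcount ω h
      have e : ∑ σ ∈ (range n).powerset,
          Set.indicator {ω | |es (range n) k (zs Y σ ω)| ≤ γ} (1 : Ω → ENNReal) ω =
          ENNReal.ofReal (∑ σ ∈ (range n).powerset,
            (if |es (range n) k (zs Y σ ω)| ≤ γ then (1:ℝ) else 0)) := by
        rw [ENNReal.ofReal_sum_of_nonneg (fun σ _ => by split_ifs <;> norm_num)]
        apply sum_congr rfl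
        intro σ _
        by_cases h5 : |es (range n) k (zs Y σ ω)| ≤ γ
        · rw [Set.indicator_of_mem (by exact h5), if_pos h5]; simp
        · rw [Set.indicator_of_notMem (by exact h5), if_neg h5]; simp
      rw [e]
      calc ENNReal.ofReal _ ≤ ENNReal.ofReal (2^n * η) := ENNReal.ofReal_le_ofReal h4
        _ = 2^n * ENNReal.ofReal η := by
          rw [ENNReal.ofReal_mul (by positivity), ENNReal.ofReal_pow (by norm_num)]
          simp
  have h2n : (2:ENNReal)^n ≠ 0 := by positivity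
  have h2n' : (2:ENNReal)^n ≠ ⊤ := by simp
  have h4 : 2^n * P {ω | |es (range n) k (fun i => Y i ω)| ≤ γ} ≤ 2^n * (P Bad + ENNReal.ofReal η) := by
    rw [← h1, h2]
    calc ∫⁻ ω, ∑ σ ∈ (range n).powerset,
          Set.indicator {ω | |es (range n) k (zs Y σ ω)| ≤ γ} (1 : Ω → ENNReal) ω ∂P
        ≤ ∫⁻ ω, 2^n * (Set.indicator Bad (1 : Ω → ENNReal) ω + ENNReal.ofReal η) ∂P := lintegral_mono h3
      _ = 2^n * ∫⁻ ω, (Set.indicator Bad (1 : Ω → ENNReal) ω + ENNReal.ofReal η) ∂P :=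
          lintegral_const_mul' _ _ h2n'
      _ = 2^n * (∫⁻ ω, Set.indicator Bad (1 : Ω → ENNReal) ω ∂P + ENNReal.ofReal η) := by
          rw [lintegral_add_right _ measurable_const]
          simp
      _ ≤ 2^n * (P Bad + ENNReal.ofReal η) := by
          gcongr
          exact lintegral_indicator_one_le _
  exact (ENNReal.mul_le_mul_iff_right h2n h2n').mp h4

theorem real_case (Y : ℕ → Ω → ℝ) (hm : ∀ i, Measurable (Y i)) (hind : iIndepFun Y P)
    (hid : ∀ i, IdentDistrib (Y i) (Y 0) P P) (hnd : ¬ ∃ c : ℝ, ∀ᵐ ω ∂P, Y 0 ω = c)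
    (k : ℕ → ℕ) (hk : Tendsto (fun n : ℕ => (k n : ℝ) / (n : ℝ)) atTop (𝓝 0)) (ε : ℝ) (hε : 0 < ε) :
    Tendsto (fun n : ℕ => P {ω | |es (range n) (k n) (fun i => Y i ω)| ≤ Real.exp (-(ε * n))})
      atTop (𝓝 0) := by
  obtain ⟨c0, c1, B, δ, hc, hB, hδ, p1, p2, p3⟩ := constants P (Y 0) (hm 0) hnd
  set IA : Set ℝ := {x | |x| ≤ B ∧ x ≤ c0} with hIA
  set IB : Set ℝ := {x | |x| ≤ B ∧ c1 ≤ x} with hIB
  set IG : Set ℝ := {x | δ ≤ |x| ∧ |x| ≤ B} with hIG
  have habs : Measurable (fun x : ℝ => |x|) := continuous_abs.measurable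
  have mIA : MeasurableSet IA :=
    (measurableSet_le habs measurable_const).inter (measurableSet_le measurable_id measurable_const)
  have mIB : MeasurableSet IB :=
    (measurableSet_le habs measurable_const).inter (measurableSet_le measurable_const measurable_id)
  have mIG : MeasurableSet IG :=
    (measurableSet_le measurable_const habs).inter (measurableSet_le habs measurable_const)
  set A2 : Set (ℝ × ℝ) := {p | (|p.1| ≤ B ∧ p.1 ≤ c0) ∧ (|p.2| ≤ B ∧ c1 ≤ p.2)} with hA2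
  have hA2m : MeasurableSet A2 := (measurable_fst mIA).inter (measurable_snd mIB)
  set A3 : Set (ℝ × ℝ) := {p | (δ ≤ |p.1| ∧ |p.1| ≤ B) ∧ (δ ≤ |p.2| ∧ |p.2| ≤ B) ∧ p ∉ A2} with hA3
  have hA3m : MeasurableSet A3 :=
    (measurable_fst mIG).inter ((measurable_snd mIG).inter hA2m.compl)
  have hY1 : ∀ s, MeasurableSet s → P (Y 1 ⁻¹' s) = P (Y 0 ⁻¹' s) :=
    fun s hs => (hid 1).measure_mem_eq hs
  have hind01 : IndepFun (Y 0) (Y 1) P := hind.indepFun (by norm_num)
  have hprod : ∀ s t, MeasurableSet s → MeasurableSet t →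
      P (Y 0 ⁻¹' s ∩ Y 1 ⁻¹' t) = P (Y 0 ⁻¹' s) * P (Y 0 ⁻¹' t) := by
    intro s t hs ht
    rw [hind01.measure_inter_preimage_eq_mul s t hs ht, hY1 t ht]
  have q2 : 0 < P {ω | (Y 0 ω, Y 1 ω) ∈ A2} := by
    have : {ω | (Y 0 ω, Y 1 ω) ∈ A2} = Y 0 ⁻¹' IA ∩ Y 1 ⁻¹' IB := rfl
    rw [this, hprod _ _ mIA mIB]
    exact ENNReal.mul_pos p1.ne' p2.ne'
  have q3 : 0 < P {ω | (Y 0 ω, Y 1 ω) ∈ A3} := by
    by_cases hcase : P (Y 0 ⁻¹' (IG \ IA)) = 0
    · have h5 : P (Y 0 ⁻¹' (IG \ IB)) ≠ 0 := by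
        intro h7
        have h8 : P (Y 0 ⁻¹' IG) ≤ 0 := by
          calc P (Y 0 ⁻¹' IG) ≤ P (Y 0 ⁻¹' (IG \ IA) ∪ Y 0 ⁻¹' (IG \ IB)) := measure_mono (by
                intro ω hω
                by_cases h9 : Y 0 ω ∈ IA
                · right
                  refine ⟨hω, fun h10 => ?_⟩
                  have e1 := h9.2
                  have e2 := h10.2
                  linarith
                · left; exact ⟨hω, h9⟩)
            _ ≤ P (Y 0 ⁻¹' (IG \ IA)) + P (Y 0 ⁻¹' (IG \ IB)) := measure_union_le _ _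
            _ = 0 := by rw [hcase, h7]; simp
        exact absurd p3 (not_lt.mpr h8)
      have h11 : Y 0 ⁻¹' IG ∩ Y 1 ⁻¹' (IG \ IB) ⊆ {ω | (Y 0 ω, Y 1 ω) ∈ A3} := by
        intro ω hω
        exact ⟨hω.1, hω.2.1, fun h => hω.2.2 h.2⟩
      refine lt_of_lt_of_le ?_ (measure_mono h11)
      rw [hprod _ _ mIG (mIG.diff mIB)]
      exact ENNReal.mul_pos p3.ne' h5
    · have h11 : Y 0 ⁻¹' (IG \ IA) ∩ Y 1 ⁻¹' IG ⊆ {ω | (Y 0 ω, Y 1 ω) ∈ A3} := by
        intro ω hω
        exact ⟨hω.1.1, hω.2, fun h => hω.1.2 h.1⟩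
      refine lt_of_lt_of_le ?_ (measure_mono h11)
      rw [hprod _ _ (mIG.diff mIA) mIG]
      exact ENNReal.mul_pos hcase p3.ne'
  obtain ⟨a2, ha2, t2⟩ := pair_lln P Y hm hind hid A2 hA2m q2
  obtain ⟨a3, ha3, t3⟩ := pair_lln P Y hm hind hid A3 hA3m q3
  set c := min a2 a3 with hcdef
  have hc0 : 0 < c := lt_min ha2 ha3
  rw [ENNReal.tendsto_nhds_zero]
  intro ρ hρ
  by_cases hρtop : ρ = ⊤
  · exact Eventually.of_forall (fun _ => by rw [hρtop]; exact le_top)
  have hρ3 : 0 < ρ / 3 := ENNReal.div_pos hρ.ne' (by norm_num)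
  have hρ3t : ρ / 3 ≠ ⊤ := (ENNReal.div_lt_top hρtop (by norm_num)).ne
  set η : ℝ := (ρ/3).toReal with hηdef
  have hη : 0 < η := ENNReal.toReal_pos hρ3.ne' hρ3t
  obtain ⟨κ, hκ, n0, hasym⟩ := asym B δ (c1-c0) c ε η hB hδ (by linarith) hc0 hε hη
  have t2' := (ENNReal.tendsto_nhds_zero.mp t2) (ρ/3) hρ3
  have t3' := (ENNReal.tendsto_nhds_zero.mp t3) (ρ/3) hρ3
  have hk' : ∀ᶠ n in atTop, (k n : ℝ)/n < κ := hk.eventually_lt_const hκ
  filter_upwards [t2', t3', hk', eventually_ge_atTop (max n0 1)] with n g2 g3 gk gn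
  have hn0 : n0 ≤ n := (le_max_left _ _).trans gn
  have hn1 : 1 ≤ n := (le_max_right _ _).trans gn
  have hnR : (0:ℝ) < n := by exact_mod_cast hn1
  rcases Nat.eq_zero_or_pos (k n) with h0 | hpos
  · have : {ω | |es (range n) (k n) (fun i => Y i ω)| ≤ Real.exp (-(ε*n))} = ∅ := by
      rw [Set.eq_empty_iff_forall_notMem]
      intro ω hω
      rw [Set.mem_setOf_eq, h0] at hω
      have e1 : es (range n) 0 (fun i => Y i ω) = 1 := by simp [es]
      rw [e1, abs_one] at hω
      have e2 : Real.exp (-(ε*n)) < 1 := by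
        rw [Real.exp_lt_one_iff]
        have : 0 < ε * n := by positivity
        linarith
      linarith
    rw [this]
    simp
  · obtain ⟨k', hk''⟩ : ∃ k', k n = k' + 1 := ⟨k n - 1, by omega⟩
    have hkκ : (k':ℝ) + 1 ≤ κ * n := by
      rw [div_lt_iff₀ hnR] at gk
      rw [hk''] at gk
      push_cast at gk
      linarith
    have main := average P Y hm hind hid n (k n) (Real.exp (-(ε * n))) η hη.le
      ({ω | (∑ i ∈ range n, A2.indicator (fun _ => (1:ℝ)) (Y (2*i) ω, Y (2*i+1) ω)) ≤ a2 * n} ∪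
       {ω | (∑ i ∈ range n, A3.indicator (fun _ => (1:ℝ)) (Y (2*i) ω, Y (2*i+1) ω)) ≤ a3 * n}) (by
      intro ω hω
      rw [Set.mem_union] at hω
      push Not at hω
      obtain ⟨w2, w3⟩ := hω
      rw [Set.mem_setOf_eq, not_le] at w2 w3
      have c2 : c * n ≤ a2 * n := mul_le_mul_of_nonneg_right (min_le_left _ _) hnR.le
      have c3 : c * n ≤ a3 * n := mul_le_mul_of_nonneg_right (min_le_right _ _) hnR.le
      rw [hk'']
      exact count_good c0 c1 B δ c ε η n0 n k' κ hn0 hasym hkκ (fun j => Y j ω) A2 A3 hA2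
        (fun p hp => hp) (c2.trans w2.le) (c3.trans w3.le))
    refine main.trans ?_
    calc _ ≤ (ρ/3 + ρ/3) + ρ/3 :=
          add_le_add ((measure_union_le _ _).trans (add_le_add g2 g3)) (ENNReal.ofReal_toReal hρ3t).le
      _ = ρ := ENNReal.add_thirds ρ

end
end Pool.Agent.H704R3
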