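import Mathlib
import Pool.Agent.H704R3.RealCase

set_option autoImplicit false
set_option linter.unusedVariables false

namespace Pool.Agent.H704R3.B
open Finset Filter Topology MeasureTheory ProbabilityTheory Pool.Agent.H704R3

/-- Newton's identities -/
def TNewton : Prop := ∀ (n : ℕ) (v : ℕ → ℂ) (k : ℕ),
  (k:ℂ) * es (range n) k v =
    ∑ j ∈ range k, (-1)^j * (∑ i ∈ range n, v i ^ (j+1)) * es (range n) (k-1-j) v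

/-- splitting the variables into a first block and the rest -/
def TSplit : Prop := ∀ (N m k : ℕ) (v : ℕ → ℂ),
  es (range (N+m)) k v =
    ∑ j ∈ range (k+1), es (range N) j v * es (range m) (k-j) (fun i => v (N+i))

/-- deterministic window lemma -/
def TWindow : Prop := ∀ (e Q : ℕ → ℂ) (n p : ℕ) (M c lam τ κ : ℝ),
  1 ≤ p → 0 < n → 1 ≤ M → 0 < c → 0 ≤ τ → 0 ≤ κ → 2 * M ≤ lam → 4 * M^(p+1) ≤ c * lam →
  (κ + τ * p) * lam^p < c/2 →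
  e 0 = 1 →
  (∀ k : ℕ, (k:ℂ) * e k = ∑ j ∈ range k, (-1)^j * Q (j+1) * e (k-1-j)) →
  c * n ≤ ‖Q p‖ → (∀ j, 1 ≤ j → j < p → ‖Q j‖ ≤ τ * n) → (∀ j, ‖Q j‖ ≤ n * M^j) →
  ∀ k : ℕ, (k:ℝ) ≤ κ * n → ∃ j1 < p, j1 ≤ k ∧ ∀ j ≤ k, ‖e (k-j)‖ * lam^j ≤ lam^j1 * ‖e (k-j1)‖

/-- exchangeability -/
def TExch : Prop := ∀ (Ω : Type) [MeasurableSpace Ω] (P : Measure Ω) [IsProbabilityMeasure P]
  (Y : ℕ → Ω → ℂ), (∀ i, Measurable (Y i)) → iIndepFun Y P → (∀ i, IdentDistrib (Y i) (Y 0) P P) →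
  ∀ (φ : ℕ → ℕ), Function.Injective φ → ∀ S : Set (ℕ → ℂ), MeasurableSet S →
    P {ω | (fun i => Y (φ i) ω) ∈ S} = P {ω | (fun i => Y i ω) ∈ S}

/-- section bound, disjoint blocks of variables -/
def TSection : Prop := ∀ (Ω : Type) [MeasurableSpace Ω] (P : Measure Ω) [IsProbabilityMeasure P]
  (Y : ℕ → Ω → ℂ), (∀ i, Measurable (Y i)) → iIndepFun Y P →
  ∀ (A B : Finset ℕ), Disjoint A B →
  ∀ (f g : (ℕ → ℂ) → (ℕ → ℂ)), Measurable f → Measurable g →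
    (∀ v w : ℕ → ℂ, (∀ i ∈ A, v i = w i) → f v = f w) →
    (∀ v w : ℕ → ℂ, (∀ i ∈ B, v i = w i) → g v = g w) →
  ∀ (S : Set ((ℕ → ℂ) × (ℕ → ℂ))), MeasurableSet S → ∀ (η : ENNReal),
    (∀ x : ℕ → ℂ, P {ω | (x, g (fun i => Y i ω)) ∈ S} ≤ η) →
    P {ω | (f (fun i => Y i ω), g (fun i => Y i ω)) ∈ S} ≤ η

/-- pigeonhole for events -/
def TPigeon : Prop := ∀ (Ω : Type) [MeasurableSpace Ω] (P : Measure Ω) [IsProbabilityMeasure P]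
  (m : ℕ) (A : ℕ → Set Ω) (x q : ENNReal), 0 < m → (∀ i < m, MeasurableSet (A i)) →
  (∀ i < m, P (A i) = x) → (∀ i < m, ∀ j < m, i ≠ j → P (A i ∩ A j) ≤ q) →
  x ≤ 1 / (m : ENNReal) + (m : ENNReal) * q

/-- degree one -/
def TOne : Prop := ∀ (Ω : Type) [MeasurableSpace Ω] (P : Measure Ω) [IsProbabilityMeasure P]
  (Y : ℕ → Ω → ℂ), (∀ i, Measurable (Y i)) → iIndepFun Y P → (∀ i, IdentDistrib (Y i) (Y 0) P P) →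
  (¬ ∃ c : ℂ, ∀ᵐ ω ∂P, Y 0 ω = c) → ∀ η : ENNReal, 0 < η →
  ∃ N : ℕ, ∃ s : ℝ, 0 < s ∧ P {ω | ‖∑ i ∈ range N, (Y (2*i) ω - Y (2*i+1) ω)‖ < s} ≤ η

/-- small ball estimate for symmetric polynomials of fixed degree -/
def TLO : Prop := ∀ (Ω : Type) [MeasurableSpace Ω] (P : Measure Ω) [IsProbabilityMeasure P]
  (Y : ℕ → Ω → ℂ), (∀ i, Measurable (Y i)) → iIndepFun Y P → (∀ i, IdentDistrib (Y i) (Y 0) P P) →
  (¬ ∃ c : ℂ, ∀ᵐ ω ∂P, Y 0 ω = c) → ∀ (d : ℕ) (η : ENNReal), 0 < η →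
  ∃ N0 : ℕ, ∀ N ≥ N0, ∃ δ : ℝ, 0 < δ ∧ ∀ a : ℕ → ℂ, 1 ≤ ‖a d‖ →
    P {ω | ‖∑ j ∈ range (d+1), a j * es (range N) j (fun i => Y i ω)‖ ≤ δ} ≤ η

/-- law of large numbers for the power sums -/
def TLLN : Prop := ∀ (Ω : Type) [MeasurableSpace Ω] (P : Measure Ω) [IsProbabilityMeasure P]
  (Y : ℕ → Ω → ℂ), (∀ i, Measurable (Y i)) → iIndepFun Y P → (∀ i, IdentDistrib (Y i) (Y 0) P P) →
  ∀ (M : ℝ), (∀ᵐ ω ∂P, ‖Y 0 ω‖ ≤ M) → ∀ (p : ℕ) (c τ : ℝ),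
  c < ‖∫ ω, (Y 0 ω)^p ∂P‖ → 0 < τ → (∀ j, 1 ≤ j → j < p → ∫ ω, (Y 0 ω)^j ∂P = 0) →
  Tendsto (fun n : ℕ => P {ω | ¬ (c * n ≤ ‖∑ i ∈ range n, (Y i ω)^p‖ ∧
    ∀ j, 1 ≤ j → j < p → ‖∑ i ∈ range n, (Y i ω)^j‖ ≤ τ * n)}) atTop (𝓝 0)

/-- the step of the induction for `TLO` -/
def TLOStep : Prop := TSplit → TExch → TSection → TPigeon → TOne → TLO

end Pool.Agent.H704R3.B
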