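import Mathlib
import Pool.Agent.H704R3.BStmts

set_option autoImplicit false

namespace Pool.Agent.H704R3.B
open Finset Filter Topology MeasureTheory ProbabilityTheory Pool.Agent.H704R3

/-- exchangeability -/
theorem texch : TExch := by
  intro Ω _ P _ Y hm hind hid φ hφ S hS
  have h1 : iIndepFun (fun i => Y (φ i)) P := hind.precomp hφ
  have h2 : IdentDistrib (fun ω => (fun i => Y (φ i) ω)) (fun ω => (fun i => Y i ω)) P P :=
    IdentDistrib.pi (fun i => (hid _).trans (hid _).symm) h1 hind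
  exact h2.measure_mem_eq hS

theorem bexch_bonf {Ω : Type} [MeasurableSpace Ω] (P : Measure Ω) (A : ℕ → Set Ω) (m : ℕ)
    (hA : ∀ i < m, MeasurableSet (A i)) :
    ∑ i ∈ range m, P (A i) ≤ P (⋃ i ∈ range m, A i) +
      ∑ i ∈ range m, ∑ j ∈ range i, P (A i ∩ A j) := by
  induction m with
  | zero => simp
  | succ m ih =>
    have ih' := ih fun i hi => hA i (by omega)
    rw [sum_range_succ, sum_range_succ]
    have hU : (⋃ i ∈ range (m + 1), A i) = (⋃ i ∈ range m, A i) ∪ A m := by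
      rw [range_add_one, set_biUnion_insert, Set.union_comm]
    have h1 : P ((⋃ i ∈ range m, A i) ∪ A m) + P ((⋃ i ∈ range m, A i) ∩ A m) =
        P (⋃ i ∈ range m, A i) + P (A m) :=
      measure_union_add_inter _ (hA m (by omega))
    have h2 : P ((⋃ i ∈ range m, A i) ∩ A m) ≤ ∑ j ∈ range m, P (A m ∩ A j) := by
      refine le_trans (measure_mono ?_) (measure_biUnion_finset_le (range m) fun j => A m ∩ A j)
      intro w hw
      obtain ⟨h3, h4⟩ := hw
      simp only [Set.mem_iUnion] at h3 ⊢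
      obtain ⟨j, hj, h5⟩ := h3
      exact ⟨j, hj, h4, h5⟩
    rw [hU]
    calc ∑ i ∈ range m, P (A i) + P (A m)
        ≤ P (⋃ i ∈ range m, A i) + ∑ i ∈ range m, ∑ j ∈ range i, P (A i ∩ A j) + P (A m) :=
          add_le_add_left ih' _
      _ = (P (⋃ i ∈ range m, A i) + P (A m)) +
          ∑ i ∈ range m, ∑ j ∈ range i, P (A i ∩ A j) := by ring
      _ = P ((⋃ i ∈ range m, A i) ∪ A m) + P ((⋃ i ∈ range m, A i) ∩ A m) +
          ∑ i ∈ range m, ∑ j ∈ range i, P (A i ∩ A j) := by rw [h1]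
      _ ≤ P ((⋃ i ∈ range m, A i) ∪ A m) + ∑ j ∈ range m, P (A m ∩ A j) +
          ∑ i ∈ range m, ∑ j ∈ range i, P (A i ∩ A j) := by gcongr
      _ = P ((⋃ i ∈ range m, A i) ∪ A m) +
          (∑ i ∈ range m, ∑ j ∈ range i, P (A i ∩ A j) + ∑ j ∈ range m, P (A m ∩ A j)) := by
          ring

/-- pigeonhole for events -/
theorem tpigeon : TPigeon := by
  intro Ω _ P _ m A x q hm hA hx hq
  have h1 := bexch_bonf P A m hA
  have h2 : ∑ i ∈ range m, P (A i) = (m : ENNReal) * x := by
    rw [sum_congr rfl fun i hi => hx i (mem_range.1 hi), sum_const, card_range, nsmul_eq_mul]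
  have h3 : ∑ i ∈ range m, ∑ j ∈ range i, P (A i ∩ A j) ≤ (m : ENNReal) * (m * q) := by
    calc ∑ i ∈ range m, ∑ j ∈ range i, P (A i ∩ A j)
        ≤ ∑ i ∈ range m, ∑ _j ∈ range m, q := by
          refine sum_le_sum fun i hi => ?_
          have hi' := mem_range.1 hi
          calc ∑ j ∈ range i, P (A i ∩ A j) ≤ ∑ _j ∈ range i, q :=
                sum_le_sum fun j hj => hq i hi' j (lt_trans (mem_range.1 hj) hi')
                  (ne_of_gt (mem_range.1 hj))
            _ ≤ ∑ _j ∈ range m, q :=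
                sum_le_sum_of_subset (range_subset_range.2 hi'.le)
      _ = (m : ENNReal) * (m * q) := by
          simp only [sum_const, card_range, nsmul_eq_mul]
  have h4 : (m : ENNReal) * x ≤ 1 + (m : ENNReal) * (m * q) := by
    rw [← h2]
    exact h1.trans (add_le_add prob_le_one h3)
  have hm0 : (m : ENNReal) ≠ 0 := by exact_mod_cast hm.ne'
  have hmt : (m : ENNReal) ≠ ⊤ := ENNReal.natCast_ne_top m
  have hc : (m : ENNReal)⁻¹ * m = 1 := ENNReal.inv_mul_cancel hm0 hmt
  calc x = (m : ENNReal)⁻¹ * (m * x) := by rw [← mul_assoc, hc, one_mul]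
    _ ≤ (m : ENNReal)⁻¹ * (1 + (m : ENNReal) * (m * q)) := mul_le_mul_right h4 _
    _ = 1 / (m : ENNReal) + (m : ENNReal) * q := by
        rw [mul_add, mul_one, ← mul_assoc, hc, one_mul, one_div]

end Pool.Agent.H704R3.B
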