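import Mathlib
import Pool.Agent.H704R3.BStmts

set_option autoImplicit false
set_option linter.unusedVariables false
set_option linter.unusedSectionVars false

namespace Pool.Agent.H704R3.B
open Finset Filter Topology MeasureTheory ProbabilityTheory Pool.Agent.H704R3

lemma esc_measurable (n k : ℕ) : Measurable (fun v : ℕ → ℂ => es (range n) k v) := by
  unfold es
  apply Finset.measurable_sum
  intro T _
  apply Finset.measurable_prod
  intro i _
  exact measurable_pi_apply i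

lemma es_congrR (n k : ℕ) (v w : ℕ → ℂ) (h : ∀ i < n, v i = w i) :
    es (range n) k v = es (range n) k w := by
  unfold es
  apply sum_congr rfl
  intro T hT
  apply prod_congr rfl
  intro i hi
  exact h i (mem_range.mp ((mem_powersetCard.mp hT).1 hi))

lemma es_norm_le (N j : ℕ) (M : ℝ) (v : ℕ → ℂ) (h : ∀ i, ‖v i‖ ≤ M) :
    ‖es (range N) j v‖ ≤ (N.choose j : ℝ) * M^j := by
  unfold es
  refine (norm_sum_le _ _).trans ?_
  have : ∀ T ∈ powersetCard j (range N), ‖∏ i ∈ T, v i‖ ≤ M^j := by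
    intro T hT
    rw [norm_prod]
    calc ∏ i ∈ T, ‖v i‖ ≤ ∏ i ∈ T, M := prod_le_prod (fun i _ => norm_nonneg _) (fun i _ => h i)
      _ = M^j := by rw [prod_const, (mem_powersetCard.mp hT).2]
  refine (sum_le_sum this).trans (le_of_eq ?_)
  rw [sum_const, card_powersetCard, card_range, nsmul_eq_mul]

lemma sum_choose_le (N K : ℕ) (M : ℝ) (hM : 0 ≤ M) :
    ∑ j ∈ range (K+1), (N.choose j : ℝ) * M^j ≤ (1+M)^N := by
  have h1 : (1+M)^N = ∑ j ∈ range (N+1), (N.choose j : ℝ) * M^j := by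
    rw [add_comm, add_pow]
    apply sum_congr rfl
    intro j _
    rw [one_pow]; ring
  have h2 : ∑ j ∈ range (K+1), (N.choose j : ℝ) * M^j =
      ∑ j ∈ (range (K+1)).filter (fun j => j ≤ N), (N.choose j : ℝ) * M^j := by
    rw [sum_filter]
    apply sum_congr rfl
    intro j _
    split_ifs with h
    · rfl
    · rw [Nat.choose_eq_zero_of_lt (by omega)]; simp
  rw [h1, h2]
  apply sum_le_sum_of_subset_of_nonneg
  · intro j hj
    rw [mem_filter] at hj
    exact mem_range.mpr (by omega)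
  · intro j _ _
    positivity

/-- tail estimate -/
lemma tail_bound (N K d : ℕ) (M lam δ : ℝ) (hM : 1 ≤ M) (hlam : 2 * M ≤ lam)
    (hδ : (1+M)^N ≤ lam * (δ/2)) (hδ0 : 0 < δ) (x v : ℕ → ℂ) (hv : ∀ i, ‖v i‖ ≤ M) (hd : d ≤ K)
    (h1 : ∀ j ≤ K, ‖x j‖ * lam^j ≤ lam^d * ‖x d‖) (h2 : 1 ≤ ‖x d‖)
    (h3 : ‖∑ j ∈ range (K+1), es (range N) j v * x j‖ ≤ δ/2) :
    ‖∑ j ∈ range (d+1), (x j / (‖x d‖:ℂ)) * es (range N) j v‖ ≤ δ := by
  have hX : 0 < ‖x d‖ := by linarith
  have hXc : ((‖x d‖:ℝ):ℂ) ≠ 0 := by exact_mod_cast hX.ne'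
  have hlam0 : 0 < lam := by linarith
  have hlam1 : 1 ≤ lam := by linarith
  have e1 : ∑ j ∈ range (d+1), (x j / (‖x d‖:ℂ)) * es (range N) j v =
      (∑ j ∈ range (K+1), es (range N) j v * x j) / (‖x d‖:ℂ) -
      ∑ j ∈ range (K+1) \ range (d+1), (x j / (‖x d‖:ℂ)) * es (range N) j v := by
    have hsub : range (d+1) ⊆ range (K+1) := range_subset_range.mpr (by omega)
    rw [eq_sub_iff_add_eq, add_comm, sum_sdiff hsub, sum_div]
    apply sum_congr rfl
    intro j _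
    ring
  rw [e1]
  have e2 : ‖(∑ j ∈ range (K+1), es (range N) j v * x j) / (‖x d‖:ℂ)‖ ≤ δ/2 := by
    rw [norm_div, Complex.norm_real, norm_norm]
    rw [div_le_iff₀ hX]
    nlinarith
  have e3 : ‖∑ j ∈ range (K+1) \ range (d+1), (x j / (‖x d‖:ℂ)) * es (range N) j v‖ ≤ δ/2 := by
    refine (norm_sum_le _ _).trans ?_
    have e4 : ∀ j ∈ range (K+1) \ range (d+1), ‖(x j / (‖x d‖:ℂ)) * es (range N) j v‖ ≤
        lam⁻¹ * ((N.choose j : ℝ) * M^j) := by
      intro j hj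
      have hj' := Finset.mem_sdiff.mp hj
      rw [mem_range, mem_range] at hj'
      have hjK : j ≤ K := by omega
      have hjd : d + 1 ≤ j := by omega
      rw [norm_mul, norm_div, Complex.norm_real, norm_norm]
      have e5 : ‖x j‖ / ‖x d‖ ≤ lam⁻¹ := by
        rw [div_le_iff₀ hX, inv_mul_eq_div, le_div_iff₀ hlam0]
        have e6 := h1 j hjK
        have e7 : lam^(d+1) ≤ lam^j := pow_le_pow_right₀ hlam1 hjd
        have e8 : 0 < lam^d := by positivity
        have e9 : ‖x j‖ * lam^(d+1) ≤ lam^d * ‖x d‖ :=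
          (mul_le_mul_of_nonneg_left e7 (norm_nonneg _)).trans e6
        rw [pow_succ] at e9
        have e10 : lam^d * (‖x j‖ * lam) ≤ lam^d * ‖x d‖ := by linarith
        exact le_of_mul_le_mul_left e10 e8
      exact mul_le_mul e5 (es_norm_le N j M v hv) (norm_nonneg _) (by positivity)
    refine (sum_le_sum e4).trans ?_
    rw [← mul_sum]
    have e11 : ∑ j ∈ range (K+1) \ range (d+1), (N.choose j : ℝ) * M^j ≤ (1+M)^N := by
      refine le_trans ?_ (sum_choose_le N K M (by linarith))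
      apply sum_le_sum_of_subset_of_nonneg sdiff_subset
      intro j _ _
      positivity
    rw [inv_mul_eq_div, div_le_iff₀ hlam0]
    linarith
  calc _ ≤ _ := norm_sub_le _ _
    _ ≤ δ := by linarith


/-- the set used for a given window index -/
def SS (K d : ℕ) (lam δ : ℝ) : Set ((ℕ → ℂ) × (ℕ → ℂ)) :=
  {q | (∀ j : ℕ, j ≤ K → ‖q.1 j‖ * lam^j ≤ lam^d * ‖q.1 d‖) ∧ 1 ≤ ‖q.1 d‖ ∧
    ‖∑ j ∈ range (K+1), q.2 j * q.1 j‖ ≤ δ/2}

lemma SS_meas (K d : ℕ) (lam δ : ℝ) : MeasurableSet (SS K d lam δ) := by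
  have m1 : ∀ j : ℕ, Measurable (fun q : (ℕ → ℂ) × (ℕ → ℂ) => q.1 j) :=
    fun j => (measurable_pi_apply j).comp measurable_fst
  have m2 : ∀ j : ℕ, Measurable (fun q : (ℕ → ℂ) × (ℕ → ℂ) => q.2 j) :=
    fun j => (measurable_pi_apply j).comp measurable_snd
  have a1 : MeasurableSet {q : (ℕ → ℂ) × (ℕ → ℂ) | ∀ j : ℕ, j ≤ K → ‖q.1 j‖ * lam^j ≤ lam^d * ‖q.1 d‖} := by
    have : {q : (ℕ → ℂ) × (ℕ → ℂ) | ∀ j : ℕ, j ≤ K → ‖q.1 j‖ * lam^j ≤ lam^d * ‖q.1 d‖} =
        ⋂ j : ℕ, ⋂ _ : j ≤ K, {q : (ℕ → ℂ) × (ℕ → ℂ) | ‖q.1 j‖ * lam^j ≤ lam^d * ‖q.1 d‖} := by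
      ext q; simp
    rw [this]
    apply MeasurableSet.iInter
    intro j
    apply MeasurableSet.iInter
    intro _
    exact measurableSet_le ((m1 j).norm.mul_const _) ((m1 d).norm.const_mul _)
  have a2 : MeasurableSet {q : (ℕ → ℂ) × (ℕ → ℂ) | 1 ≤ ‖q.1 d‖} :=
    measurableSet_le measurable_const (m1 d).norm
  have a3 : MeasurableSet {q : (ℕ → ℂ) × (ℕ → ℂ) | ‖∑ j ∈ range (K+1), q.2 j * q.1 j‖ ≤ δ/2} :=
    measurableSet_le (Finset.measurable_sum _ (fun j _ => (m2 j).mul (m1 j))).norm measurable_const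
  exact a1.inter (a2.inter a3)

/-- coefficients coming from the rest -/
def ff (N m K : ℕ) (v : ℕ → ℂ) : ℕ → ℂ :=
  fun j => if j ≤ K then es (range m) (K-j) (fun i => v (N+i)) else 0

/-- coefficients coming from the first block -/
def gg (N : ℕ) (v : ℕ → ℂ) : ℕ → ℂ := fun j => es (range N) j v

lemma ff_meas (N m K : ℕ) : Measurable (ff N m K) := by
  apply measurable_pi_lambda
  intro j
  unfold ff
  by_cases h : j ≤ K
  · simp only [h, if_true]
    exact (esc_measurable m (K-j)).comp (measurable_pi_lambda _ (fun i => measurable_pi_apply _))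
  · simp only [h, if_false]
    exact measurable_const

lemma gg_meas (N : ℕ) : Measurable (gg N) :=
  measurable_pi_lambda _ (fun j => esc_measurable N j)

section
variable (hSec : TSection)
include hSec

/-- bound for one window index -/
lemma one_index (Ω : Type) [MeasurableSpace Ω] (P : Measure Ω) [IsProbabilityMeasure P]
    (Y : ℕ → Ω → ℂ) (hm : ∀ i, Measurable (Y i)) (hind : iIndepFun Y P)
    (N m K d : ℕ) (M lam δ : ℝ) (hM : 1 ≤ M) (hlam : 2 * M ≤ lam)
    (hδ : (1+M)^N ≤ lam * (δ/2)) (hδ0 : 0 < δ) (hb : ∀ᵐ ω ∂P, ∀ i, ‖Y i ω‖ ≤ M) (hd : d ≤ K)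
    (η : ENNReal)
    (hLO : ∀ a : ℕ → ℂ, 1 ≤ ‖a d‖ →
      P {ω | ‖∑ j ∈ range (d+1), a j * es (range N) j (fun i => Y i ω)‖ ≤ δ} ≤ η) :
    P {ω | (ff N m K (fun i => Y i ω), gg N (fun i => Y i ω)) ∈ SS K d lam δ} ≤ η := by
  have hdisj : Disjoint (Finset.Ico N (N+m)) (range N) := by
    rw [Finset.disjoint_left]
    intro i hi hi'
    rw [Finset.mem_Ico] at hi
    rw [Finset.mem_range] at hi'
    omega
  refine hSec Ω P Y hm hind (Finset.Ico N (N+m)) (range N) hdisj (ff N m K) (gg N)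
    (ff_meas N m K) (gg_meas N) ?_ ?_ (SS K d lam δ) (SS_meas K d lam δ) η ?_
  · intro v w h
    funext j
    unfold ff
    split_ifs
    · apply es_congrR
      intro i hi
      exact h (N+i) (Finset.mem_Ico.mpr (by omega))
    · rfl
  · intro v w h
    funext j
    unfold gg
    apply es_congrR
    intro i hi
    exact h i (mem_range.mpr hi)
  · intro x
    by_cases hx : (∀ j : ℕ, j ≤ K → ‖x j‖ * lam^j ≤ lam^d * ‖x d‖) ∧ 1 ≤ ‖x d‖
    · obtain ⟨h1, h2⟩ := hx
      have hX : 0 < ‖x d‖ := by linarith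
      refine le_trans ?_ (hLO (fun j => x j / (‖x d‖:ℂ)) (by
        show 1 ≤ ‖x d / (‖x d‖:ℂ)‖
        rw [norm_div, Complex.norm_real, norm_norm, div_self hX.ne']))
      apply measure_mono_ae
      filter_upwards [hb] with ω hω hmem
      obtain ⟨-, -, h3⟩ := hmem
      exact tail_bound N K d M lam δ hM hlam hδ hδ0 x (fun i => Y i ω) hω hd h1 h2 h3
    · have : {ω | (x, gg N (fun i => Y i ω)) ∈ SS K d lam δ} = ∅ := by
        rw [Set.eq_empty_iff_forall_notMem]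
        intro ω hω
        exact hx ⟨hω.1, hω.2.1⟩
      rw [this]
      simp

end

end Pool.Agent.H704R3.B
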