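import Pool.Agent.H704R3.BStmts

set_option autoImplicit false
set_option linter.unusedVariables false

namespace Pool.Agent.H704R3.B
open Finset Filter Topology MeasureTheory ProbabilityTheory Pool.Agent.H704R3

/-- law of large numbers for the power sums -/
theorem tlln : TLLN := by
  intro Ω _ P _ Y hm hind hid M hM p c τ hc hτ h0
  have hM' : ∀ i, ∀ᵐ ω ∂P, ‖Y i ω‖ ≤ M := by
    intro i
    have h := (hid i).symm.ae_snd (p := fun z : ℂ => ‖z‖ ≤ M)
      (measurableSet_le measurable_norm measurable_const) hM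
    exact h
  have key : ∀ j : ℕ, ∀ ρ : ℝ, 0 < ρ → Tendsto (fun n : ℕ =>
      P {ω | ρ ≤ ‖(n : ℝ)⁻¹ • (∑ i ∈ range n, (Y i ω) ^ j) - ∫ ω, (Y 0 ω) ^ j ∂P‖})
      atTop (𝓝 0) := by
    intro j ρ hρ
    have hXm : ∀ i, Measurable (fun ω => (Y i ω) ^ j) := fun i => (hm i).pow_const j
    have hint : Integrable (fun ω => (Y 0 ω) ^ j) P := by
      refine Integrable.of_bound (hXm 0).aestronglyMeasurable (|M| ^ j) ?_
      filter_upwards [hM] with ω hω
      rw [norm_pow]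
      exact pow_le_pow_left₀ (norm_nonneg _) (hω.trans (le_abs_self M)) j
    have hpm : Measurable (fun z : ℂ => z ^ j) := measurable_id.pow_const j
    have hindep : Pairwise (Function.onFun (IndepFun · · P) (fun i ω => (Y i ω) ^ j)) := by
      intro a b hab
      exact (hind.indepFun hab).comp hpm hpm
    have hident : ∀ i, IdentDistrib (fun ω => (Y i ω) ^ j) (fun ω => (Y 0 ω) ^ j) P P := by
      intro i
      exact (hid i).comp hpm
    have hslln := strong_law_ae (μ := P) (fun i ω => (Y i ω) ^ j) hint hindep hident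
    have hmeas : TendstoInMeasure P
        (fun n : ℕ => fun ω => (n : ℝ)⁻¹ • (∑ i ∈ range n, (Y i ω) ^ j)) atTop
        (fun _ => ∫ ω, (Y 0 ω) ^ j ∂P) := by
      apply tendstoInMeasure_of_tendsto_ae _ hslln
      intro n
      exact ((Finset.measurable_sum _ (fun i _ => hXm i)).const_smul _).aestronglyMeasurable
    rw [tendstoInMeasure_iff_norm] at hmeas
    exact hmeas ρ hρ
  set ρ : ℝ := min τ (‖∫ ω, (Y 0 ω) ^ p ∂P‖ - c) with hρ
  have hρ0 : 0 < ρ := lt_min hτ (sub_pos.mpr hc)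
  have hsum : Tendsto (fun n : ℕ => ∑ j ∈ range (p + 1),
      P {ω | ρ ≤ ‖(n : ℝ)⁻¹ • (∑ i ∈ range n, (Y i ω) ^ j) - ∫ ω, (Y 0 ω) ^ j ∂P‖})
      atTop (𝓝 0) := by
    have h := tendsto_finset_sum (range (p + 1)) (fun j _ => key j ρ hρ0)
    simpa using h
  refine tendsto_of_tendsto_of_tendsto_of_le_of_le' tendsto_const_nhds hsum
    (Eventually.of_forall fun _ => zero_le) ?_
  filter_upwards [eventually_gt_atTop 0] with n hn
  have hnR : (0 : ℝ) < n := by exact_mod_cast hn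
  refine le_trans (measure_mono ?_) (measure_biUnion_finset_le (range (p + 1)) _)
  intro ω hω
  by_contra hcon
  apply hω
  have hall : ∀ j ∈ range (p + 1),
      ‖(n : ℝ)⁻¹ • (∑ i ∈ range n, (Y i ω) ^ j) - ∫ ω, (Y 0 ω) ^ j ∂P‖ < ρ := by
    intro j hj
    by_contra hlt
    push Not at hlt
    exact hcon (Set.mem_biUnion (Finset.mem_coe.mpr hj) hlt)
  have hnorm : ∀ z : ℂ, ‖(n : ℝ)⁻¹ • z‖ = ‖z‖ / n := by
    intro z
    rw [norm_smul, norm_inv, Real.norm_eq_abs, abs_of_pos hnR, div_eq_inv_mul]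
  constructor
  · have h1 := hall p (by simp)
    have h2 : ‖∫ ω, (Y 0 ω) ^ p ∂P‖ - ‖(n : ℝ)⁻¹ • (∑ i ∈ range n, (Y i ω) ^ p)‖ ≤
        ‖(n : ℝ)⁻¹ • (∑ i ∈ range n, (Y i ω) ^ p) - ∫ ω, (Y 0 ω) ^ p ∂P‖ := by
      rw [norm_sub_rev]
      exact norm_sub_norm_le _ _
    have h3 : ρ ≤ ‖∫ ω, (Y 0 ω) ^ p ∂P‖ - c := min_le_right _ _
    rw [hnorm] at h2
    have h4 : c < ‖∑ i ∈ range n, (Y i ω) ^ p‖ / n := by linarith
    rw [lt_div_iff₀ hnR] at h4
    exact h4.le
  · intro j hj1 hjp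
    have h1 := hall j (by simp; omega)
    rw [h0 j hj1 hjp, sub_zero, hnorm, div_lt_iff₀ hnR] at h1
    have h3 : ρ ≤ τ := min_le_left _ _
    exact h1.le.trans (mul_le_mul_of_nonneg_right h3 hnR.le)

end Pool.Agent.H704R3.B
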