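import Mathlib
import Pool.Agent.H704R3.BStmts

set_option autoImplicit false
set_option linter.unusedVariables false

namespace Pool.Agent.H704R3.B
open Finset Filter Topology MeasureTheory ProbabilityTheory Pool.Agent.H704R3

namespace LO

theorem es_meas (S : Finset ℕ) (k : ℕ) : Measurable fun v : ℕ → ℂ => es S k v := by
  unfold es
  refine Finset.measurable_fun_sum _ fun T _ => ?_
  refine Finset.measurable_fun_prod _ fun i _ => ?_
  exact measurable_pi_apply i

theorem es_congr' (S : Finset ℕ) (k : ℕ) (v w : ℕ → ℂ) (h : ∀ i ∈ S, v i = w i) :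
    es S k v = es S k w := by
  unfold es
  refine Finset.sum_congr rfl fun T hT => ?_
  refine Finset.prod_congr rfl fun i hi => ?_
  exact h i ((Finset.mem_powersetCard.1 hT).1 hi)

theorem es_one' (S : Finset ℕ) (v : ℕ → ℂ) : es S 1 v = ∑ i ∈ S, v i := by
  unfold es
  simp [Finset.powersetCard_one]

theorem es_z (S : Finset ℕ) (v : ℕ → ℂ) : es S 0 v = 1 := by
  simp [es]

/-- polynomial -/
noncomputable def FF (d N : ℕ) (a v : ℕ → ℂ) : ℂ := ∑ j ∈ range (d+1), a j * es (range N) j v

theorem FF_meas (d N : ℕ) (a : ℕ → ℂ) : Measurable (FF d N a) := by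
  unfold FF
  exact Finset.measurable_fun_sum _ fun j _ => (es_meas _ _).const_mul _

/-- coefficients -/
noncomputable def cc (d N1 : ℕ) (a v w : ℕ → ℂ) (l : ℕ) : ℂ :=
  ∑ j ∈ range (d+2-l), a (l+j) * (es (range N1) j v - es (range N1) j w)

theorem cc_top (d N1 : ℕ) (a v w : ℕ → ℂ) :
    cc d N1 a v w d = a (d+1) * ∑ i ∈ range N1, (v i - w i) := by
  unfold cc
  rw [show d + 2 - d = 2 by omega, Finset.sum_range_succ, Finset.sum_range_succ]
  simp [es_z, es_one', Finset.sum_sub_distrib]

theorem FF_sub (hs : TSplit) (d N1 N2 : ℕ) (a v w : ℕ → ℂ) (h : ∀ k, v (N1+k) = w (N1+k)) :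
    FF (d+1) (N1+N2) a v - FF (d+1) (N1+N2) a w =
      ∑ l ∈ range (d+1), cc d N1 a v w l * es (range N2) l (fun k => v (N1+k)) := by
  have hw : (fun k => w (N1+k)) = fun k => v (N1+k) := by
    funext k; exact (h k).symm
  have e1 : FF (d+1) (N1+N2) a v - FF (d+1) (N1+N2) a w =
      ∑ k ∈ range (d+2), ∑ l ∈ range (k+1), (a (l+(k-l)) *
        (es (range N1) (k-l) v - es (range N1) (k-l) w) *
          es (range N2) l (fun k => v (N1+k))) := by
    unfold FF
    rw [← Finset.sum_sub_distrib]
    refine Finset.sum_congr rfl fun k _ => ?_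
    rw [hs, hs, ← mul_sub, ← Finset.sum_sub_distrib, Finset.mul_sum, ← Finset.sum_flip]
    refine Finset.sum_congr rfl fun l hl => ?_
    have hl' : l ≤ k := by
      have := Finset.mem_range.1 hl
      omega
    rw [show k - (k-l) = l by omega, show l + (k-l) = k by omega, hw]
    ring
  rw [e1, Finset.sum_range_diag_flip (d+2) (fun l j => a (l+j) *
    (es (range N1) j v - es (range N1) j w) * es (range N2) l (fun k => v (N1+k)))]
  rw [Finset.sum_range_succ]
  have e2 : ∑ j ∈ range (d+2-(d+1)), a (d+1+j) *
    (es (range N1) j v - es (range N1) j w) * es (range N2) (d+1) (fun k => v (N1+k)) = 0 := by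
    rw [show d+2-(d+1) = 1 by omega]
    simp [es_z]
  rw [e2, add_zero]
  refine Finset.sum_congr rfl fun l _ => ?_
  unfold cc
  rw [Finset.sum_mul]

/-- index maps -/
def pH7 (N1 m i l : ℕ) : ℕ := if l < N1 then l*m+i else N1*m+(l-N1)

theorem lt_blk {N1 m i l : ℕ} (hi : i < m) (hl : l < N1) : l*m+i < N1*m := by
  have := Nat.mul_le_mul_right m (show l+1 ≤ N1 from hl)
  rw [Nat.add_mul] at this
  omega

theorem blk_uniq {m q q' e e' : ℕ} (he : e < m) (he' : e' < m) (h : q*m+e = q'*m+e') :
    q = q' ∧ e = e' := by
  rcases lt_trichotomy q q' with h1 | h1 | h1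
  · have := Nat.mul_le_mul_right m (show q+1 ≤ q' from h1)
    rw [Nat.add_mul] at this
    omega
  · subst h1
    exact ⟨rfl, by omega⟩
  · have := Nat.mul_le_mul_right m (show q'+1 ≤ q from h1)
    rw [Nat.add_mul] at this
    omega

theorem pH7_inj {N1 m i : ℕ} (hi : i < m) : Function.Injective (pH7 N1 m i) := by
  intro l l' h
  unfold pH7 at h
  split_ifs at h with h1 h2 h2
  · exact (blk_uniq hi hi h).1
  · have := lt_blk hi h1
    omega
  · have := lt_blk hi h2
    omega
  · omega

/-- second index map -/
def pS7 (N1 m i j k : ℕ) : ℕ :=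
  if k < 2*N1 then (k/2)*m + (if k % 2 = 0 then i else j) else N1*m+k

theorem pS7_inj {N1 m i j : ℕ} (hi : i < m) (hj : j < m) (hij : i ≠ j) :
    Function.Injective (pS7 N1 m i j) := by
  intro k k' h
  unfold pS7 at h
  have b : ∀ k : ℕ, (if k % 2 = 0 then i else j) < m := by
    intro k; split_ifs <;> assumption
  split_ifs at h with h1 h2 h2 h3 h4 h3 h3 <;>
  first
  | (have := (blk_uniq (by assumption) (by assumption) h); omega)
  | (have := lt_blk (N1 := N1) (m := m) (i := i) (l := k/2) hi (by omega)
     have := lt_blk (N1 := N1) (m := m) (i := j) (l := k/2) hj (by omega)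
     omega)
  | (have := lt_blk (N1 := N1) (m := m) (i := i) (l := k'/2) hi (by omega)
     have := lt_blk (N1 := N1) (m := m) (i := j) (l := k'/2) hj (by omega)
     omega)
  | omega

end LO

open LO in
theorem tlostep : TLOStep := by
  intro hS hE hSec hP hO Ω _ P _ Y hYm hYi hYd hYn d
  induction d with
  | zero =>
    intro η hη
    refine ⟨0, fun N _ => ⟨1/2, by norm_num, fun a ha => ?_⟩⟩
    have : {ω | ‖∑ j ∈ range (0+1), a j * es (range N) j (fun i => Y i ω)‖ ≤ 1/2} = ∅ := by
      ext ω
      simp only [Finset.sum_range_succ, Finset.sum_range_zero, es_z, Set.mem_setOf_eq,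
        Set.mem_empty_iff_false, iff_false, not_le]
      simp
      linarith
    rw [this]
    simp
  | succ d ih =>
    intro η hη
    have hη2 : η/2 ≠ 0 := by
      simp [hη.ne']
    obtain ⟨m, hm⟩ := ENNReal.exists_nat_gt (r := (η/2)⁻¹) (ENNReal.inv_ne_top.2 hη2)
    have hm0 : 0 < m := by
      rcases Nat.eq_zero_or_pos m with h | h
      · subst h
        simp at hm
      · exact h
    have hm1 : 1/(m:ENNReal) ≤ η/2 := by
      rw [one_div, ENNReal.inv_le_iff_inv_le]
      exact hm.le
    have hmt : (m:ENNReal) ≠ ⊤ := ENNReal.natCast_ne_top m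
    have hmz : (m:ENNReal) ≠ 0 := by
      exact_mod_cast hm0.ne'
    obtain ⟨η1, hη1, hη1'⟩ : ∃ η1 : ENNReal, 0 < η1 ∧ (m:ENNReal) * (η1+η1) ≤ η/2 := by
      refine ⟨η/2/m/2, ?_, ?_⟩
      · simp [pos_iff_ne_zero, hη.ne', hmt, hmz]
      · rw [ENNReal.add_halves, ENNReal.mul_div_cancel hmz hmt]
    obtain ⟨N1, s, hs, hN1⟩ := hO Ω P Y hYm hYi hYd hYn η1 hη1
    obtain ⟨N0', hN0'⟩ := ih η1 hη1
    refine ⟨N1+N0', fun N hN => ?_⟩
    obtain ⟨N2, rfl⟩ : ∃ N2, N = N1+N2 := ⟨N-N1, by omega⟩
    obtain ⟨δ0, hδ0, hδ0'⟩ := hN0' N2 (by omega)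
    refine ⟨s*δ0/2, by positivity, fun a ha => ?_⟩
    have hFm := FF_meas (d+1) (N1+N2) a
    set SF : Set (ℕ → ℂ) := {v | ‖FF (d+1) (N1+N2) a v‖ ≤ s*δ0/2} with hSF
    have hSFm : MeasurableSet SF := measurableSet_le hFm.norm measurable_const
    have hgoal : {ω | ‖∑ j ∈ range (d+1+1), a j * es (range (N1+N2)) j (fun i => Y i ω)‖ ≤
        s*δ0/2} = {ω | (fun i => Y i ω) ∈ SF} := rfl
    rw [hgoal]
    have hYall : Measurable fun ω => (fun i => Y i ω : ℕ → ℂ) :=
      measurable_pi_lambda _ hYm
    have hx := hP Ω P m (fun i => {ω | (fun l => Y (pH7 N1 m i l) ω) ∈ SF})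
      (P {ω | (fun i => Y i ω) ∈ SF}) (η1+η1) hm0 ?_ ?_ ?_
    · refine hx.trans ?_
      calc 1/(m:ENNReal) + m*(η1+η1) ≤ η/2+η/2 := add_le_add hm1 hη1'
        _ = η := ENNReal.add_halves η
    · intro i _
      have : Measurable fun ω => (fun l => Y (pH7 N1 m i l) ω : ℕ → ℂ) :=
        measurable_pi_lambda _ fun l => hYm _
      exact this hSFm
    · intro i hi
      exact hE Ω P Y hYm hYi hYd (pH7 N1 m i) (pH7_inj hi) SF hSFm
    · intro i hi j hj hij
      -- the two bad events
      set T1 : Set (ℕ → ℂ) := {v | ‖∑ l ∈ range N1, (v (2*l) - v (2*l+1))‖ < s} with hT1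
      have hT1m : MeasurableSet T1 := by
        refine measurableSet_lt (Measurable.norm ?_) measurable_const
        exact Finset.measurable_fun_sum _ fun l _ =>
          (measurable_pi_apply _).sub (measurable_pi_apply _)
      have b1 : P {ω | (fun k => Y (pS7 N1 m i j k) ω) ∈ T1} ≤ η1 := by
        rw [hE Ω P Y hYm hYi hYd (pS7 N1 m i j) (pS7_inj hi hj hij) T1 hT1m]
        exact hN1
      set f : (ℕ → ℂ) → (ℕ → ℂ) := fun u l =>
        cc d N1 a (fun l' => u (pH7 N1 m i l')) (fun l' => u (pH7 N1 m j l')) l with hf
      set g : (ℕ → ℂ) → (ℕ → ℂ) := fun u k => if k < N2 then u (N1*m+k) else 0 with hg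
      set T2 : Set ((ℕ → ℂ) × (ℕ → ℂ)) :=
        {p | s ≤ ‖p.1 d‖ ∧ ‖∑ l ∈ range (d+1), p.1 l * es (range N2) l p.2‖ ≤ s*δ0} with hT2
      have hT2m : MeasurableSet T2 := by
        refine MeasurableSet.inter ?_ ?_
        · exact measurableSet_le measurable_const ((measurable_pi_apply d).comp measurable_fst).norm
        · refine measurableSet_le (Measurable.norm ?_) measurable_const
          refine Finset.measurable_fun_sum _ fun l _ => ?_
          exact ((measurable_pi_apply l).comp measurable_fst).mul
            ((es_meas _ _).comp measurable_snd)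
      have hfm : Measurable f := by
        refine measurable_pi_lambda _ fun l => ?_
        refine Finset.measurable_fun_sum _ fun j' _ => ?_
        refine Measurable.const_mul ?_ _
        refine Measurable.sub ?_ ?_
        · exact (es_meas _ _).comp (measurable_pi_lambda _ fun l' => measurable_pi_apply _)
        · exact (es_meas _ _).comp (measurable_pi_lambda _ fun l' => measurable_pi_apply _)
      have hgm : Measurable g := by
        refine measurable_pi_lambda _ fun k => ?_
        by_cases hk : k < N2
        · simp only [hg, hk, if_true]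
          exact measurable_pi_apply _
        · simp only [hg, hk, if_false]
          exact measurable_const
      have hgt : ∀ u : ℕ → ℂ, ∀ l, es (range N2) l (g u) =
          es (range N2) l (fun k => u (N1*m+k)) := by
        intro u l
        refine es_congr' _ _ _ _ fun k hk => ?_
        simp only [hg, Finset.mem_range.1 hk, if_true]
      have b2 : P {ω | (f (fun i => Y i ω), g (fun i => Y i ω)) ∈ T2} ≤ η1 := by
        refine hSec Ω P Y hYm hYi (range (N1*m)) (Ico (N1*m) (N1*m+N2)) ?_ f g hfm hgm ?_ ?_
          T2 hT2m η1 ?_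
        · rw [Finset.disjoint_left]
          intro x hx hx'
          rw [Finset.mem_range] at hx
          rw [Finset.mem_Ico] at hx'
          omega
        · intro v w hvw
          funext l
          have e : ∀ i < m, ∀ l' < N1, v (pH7 N1 m i l') = w (pH7 N1 m i l') := by
            intro i hi l' hl'
            refine hvw _ ?_
            rw [Finset.mem_range]
            unfold pH7
            rw [if_pos hl']
            exact lt_blk hi hl'
          simp only [hf]
          unfold cc
          refine Finset.sum_congr rfl fun j' _ => ?_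
          rw [es_congr' _ _ (fun l' => v (pH7 N1 m i l')) (fun l' => w (pH7 N1 m i l'))
            (fun l' hl' => e i hi l' (Finset.mem_range.1 hl')),
            es_congr' _ _ (fun l' => v (pH7 N1 m j l')) (fun l' => w (pH7 N1 m j l'))
            (fun l' hl' => e j hj l' (Finset.mem_range.1 hl'))]
        · intro v w hvw
          funext k
          simp only [hg]
          split_ifs with hk
          · refine hvw _ ?_
            rw [Finset.mem_Ico]
            omega
          · rfl
        · intro x
          by_cases hxd : s ≤ ‖x d‖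
          · have h1 := hδ0' (fun l => x l / s) (by
              rw [norm_div, Complex.norm_real, Real.norm_of_nonneg hs.le]
              rwa [le_div_iff₀ hs, one_mul])
            set T3 : Set (ℕ → ℂ) := {v | ‖∑ l ∈ range (d+1), x l / s * es (range N2) l v‖ ≤ δ0}
              with hT3
            have hT3m : MeasurableSet T3 := by
              refine measurableSet_le (Measurable.norm ?_) measurable_const
              exact Finset.measurable_fun_sum _ fun l _ => (es_meas _ _).const_mul _
            have h2 := hE Ω P Y hYm hYi hYd (fun k => N1*m+k) (fun k k' h => by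
              simpa using h) T3 hT3m
            have h3 : P {ω | (fun i => Y i ω) ∈ T3} ≤ η1 := h1
            rw [← h2] at h3
            refine (measure_mono ?_).trans h3
            intro ω hω
            have h4 := hω.2
            simp only [hT3, Set.mem_setOf_eq]
            have h5 : ∑ l ∈ range (d+1), x l / s * es (range N2) l (fun k => Y (N1*m+k) ω) =
                (∑ l ∈ range (d+1), x l * es (range N2) l (g (fun i => Y i ω))) / s := by
              rw [Finset.sum_div]
              refine Finset.sum_congr rfl fun l _ => ?_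
              refine Eq.trans (congrArg (fun z => x l / (s:ℂ) * z)
                (hgt (fun i => Y i ω) l).symm) ?_
              ring
            rw [h5, norm_div, Complex.norm_real, Real.norm_of_nonneg hs.le, div_le_iff₀ hs]
            linarith [h4]
          · have : {ω | (x, g (fun i => Y i ω)) ∈ T2} = ∅ := by
              ext ω
              simp only [hT2, Set.mem_setOf_eq, Set.mem_empty_iff_false, iff_false, not_and]
              intro h
              exact absurd h hxd
            rw [this]
            simp
      refine (measure_mono ?_).trans ((measure_union_le _ _).trans (add_le_add b1 b2))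
      intro ω hω
      by_cases hbad : (fun k => Y (pS7 N1 m i j k) ω) ∈ T1
      · exact Or.inl hbad
      · right
        set u : ℕ → ℂ := fun i => Y i ω with hu
        have hv : ‖FF (d+1) (N1+N2) a (fun l => u (pH7 N1 m i l))‖ ≤ s*δ0/2 := hω.1
        have hw : ‖FF (d+1) (N1+N2) a (fun l => u (pH7 N1 m j l))‖ ≤ s*δ0/2 := hω.2
        have hph : ∀ i k, pH7 N1 m i (N1+k) = N1*m+k := by
          intro i k
          unfold pH7
          rw [if_neg (by omega)]
          congr 1
          omega
        have hsub := FF_sub hS d N1 N2 a (fun l => u (pH7 N1 m i l)) (fun l => u (pH7 N1 m j l))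
          (fun k => by simp only [hph])
        have hbad' : s ≤ ‖∑ l ∈ range N1, (u (pH7 N1 m i l) - u (pH7 N1 m j l))‖ := by
          have h1 : s ≤ ‖∑ l ∈ range N1, (u (pS7 N1 m i j (2*l)) - u (pS7 N1 m i j (2*l+1)))‖ :=
            not_lt.1 hbad
          refine h1.trans (le_of_eq ?_)
          congr 1
          refine Finset.sum_congr rfl fun l hl => ?_
          have hl' := Finset.mem_range.1 hl
          have e1 : pS7 N1 m i j (2*l) = pH7 N1 m i l := by
            unfold pS7 pH7
            rw [if_pos (by omega), if_pos (by omega), if_pos hl']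
            congr 2
            omega
          have e2 : pS7 N1 m i j (2*l+1) = pH7 N1 m j l := by
            unfold pS7 pH7
            rw [if_pos (by omega), if_neg (by omega), if_pos hl']
            congr 2
            omega
          rw [e1, e2]
        refine ⟨?_, ?_⟩
        · change s ≤ ‖cc d N1 a (fun l' => u (pH7 N1 m i l')) (fun l' => u (pH7 N1 m j l')) d‖
          rw [cc_top, norm_mul]
          calc s = 1*s := (one_mul s).symm
            _ ≤ _ := mul_le_mul ha hbad' hs.le (norm_nonneg _)
        · change ‖∑ l ∈ range (d+1), cc d N1 a (fun l' => u (pH7 N1 m i l'))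
            (fun l' => u (pH7 N1 m j l')) l * es (range N2) l (g u)‖ ≤ s*δ0
          have e3 : ∑ l ∈ range (d+1), cc d N1 a (fun l' => u (pH7 N1 m i l'))
            (fun l' => u (pH7 N1 m j l')) l * es (range N2) l (g u) =
            FF (d+1) (N1+N2) a (fun l => u (pH7 N1 m i l)) -
              FF (d+1) (N1+N2) a (fun l => u (pH7 N1 m j l)) := by
            rw [hsub]
            refine Finset.sum_congr rfl fun l _ => ?_
            rw [hgt]
            simp only [hph]
          rw [e3]
          refine (norm_sub_le _ _).trans ?_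
          linarith

end Pool.Agent.H704R3.B
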