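import Mathlib
import Pool.Agent.H704R3.BFinal

set_option autoImplicit false
set_option linter.unusedVariables false
set_option linter.unusedSectionVars false

namespace Pool.Agent.H704R3.B
open Finset Filter Topology MeasureTheory ProbabilityTheory Pool.Agent.H704R3

theorem bounded_case (hNewton : TNewton) (hSplit : TSplit) (hWin : TWindow) (hSec : TSection)
    (hLO : TLO) (hLLN : TLLN)
    (Ω : Type) [MeasurableSpace Ω] (P : Measure Ω) [IsProbabilityMeasure P]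
    (Y : ℕ → Ω → ℂ) (hm : ∀ i, Measurable (Y i)) (hind : iIndepFun Y P)
    (hid : ∀ i, IdentDistrib (Y i) (Y 0) P P) (hnd : ¬ ∃ c : ℂ, ∀ᵐ ω ∂P, Y 0 ω = c)
    (M0 : ℝ) (hM0 : ∀ᵐ ω ∂P, ‖Y 0 ω‖ ≤ M0) (hmom : ∃ p : ℕ, 1 ≤ p ∧ ∫ ω, (Y 0 ω)^p ∂P ≠ 0)
    (k : ℕ → ℕ) (hk : Tendsto (fun n : ℕ => (k n : ℝ) / (n : ℝ)) atTop (𝓝 0)) (ε : ℝ) (hε : 0 < ε) :
    Tendsto (fun n : ℕ => P {ω | ‖es (range n) (k n) (fun i => Y i ω)‖ ≤ Real.exp (-(ε * n))})
      atTop (𝓝 0) := by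
  classical
  obtain ⟨p, ⟨hp1, hp⟩, hmin⟩ : ∃ p : ℕ, (1 ≤ p ∧ ∫ ω, (Y 0 ω)^p ∂P ≠ 0) ∧
      ∀ j, 1 ≤ j → j < p → ∫ ω, (Y 0 ω)^j ∂P = 0 := by
    refine ⟨Nat.find hmom, Nat.find_spec hmom, ?_⟩
    intro j hj1 hj2
    have := Nat.find_min hmom hj2
    push Not at this
    exact this hj1
  set M : ℝ := max M0 1 with hMdef
  have hM1 : 1 ≤ M := le_max_right _ _
  have hMb : ∀ᵐ ω ∂P, ‖Y 0 ω‖ ≤ M := by
    filter_upwards [hM0] with ω hω
    exact hω.trans (le_max_left _ _)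
  have hset : MeasurableSet {z : ℂ | ‖z‖ ≤ M} := measurableSet_le measurable_norm measurable_const
  have hMi : ∀ i, ∀ᵐ ω ∂P, ‖Y i ω‖ ≤ M := fun i =>
    (hid i).symm.ae_mem_snd hset hMb
  have hball : ∀ᵐ ω ∂P, ∀ i, ‖Y i ω‖ ≤ M := ae_all_iff.mpr hMi
  have hnp : 0 < ‖∫ ω, (Y 0 ω)^p ∂P‖ := norm_pos_iff.mpr hp
  set c : ℝ := ‖∫ ω, (Y 0 ω)^p ∂P‖ / 2 with hc
  have hc0 : 0 < c := by positivity
  rw [ENNReal.tendsto_nhds_zero]
  intro ρ hρ
  have hρ2 : 0 < ρ / 2 := ENNReal.half_pos hρ.ne'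
  have hpE : (p : ENNReal) ≠ 0 := by
    have : p ≠ 0 := by omega
    exact_mod_cast this
  have hpT : (p : ENNReal) ≠ ⊤ := ENNReal.natCast_ne_top p
  set η : ENNReal := ρ / 2 / p with hη
  have hη0 : 0 < η := ENNReal.div_pos hρ2.ne' hpT
  have hηp : (p : ENNReal) * η = ρ / 2 := ENNReal.mul_div_cancel hpE hpT
  choose N0 hN0 using fun d : ℕ => hLO Ω P Y hm hind hid hnd d η hη0
  set N : ℕ := (range p).sup N0 with hN
  have hNge : ∀ d < p, N0 d ≤ N := fun d hd => Finset.le_sup (f := N0) (mem_range.mpr hd)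
  have hδex : ∀ d : ℕ, ∃ δ : ℝ, 0 < δ ∧ (d < p → ∀ a : ℕ → ℂ, 1 ≤ ‖a d‖ →
      P {ω | ‖∑ j ∈ range (d+1), a j * es (range N) j (fun i => Y i ω)‖ ≤ δ} ≤ η) := by
    intro d
    by_cases hd : d < p
    · obtain ⟨δ, h1, h2⟩ := hN0 d N (hNge d hd)
      exact ⟨δ, h1, fun _ => h2⟩
    · exact ⟨1, one_pos, fun h => absurd h hd⟩
  choose δf hδ1 hδ2 using hδex
  obtain ⟨d0, hd0, hd0min⟩ := Finset.exists_min_image (range p) δf ⟨0, mem_range.mpr (by omega)⟩
  set δ : ℝ := δf d0 with hδ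
  have hδ0 : 0 < δ := hδ1 d0
  have hδLO : ∀ d < p, ∀ a : ℕ → ℂ, 1 ≤ ‖a d‖ →
      P {ω | ‖∑ j ∈ range (d+1), a j * es (range N) j (fun i => Y i ω)‖ ≤ δ} ≤ η := by
    intro d hd a ha
    refine le_trans (measure_mono ?_) (hδ2 d hd a ha)
    intro ω hω
    exact le_trans hω (hd0min d (mem_range.mpr hd))
  -- parameters
  obtain ⟨lam, hl1, hl2, hl3⟩ : ∃ lam : ℝ, 2 * M ≤ lam ∧ 4 * M^(p+1) ≤ c * lam ∧
      (1+M)^N ≤ lam * (δ/2) := by
    refine ⟨2*M + 4*M^(p+1)/c + (1+M)^N * 2 / δ, ?_, ?_, ?_⟩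
    · have h1 : 0 ≤ 4*M^(p+1)/c := by positivity
      have h2 : 0 ≤ (1+M)^N * 2 / δ := by positivity
      linarith
    · have h1 : c * (4*M^(p+1)/c) = 4*M^(p+1) := by field_simp
      have h2 : 0 ≤ (1+M)^N * 2 / δ := by positivity
      have h3 : 0 ≤ c * (2*M + (1+M)^N * 2 / δ) := by positivity
      nlinarith
    · have h1 : ((1+M)^N * 2 / δ) * (δ/2) = (1+M)^N := by field_simp
      have h2 : 0 ≤ (2*M + 4*M^(p+1)/c) * (δ/2) := by positivity
      nlinarith
  have hlam0 : 0 < lam := by linarith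
  have hlam1 : 1 ≤ lam := by linarith
  have hlp : 0 < lam^p := by positivity
  have hpR : (0:ℝ) < p := by
    have : 0 < p := by omega
    exact_mod_cast this
  set τ : ℝ := c / (8 * p * lam^p) with hτ
  set κ : ℝ := c / (8 * lam^p) with hκ
  have hτ0 : 0 < τ := by positivity
  have hκ0 : 0 < κ := by positivity
  have hτκ : (κ + τ * p) * lam^p < c/2 := by
    have : (κ + τ * p) * lam^p = c/4 := by
      rw [hκ, hτ]
      field_simp
      ring
    rw [this]; linarith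
  -- shifted sequence
  have hinj : Function.Injective (fun i : ℕ => N + i) := fun a b h => by
    simp only at h; omega
  have hYs_ind : iIndepFun (fun i => Y (N+i)) P := hind.precomp hinj
  have hYs_id : ∀ i, IdentDistrib (Y (N+i)) (Y (N+0)) P P := fun i => (hid _).trans (hid _).symm
  have hmomN : ∀ j : ℕ, ∫ ω, (Y (N+0) ω)^j ∂P = ∫ ω, (Y 0 ω)^j ∂P := by
    intro j
    exact ((hid (N+0)).comp (measurable_id.pow_const j)).integral_eq
  have hLL := hLLN Ω P (fun i => Y (N+i)) (fun i => hm _) hYs_ind hYs_id M (hMi (N+0)) p c τ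
    (by rw [hmomN]; rw [hc]; linarith) hτ0 (fun j h1 h2 => by rw [hmomN]; exact hmin j h1 h2)
  have hsub : Tendsto (fun n : ℕ => n - N) atTop atTop := tendsto_sub_atTop_nat N
  have hLL2 := (ENNReal.tendsto_nhds_zero.mp (hLL.comp hsub)) (ρ/2) hρ2
  have hkκ : ∀ᶠ n in atTop, (k n : ℝ)/n < κ/2 := hk.eventually_lt_const (by positivity)
  have hexp : ∀ᶠ n : ℕ in atTop, Real.exp (-(ε * n)) ≤ δ/2 := by
    have h1 : Tendsto (fun n : ℕ => Real.exp (-(ε * n))) atTop (𝓝 0) := by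
      apply Real.tendsto_exp_neg_atTop_nhds_zero.comp
      exact Tendsto.const_mul_atTop hε tendsto_natCast_atTop_atTop
    exact (h1.eventually_lt_const (by positivity)).mono (fun n hn => hn.le)
  filter_upwards [hLL2, hkκ, hexp, eventually_ge_atTop (2*N+1)] with n g1 g2 g3 g4
  obtain ⟨m, rfl⟩ : ∃ m, n = N + m := ⟨n - N, by omega⟩
  have hmsub : N + m - N = m := by omega
  have hm1 : 0 < m := by omega
  have hmR : (0:ℝ) < m := by exact_mod_cast hm1
  have hNm : (N:ℝ) ≤ m := by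
    have : N ≤ m := by omega
    exact_mod_cast this
  set K := k (N+m) with hK
  have hKm : (K:ℝ) ≤ κ * m := by
    rw [div_lt_iff₀ (by push_cast; have := Nat.cast_nonneg (α := ℝ) N; linarith)] at g2
    push_cast at g2
    nlinarith
  rw [Function.comp_apply, hmsub] at g1
  -- covering
  have hcover : P {ω | ‖es (range (N+m)) K (fun i => Y i ω)‖ ≤ Real.exp (-(ε * ((N+m : ℕ):ℝ)))} ≤
      P ({ω | ¬ (c * m ≤ ‖∑ i ∈ range m, (Y (N+i) ω)^p‖ ∧
        ∀ j, 1 ≤ j → j < p → ‖∑ i ∈ range m, (Y (N+i) ω)^j‖ ≤ τ * m)} ∪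
        ⋃ d ∈ (range p).filter (fun d => d ≤ K),
          {ω | (ff N m K (fun i => Y i ω), gg N (fun i => Y i ω)) ∈ SS K d lam δ}) := by
    apply measure_mono_ae
    filter_upwards [hball] with ω hω hmem
    by_cases hgood : c * m ≤ ‖∑ i ∈ range m, (Y (N+i) ω)^p‖ ∧
        ∀ j, 1 ≤ j → j < p → ‖∑ i ∈ range m, (Y (N+i) ω)^j‖ ≤ τ * m
    · right
      obtain ⟨j1, hj1p, hj1K, hj1⟩ := hWin (fun j => es (range m) j (fun i => Y (N+i) ω))
        (fun j => ∑ i ∈ range m, (Y (N+i) ω)^j) m p M c lam τ κ hp1 hm1 hM1 hc0 hτ0.le hκ0.le hl1 hl2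
        hτκ (es_zero _ _) (fun j => hNewton m (fun i => Y (N+i) ω) j) hgood.1 hgood.2
        (fun j => by
          refine (norm_sum_le _ _).trans ?_
          calc ∑ i ∈ range m, ‖(Y (N+i) ω)^j‖ ≤ ∑ i ∈ range m, M^j := by
                apply sum_le_sum
                intro i _
                rw [norm_pow]
                exact pow_le_pow_left₀ (norm_nonneg _) (hω _) j
            _ = m * M^j := by rw [sum_const, card_range, nsmul_eq_mul]) K hKm
      rw [Set.mem_iUnion₂]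
      refine ⟨j1, mem_filter.mpr ⟨mem_range.mpr hj1p, hj1K⟩, ?_, ?_, ?_⟩
      · intro j hj
        show ‖ff N m K (fun i => Y i ω) j‖ * lam^j ≤ lam^j1 * ‖ff N m K (fun i => Y i ω) j1‖
        unfold ff
        rw [if_pos hj, if_pos hj1K]
        exact hj1 j hj
      · show 1 ≤ ‖ff N m K (fun i => Y i ω) j1‖
        unfold ff
        rw [if_pos hj1K]
        have h1 := hj1 K le_rfl
        simp only [Nat.sub_self, es_zero, norm_one, one_mul] at h1
        have h2 : lam^j1 ≤ lam^K := pow_le_pow_right₀ hlam1 hj1K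
        have h3 : 0 < lam^j1 := by positivity
        have h4 : lam^j1 * 1 ≤ lam^j1 * ‖es (range m) (K-j1) (fun i => Y (N+i) ω)‖ := by
          rw [mul_one]; exact h2.trans h1
        exact le_of_mul_le_mul_left h4 h3
      · show ‖∑ j ∈ range (K+1), gg N (fun i => Y i ω) j * ff N m K (fun i => Y i ω) j‖ ≤ δ/2
        have h5 : ∑ j ∈ range (K+1), gg N (fun i => Y i ω) j * ff N m K (fun i => Y i ω) j =
            es (range (N+m)) K (fun i => Y i ω) := by
          rw [hSplit N m K (fun i => Y i ω)]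
          apply sum_congr rfl
          intro j hj
          unfold gg ff
          rw [if_pos (by rw [mem_range] at hj; omega)]
        rw [h5]
        exact le_trans hmem g3
    · left
      exact hgood
  refine hcover.trans ?_
  refine (measure_union_le _ _).trans ?_
  have hun : P (⋃ d ∈ (range p).filter (fun d => d ≤ K),
      {ω | (ff N m K (fun i => Y i ω), gg N (fun i => Y i ω)) ∈ SS K d lam δ}) ≤ ρ/2 := by
    refine (measure_biUnion_finset_le _ _).trans ?_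
    calc ∑ d ∈ (range p).filter (fun d => d ≤ K),
          P {ω | (ff N m K (fun i => Y i ω), gg N (fun i => Y i ω)) ∈ SS K d lam δ}
        ≤ ∑ d ∈ (range p).filter (fun d => d ≤ K), η := by
          apply sum_le_sum
          intro d hd
          rw [mem_filter, mem_range] at hd
          exact one_index hSec Ω P Y hm hind N m K d M lam δ hM1 hl1 hl3 hδ0 hball hd.2 η
            (hδLO d hd.1)
      _ ≤ ∑ d ∈ range p, η := sum_le_sum_of_subset (filter_subset _ _)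
      _ = ρ/2 := by rw [sum_const, card_range, nsmul_eq_mul, hηp]
  calc _ ≤ ρ/2 + ρ/2 := add_le_add g1 hun
    _ = ρ := ENNReal.add_halves ρ

end Pool.Agent.H704R3.B
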