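import Mathlib

set_option autoImplicit false
set_option linter.unusedVariables false

namespace Pool.Agent.H704R3.B
open Finset Filter Topology MeasureTheory ProbabilityTheory

lemma exists_moment {Ω : Type} [MeasurableSpace Ω] (P : Measure Ω) [IsProbabilityMeasure P]
    (X : Ω → ℂ) (hX : Measurable X) (F : Finset ℂ) (hF : ∀ᵐ ω ∂P, X ω ∈ F)
    (hnd : ¬ ∃ c : ℂ, ∀ᵐ ω ∂P, X ω = c) : ∃ p : ℕ, 1 ≤ p ∧ ∫ ω, (X ω)^p ∂P ≠ 0 := by
  classical
  by_contra hcon
  push Not at hcon
  obtain ⟨z0, hz0F, hz00, hz0⟩ : ∃ z0 ∈ F, z0 ≠ 0 ∧ P {ω | X ω = z0} ≠ 0 := by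
    by_contra h
    push Not at h
    apply hnd
    refine ⟨0, ?_⟩
    have h1 : P (⋃ z ∈ F.erase 0, {ω | X ω = z}) = 0 := by
      refine le_antisymm ((measure_biUnion_finset_le _ _).trans (le_of_eq ?_)) bot_le
      apply sum_eq_zero
      intro z hz
      rw [Finset.mem_erase] at hz
      exact h z hz.2 hz.1
    have h2 : ∀ᵐ ω ∂P, ω ∉ (⋃ z ∈ F.erase 0, {ω | X ω = z}) := measure_eq_zero_iff_ae_notMem.mp h1
    filter_upwards [hF, h2] with ω h3 h4
    by_contra h5
    apply h4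
    rw [Set.mem_iUnion₂]
    exact ⟨X ω, Finset.mem_erase.mpr ⟨h5, h3⟩, rfl⟩
  obtain ⟨R, hR⟩ : ∃ R : ℝ, ∀ z ∈ F, ‖z‖ ≤ R :=
    ⟨∑ z ∈ F, ‖z‖, fun z hz => Finset.single_le_sum (f := fun z => ‖z‖) (fun _ _ => norm_nonneg _) hz⟩
  have hint : ∀ i : ℕ, Integrable (fun ω => (X ω)^i) P := by
    intro i
    refine Integrable.of_bound (hX.pow_const i).aestronglyMeasurable (R^i) ?_
    filter_upwards [hF] with ω hω
    rw [norm_pow]
    exact pow_le_pow_left₀ (norm_nonneg _) (hR _ hω) i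
  set q : Polynomial ℂ := Polynomial.X * ∏ w ∈ F.erase z0, (Polynomial.X - Polynomial.C w) with hq
  have hq0 : q.coeff 0 = 0 := by
    rw [hq, Polynomial.mul_coeff_zero, Polynomial.coeff_X_zero, zero_mul]
  have h1 : ∫ ω, q.eval (X ω) ∂P = 0 := by
    have h2 : ∀ ω, q.eval (X ω) = ∑ i ∈ range (q.natDegree+1), q.coeff i * (X ω)^i :=
      fun ω => Polynomial.eval_eq_sum_range (p := q) (X ω)
    simp_rw [h2]
    rw [integral_finsetSum]
    · apply sum_eq_zero
      intro i _
      rw [integral_const_mul]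
      rcases Nat.eq_zero_or_pos i with h0 | hi
      · rw [h0, hq0, zero_mul]
      · rw [hcon i hi, mul_zero]
    · intro i _
      exact (hint i).const_mul _
  have hms : MeasurableSet {ω | X ω = z0} := hX (measurableSet_singleton z0)
  have h2 : ∫ ω, q.eval (X ω) ∂P = (P.real {ω | X ω = z0}) • q.eval z0 := by
    have h3 : (fun ω => q.eval (X ω)) =ᵐ[P] Set.indicator {ω | X ω = z0} (fun _ => q.eval z0) := by
      filter_upwards [hF] with ω hω
      by_cases h : X ω = z0
      · rw [Set.indicator_of_mem (by exact h), h]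
      · rw [Set.indicator_of_notMem (by exact h)]
        rw [hq, Polynomial.eval_mul, Polynomial.eval_prod,
          Finset.prod_eq_zero (Finset.mem_erase.mpr ⟨h, hω⟩) (by simp), mul_zero]
    rw [integral_congr_ae h3, integral_indicator_const _ hms]
  rw [h1] at h2
  have h4 : q.eval z0 ≠ 0 := by
    rw [hq, Polynomial.eval_mul, Polynomial.eval_prod, Polynomial.eval_X]
    apply mul_ne_zero hz00
    rw [Finset.prod_ne_zero_iff]
    intro w hw
    rw [Polynomial.eval_sub, Polynomial.eval_X, Polynomial.eval_C]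
    exact sub_ne_zero.mpr (Finset.ne_of_mem_erase hw).symm
  have h5 : P.real {ω | X ω = z0} ≠ 0 := by
    rw [Measure.real, ENNReal.toReal_ne_zero]
    exact ⟨hz0, measure_ne_top _ _⟩
  exact (smul_ne_zero h5 h4) h2.symm

end Pool.Agent.H704R3.B
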