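import Pool.Agent.H704R3.BStmts

set_option autoImplicit false

namespace Pool.Agent.H704R3.B
open Finset Filter Topology MeasureTheory ProbabilityTheory Pool.Agent.H704R3

/-- expansion of the elementary symmetric polynomials without one variable -/
theorem es_erase_expand (S : Finset ℕ) (v : ℕ → ℂ) (i : ℕ) (hi : i ∈ S) :
    ∀ k : ℕ, es (S.erase i) k v = ∑ j ∈ range (k + 1), (-1) ^ j * v i ^ j * es S (k - j) v := by
  intro k
  induction k with
  | zero => simp
  | succ k ih =>
    have h := es_erase hi k v
    have h1 : es (S.erase i) (k + 1) v = es S (k + 1) v - v i * es (S.erase i) k v := by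
      rw [h]; ring
    rw [h1, ih, sum_range_succ' _ (k + 1), mul_sum]
    have h2 : ∀ j ∈ range (k + 1), (-1 : ℂ) ^ (j + 1) * v i ^ (j + 1) * es S (k + 1 - (j + 1)) v =
        -(v i * ((-1) ^ j * v i ^ j * es S (k - j) v)) := by
      intro j _
      rw [Nat.add_sub_add_right]
      ring
    rw [sum_congr rfl h2, sum_neg_distrib]
    simp only [pow_zero, Nat.sub_zero, one_mul]
    ring

theorem tnewton : TNewton := by
  intro n v k
  cases k with
  | zero => simp
  | succ k =>
    have h := sum_mul_es_erase (range n) v k
    push_cast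
    rw [← h]
    have h1 : ∀ i ∈ range n, v i * es ((range n).erase i) k v =
        ∑ j ∈ range (k + 1), (-1) ^ j * v i ^ (j + 1) * es (range n) (k - j) v := by
      intro i hi
      rw [es_erase_expand (range n) v i hi k, mul_sum]
      exact sum_congr rfl fun j _ => by ring
    rw [sum_congr rfl h1, sum_comm]
    refine sum_congr rfl fun j _ => ?_
    rw [mul_sum, sum_mul]

end Pool.Agent.H704R3.B
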