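import Pool.Agent.H704R3.BStmts

set_option autoImplicit false

/-! Project ESP704, task TOne (helper195): small balls for sums of differences. -/

namespace Pool.Agent.H704R3.B.One

open Finset Filter Topology MeasureTheory ProbabilityTheory Pool.Agent.H704R3
open scoped ENNReal

variable {Ω : Type} [MeasurableSpace Ω] {P : Measure Ω} [IsProbabilityMeasure P]

/-- blocks of two -/
def blk (Z : ℕ → Ω → ℝ) (k : ℕ) (ω : Ω) (j : Fin 2) : ℝ := Z (k * 2 + j) ω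

lemma blk_measurable {Z : ℕ → Ω → ℝ} (hm : ∀ i, Measurable (Z i)) (k : ℕ) :
    Measurable (blk Z k) := measurable_pi_iff.mpr fun _ => hm _

lemma blk_indep {Z : ℕ → Ω → ℝ} (hm : ∀ i, Measurable (Z i)) (hind : iIndepFun Z P) :
    iIndepFun (blk Z) P := by
  have hinj : Function.Injective (fun p : ℕ × Fin 2 => p.1 * 2 + p.2) := by
    rintro ⟨k, j⟩ ⟨k', j'⟩ he
    simp only at he
    have h1 : k = k' := by have := j.2; have := j'.2; omega
    subst h1
    have : (j : ℕ) = j' := by omega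
    rw [Fin.ext this]
  have h1 := hind.precomp hinj
  have h2 := h1.map_fun_eq_infinitePi_map (fun p => hm _)
  rw [iIndepFun_iff_map_fun_eq_infinitePi_map (blk_measurable hm)]
  have h3 : (fun ω k => blk Z k ω) = (MeasurableEquiv.curry ℕ (Fin 2) _) ∘
      (fun ω (p : ℕ × Fin 2) => Z (p.1 * 2 + p.2) ω) := by
    ext1 ω
    rfl
  have hpr : ∀ k (j : Fin 2), IsProbabilityMeasure (P.map (Z (k * 2 + j))) :=
    fun k j => Measure.isProbabilityMeasure_map (hm _).aemeasurable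
  rw [h3, ← Measure.map_map (MeasurableEquiv.measurable _)
    (measurable_pi_iff.mpr fun p => hm _)]
  have h2' : P.map (fun ω (p : ℕ × Fin 2) => Z (p.1 * 2 + p.2) ω) =
      Measure.infinitePi (fun p : ℕ × Fin 2 => P.map (Z (p.1 * 2 + p.2))) := h2
  rw [h2', Measure.infinitePi_map_curry (fun k (j : Fin 2) => P.map (Z (k * 2 + j)))]
  congr 1
  ext1 k
  have h4 := (hind.precomp (g := fun j : Fin 2 => k * 2 + (j : ℕ)) (fun i j hij => by
    simp only at hij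
    exact Fin.ext (by omega))).map_fun_eq_infinitePi_map (fun p => hm _)
  exact h4.symm

/-- differences -/
def R (Z : ℕ → Ω → ℝ) (k : ℕ) (ω : Ω) : ℝ := Z (2 * k) ω - Z (2 * k + 1) ω

lemma R_indep {Z : ℕ → Ω → ℝ} (hm : ∀ i, Measurable (Z i)) (hind : iIndepFun Z P) :
    iIndepFun (R Z) P := by
  have h := (blk_indep hm hind).comp (fun _ (v : Fin 2 → ℝ) => v 0 - v 1)
    (fun _ => (measurable_pi_apply 0).sub (measurable_pi_apply 1))
  have e : (fun i => (fun (v : Fin 2 → ℝ) => v 0 - v 1) ∘ blk Z i) = R Z := by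
    funext k ω
    simp [blk, R, mul_comm]
  rw [← e]
  exact h

lemma R_ident {Z : ℕ → Ω → ℝ} (hind : iIndepFun Z P)
    (hid : ∀ i, IdentDistrib (Z i) (Z 0) P P) (i : ℕ) : IdentDistrib (R Z i) (R Z 0) P P := by
  have i1 : IndepFun (Z (2*i)) (Z (2*i+1)) P := hind.indepFun (by omega)
  have i2 : IndepFun (Z (2*0)) (Z (2*0+1)) P := hind.indepFun (by omega)
  have h1 : IdentDistrib (fun ω => (Z (2*i) ω, Z (2*i+1) ω)) (fun ω => (Z (2*0) ω, Z (2*0+1) ω)) P P :=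
    IdentDistrib.prodMk ((hid _).trans (hid _).symm) ((hid _).trans (hid _).symm) i1 i2
  exact h1.comp (u := fun p : ℝ × ℝ => p.1 - p.2) (measurable_fst.sub measurable_snd)

lemma R_nd {Z : ℕ → Ω → ℝ} (hm : ∀ i, Measurable (Z i)) (hind : iIndepFun Z P)
    (hid : ∀ i, IdentDistrib (Z i) (Z 0) P P) (hnd : ¬ ∃ c : ℝ, ∀ᵐ ω ∂P, Z 0 ω = c) :
    ¬ ∃ c : ℝ, ∀ᵐ ω ∂P, R Z 0 ω = c := by
  rintro ⟨c, hc⟩
  obtain ⟨q, hq1, hq2⟩ := exists_split P (Z 0) (hm 0) hnd
  have hind01 : IndepFun (Z 0) (Z 1) P := hind.indepFun (by norm_num)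
  have m1 : MeasurableSet {x : ℝ | x ≤ q} := measurableSet_Iic
  have m2 : MeasurableSet {x : ℝ | q < x} := measurableSet_Ioi
  have e1 : P (Z 0 ⁻¹' {x | x ≤ q} ∩ Z 1 ⁻¹' {x | q < x}) ≠ 0 := by
    rw [hind01.measure_inter_preimage_eq_mul _ _ m1 m2, (hid 1).measure_mem_eq m2]
    exact mul_ne_zero hq1 hq2
  have e2 : P (Z 0 ⁻¹' {x | q < x} ∩ Z 1 ⁻¹' {x | x ≤ q}) ≠ 0 := by
    rw [hind01.measure_inter_preimage_eq_mul _ _ m2 m1, (hid 1).measure_mem_eq m1]
    exact mul_ne_zero hq2 hq1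
  have hc' : P {ω | R Z 0 ω ≠ c} = 0 := hc
  have c1 : c < 0 := by
    by_contra hcon
    apply e1
    refine measure_mono_null ?_ hc'
    rintro ω ⟨h1, h2⟩
    have h1' : Z 0 ω ≤ q := h1
    have h2' : q < Z 1 ω := h2
    show R Z 0 ω ≠ c
    simp only [R, mul_zero, zero_add]
    intro h
    linarith
  have c2 : 0 < c := by
    by_contra hcon
    apply e2
    refine measure_mono_null ?_ hc'
    rintro ω ⟨h1, h2⟩
    have h1' : q < Z 0 ω := h1
    have h2' : Z 1 ω ≤ q := h2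
    show R Z 0 ω ≠ c
    simp only [R, mul_zero, zero_add]
    intro h
    linarith
  linarith

lemma es_one' (n : ℕ) (x : ℕ → ℝ) : es (range n) 1 x = ∑ i ∈ range n, x i := by
  unfold es
  rw [Finset.powersetCard_one, Finset.sum_map]
  simp

lemma core (Y : ℕ → Ω → ℂ) (hm : ∀ i, Measurable (Y i)) (hind : iIndepFun Y P)
    (hid : ∀ i, IdentDistrib (Y i) (Y 0) P P) (L : ℂ →ₗ[ℝ] ℝ) (hL : Measurable L)
    (hb : ∀ z, |L z| ≤ ‖z‖) (hnd : ¬ ∃ c : ℝ, ∀ᵐ ω ∂P, L (Y 0 ω) = c) (η : ENNReal) (hη : 0 < η) :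
    ∃ N : ℕ, ∃ s : ℝ, 0 < s ∧ P {ω | ‖∑ i ∈ range N, (Y (2*i) ω - Y (2*i+1) ω)‖ < s} ≤ η := by
  let Z : ℕ → Ω → ℝ := fun i ω => L (Y i ω)
  have hZm : ∀ i, Measurable (Z i) := fun i => hL.comp (hm i)
  have hZind : iIndepFun Z P := hind.comp (fun _ => L) (fun _ => hL)
  have hZid : ∀ i, IdentDistrib (Z i) (Z 0) P P := fun i => (hid i).comp hL
  have hk : Tendsto (fun n : ℕ => (((fun _ => 1 : ℕ → ℕ) n : ℕ) : ℝ) / (n : ℝ)) atTop (𝓝 0) := by
    simpa using tendsto_one_div_atTop_nhds_zero_nat (𝕜 := ℝ)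
  have h := real_case P (R Z) (fun i => (hZm _).sub (hZm _)) (R_indep hZm hZind)
    (R_ident hZind hZid) (R_nd hZm hZind hZid hnd) (fun _ => 1) hk 1 one_pos
  obtain ⟨n, hn⟩ := ((tendsto_order.1 h).2 η hη).exists
  refine ⟨n, Real.exp (-(1 * n)), Real.exp_pos _, le_trans (measure_mono ?_) hn.le⟩
  intro ω hω
  have hω' : ‖∑ i ∈ range n, (Y (2*i) ω - Y (2*i+1) ω)‖ < Real.exp (-(1 * n)) := hω
  show |es (range n) 1 (fun i => R Z i ω)| ≤ Real.exp (-(1 * n))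
  rw [es_one']
  have e : ∑ i ∈ range n, R Z i ω = L (∑ i ∈ range n, (Y (2*i) ω - Y (2*i+1) ω)) := by
    rw [map_sum]
    apply Finset.sum_congr rfl
    intro i _
    rw [map_sub]
    rfl
  rw [e]
  exact (hb _).trans hω'.le

end Pool.Agent.H704R3.B.One

namespace Pool.Agent.H704R3.B

open MeasureTheory ProbabilityTheory in
/-- degree one -/
theorem tone : TOne := by
  intro Ω _ P _ Y hm hind hid hnd η hη
  by_cases h1 : ∃ c : ℝ, ∀ᵐ ω ∂P, (Y 0 ω).re = c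
  · by_cases h2 : ∃ c : ℝ, ∀ᵐ ω ∂P, (Y 0 ω).im = c
    · exfalso
      obtain ⟨c1, h1⟩ := h1
      obtain ⟨c2, h2⟩ := h2
      apply hnd
      refine ⟨⟨c1, c2⟩, ?_⟩
      filter_upwards [h1, h2] with ω g1 g2
      exact Complex.ext g1 g2
    · exact One.core Y hm hind hid Complex.imLm Complex.measurable_im Complex.abs_im_le_norm h2 η hη
  · exact One.core Y hm hind hid Complex.reLm Complex.measurable_re Complex.abs_re_le_norm h1 η hη

end Pool.Agent.H704R3.B
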