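import Mathlib
import Pool.Agent.H704R3.BStmts

/-! # TSection of project ESP704 (helper729) -/

set_option autoImplicit false

namespace Pool.Agent.H704R3.B
open Finset Filter Topology MeasureTheory ProbabilityTheory Pool.Agent.H704R3

/-- extension by zero -/
noncomputable def extZ (A : Finset ℕ) (u : A → ℂ) : ℕ → ℂ :=
  fun i => if h : i ∈ A then u ⟨i, h⟩ else 0

lemma measurable_extZ (A : Finset ℕ) : Measurable (extZ A) := by
  refine measurable_pi_lambda _ fun i => ?_
  by_cases h : i ∈ A
  · have : (fun u : A → ℂ => extZ A u i) = fun u => u ⟨i, h⟩ := by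
      funext u
      simp [extZ, h]
    rw [this]
    exact measurable_pi_apply _
  · have : (fun u : A → ℂ => extZ A u i) = fun _ => 0 := by
      funext u
      simp [extZ, h]
    rw [this]
    exact measurable_const

theorem tsection : TSection := by
  intro Ω _ P _ Y hY hind A B hAB f g hf hg hfA hgB S hS η hη
  have h1 : IndepFun (fun ω (i : A) => Y i ω) (fun ω (i : B) => Y i ω) P :=
    hind.indepFun_finset A B hAB hY
  have h2 := h1.comp (hf.comp (measurable_extZ A)) (hg.comp (measurable_extZ B))
  have eF : (f ∘ extZ A) ∘ (fun ω (i : A) => Y i ω) = fun ω => f (fun i => Y i ω) := by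
    funext ω
    refine hfA _ _ fun i hi => ?_
    simp [extZ, hi]
  have eG : (g ∘ extZ B) ∘ (fun ω (i : B) => Y i ω) = fun ω => g (fun i => Y i ω) := by
    funext ω
    refine hgB _ _ fun i hi => ?_
    simp [extZ, hi]
  rw [eF, eG] at h2
  have hYm : Measurable fun ω => (fun i => Y i ω : ℕ → ℂ) := measurable_pi_lambda _ hY
  have hF : Measurable fun ω => f (fun i => Y i ω) := hf.comp hYm
  have hG : Measurable fun ω => g (fun i => Y i ω) := hg.comp hYm
  have h3 := (indepFun_iff_map_prod_eq_prod_map_map hF.aemeasurable hG.aemeasurable).1 h2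
  have : IsProbabilityMeasure (P.map fun ω => f (fun i => Y i ω)) :=
    Measure.isProbabilityMeasure_map hF.aemeasurable
  have : IsProbabilityMeasure (P.map fun ω => g (fun i => Y i ω)) :=
    Measure.isProbabilityMeasure_map hG.aemeasurable
  calc P {ω | (f (fun i => Y i ω), g (fun i => Y i ω)) ∈ S}
      = (P.map fun ω => (f (fun i => Y i ω), g (fun i => Y i ω))) S := by
        rw [Measure.map_apply (hF.prodMk hG) hS]
        rfl
    _ = ((P.map fun ω => f (fun i => Y i ω)).prod (P.map fun ω => g (fun i => Y i ω))) S := by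
        rw [h3]
    _ = ∫⁻ x, (P.map fun ω => g (fun i => Y i ω)) (Prod.mk x ⁻¹' S)
          ∂(P.map fun ω => f (fun i => Y i ω)) := Measure.prod_apply hS
    _ ≤ ∫⁻ _, η ∂(P.map fun ω => f (fun i => Y i ω)) := by
        refine lintegral_mono fun x => ?_
        rw [Measure.map_apply hG (measurable_prodMk_left hS)]
        exact hη x
    _ = η := by simp

end Pool.Agent.H704R3.B
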