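import Mathlib
import Pool.Agent.H704R3.BStmts

set_option autoImplicit false

namespace Pool.Agent.H704R3.B
open Finset Pool.Agent.H704R3

theorem tsplit : TSplit := by
  intro N m
  induction m with
  | zero =>
    intro k v
    rw [Finset.sum_range_succ, Finset.sum_eq_zero]
    · simp
    · intro j hj
      have hj' : j < k := Finset.mem_range.mp hj
      rw [es_eq_zero (range 0) (k - j) _ (by simp; omega), mul_zero]
  | succ m ih =>
    intro k v
    have h1 : range (N + (m + 1)) = insert (N + m) (range (N + m)) := by
      rw [← Nat.add_assoc, Finset.range_add_one]
    have h2 : range (m + 1) = insert m (range m) := Finset.range_add_one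
    cases k with
    | zero => simp
    | succ k =>
      rw [h1, es_insert (by simp), ih (k + 1) v, ih k v, Finset.sum_range_succ,
        Finset.sum_range_succ (fun j => es (range N) j v *
          es (range (m + 1)) (k + 1 - j) (fun i => v (N + i))) (k + 1)]
      have h3 : ∀ j ∈ range (k + 1), es (range N) j v *
          es (range (m + 1)) (k + 1 - j) (fun i => v (N + i)) =
          es (range N) j v * es (range m) (k + 1 - j) (fun i => v (N + i))
            + v (N + m) * (es (range N) j v * es (range m) (k - j) (fun i => v (N + i))) := by
        intro j hj
        have hj' : j ≤ k := Nat.lt_succ_iff.mp (Finset.mem_range.mp hj)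
        have h4 : k + 1 - j = (k - j) + 1 := by omega
        rw [h4, h2, es_insert (by simp)]
        ring
      rw [Finset.sum_congr rfl h3, Finset.sum_add_distrib, ← Finset.mul_sum]
      simp only [Nat.sub_self, es_zero]
      ring

end Pool.Agent.H704R3.B
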