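import Pool.Agent.H704R3.BStmts

set_option autoImplicit false

/-! The deterministic window lemma. -/

namespace Pool.Agent.H704R3.B
open Finset

theorem geom_half (r : ℝ) (h0 : 0 ≤ r) (h1 : r ≤ 1 / 2) (m : ℕ) :
    ∑ i ∈ range m, r ^ (i + 1) ≤ 2 * r - 2 * r ^ (m + 1) := by
  induction m with
  | zero => simp
  | succ m ih =>
    rw [sum_range_succ]
    have h2 : r ^ (m + 1 + 1) = r ^ (m + 1) * r := pow_succ _ _
    have h3 : 0 ≤ r ^ (m + 1) := by positivity
    nlinarith

theorem window_step (e Q : ℕ → ℂ) (n q : ℕ) (M c lam τ κ : ℝ) (hn : 0 < n) (hM : 1 ≤ M)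
    (hτ : 0 ≤ τ) (hlM : 2 * M ≤ lam) (hcl : 4 * M ^ (q + 1 + 1) ≤ c * lam)
    (hsm : (κ + τ * ((q + 1 : ℕ) : ℝ)) * lam ^ (q + 1) < c / 2)
    (hN : ∀ k : ℕ, (k:ℂ) * e k = ∑ j ∈ range k, (-1)^j * Q (j+1) * e (k-1-j))
    (hQp : c * n ≤ ‖Q (q + 1)‖) (hQs : ∀ j, 1 ≤ j → j < q + 1 → ‖Q j‖ ≤ τ * n)
    (hQ : ∀ j, ‖Q j‖ ≤ n * M^j) (k : ℕ) (hk : ((k + 1 : ℕ) : ℝ) ≤ κ * n) (hqk : q ≤ k)
    (hIH : ∀ j ≤ k, ‖e (k-j)‖ * lam^j ≤ lam^q * ‖e (k-q)‖)
    (hlt : ‖e (k + 1)‖ < lam ^ (q + 1) * ‖e (k - q)‖) : False := by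
  obtain ⟨m, rfl⟩ := Nat.exists_eq_add_of_le hqk
  set X : ℝ := ‖e (q + m - q)‖ with hX
  have hlam : 2 ≤ lam := by linarith
  have hlam0 : 0 < lam := by linarith
  have hX0 : 0 < X := by
    by_contra h
    have h1 : lam ^ (q + 1) * X ≤ 0 := mul_nonpos_of_nonneg_of_nonpos (by positivity) (not_lt.1 h)
    have h2 := norm_nonneg (e (q + m + 1))
    linarith
  have hnr : (0 : ℝ) < n := by exact_mod_cast hn
  set f : ℕ → ℂ := fun j => (-1)^j * Q (j+1) * e (q + m + 1 - 1 - j) with hf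
  have hnf : ∀ j, ‖f j‖ = ‖Q (j+1)‖ * ‖e (q + m - j)‖ := by
    intro j
    rw [hf]
    simp only [norm_mul, norm_pow, norm_neg, norm_one, one_pow, one_mul, Nat.add_sub_cancel]
  have hsum : ((q + m + 1 : ℕ) : ℂ) * e (q + m + 1) =
      ∑ j ∈ range q, f j + f q + ∑ i ∈ range m, f (q + 1 + i) := by
    rw [hN (q + m + 1), show q + m + 1 = q + 1 + m by ring, Finset.sum_range_add,
      Finset.sum_range_succ]
    have h1 : q + 1 + m = q + m + 1 := by ring
    simp only [hf, h1]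
  have hfq : f q = ((q + m + 1 : ℕ) : ℂ) * e (q + m + 1) - ∑ j ∈ range q, f j -
      ∑ i ∈ range m, f (q + 1 + i) := by
    rw [hsum]; ring
  have h1 : ‖f q‖ ≤ ((q + m + 1 : ℕ) : ℝ) * ‖e (q + m + 1)‖ + ∑ j ∈ range q, ‖f j‖ +
      ∑ i ∈ range m, ‖f (q + 1 + i)‖ := by
    rw [hfq]
    refine (norm_sub_le _ _).trans (add_le_add ((norm_sub_le _ _).trans (add_le_add ?_ ?_)) ?_)
    · rw [norm_mul, Complex.norm_natCast]
    · exact norm_sum_le _ _
    · exact norm_sum_le _ _
  -- the small indices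
  have h2 : ∑ j ∈ range q, ‖f j‖ ≤ (q : ℝ) * (τ * n * (lam ^ (q + 1) * X)) := by
    calc ∑ j ∈ range q, ‖f j‖ ≤ ∑ _j ∈ range q, τ * n * (lam ^ (q + 1) * X) := by
          apply Finset.sum_le_sum
          intro j hj
          have hj' : j < q := Finset.mem_range.1 hj
          rw [hnf]
          apply mul_le_mul (hQs (j + 1) (by omega) (by omega)) _ (norm_nonneg _) (by positivity)
          have h3 := hIH j (by omega)
          have h4 : (1 : ℝ) ≤ lam ^ j := one_le_pow₀ (by linarith)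
          calc ‖e (q + m - j)‖ ≤ ‖e (q + m - j)‖ * lam ^ j := le_mul_of_one_le_right (norm_nonneg _) h4
            _ ≤ lam ^ q * X := h3
            _ ≤ lam ^ (q + 1) * X := by
                apply mul_le_mul_of_nonneg_right _ hX0.le
                exact pow_le_pow_right₀ (by linarith) (by omega)
      _ = _ := by rw [Finset.sum_const, card_range, nsmul_eq_mul]
  -- the large indices
  set r : ℝ := M / lam with hr
  have hr0 : 0 ≤ r := by positivity
  have hr1 : r ≤ 1 / 2 := by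
    rw [hr, div_le_div_iff₀ hlam0 two_pos]; linarith
  have h3 : ∑ i ∈ range m, ‖f (q + 1 + i)‖ ≤ n * M ^ (q + 1) * X * (2 * r) := by
    calc ∑ i ∈ range m, ‖f (q + 1 + i)‖ ≤ ∑ i ∈ range m, n * M ^ (q + 1) * X * r ^ (i + 1) := by
          apply Finset.sum_le_sum
          intro i hi
          have hi' : i < m := Finset.mem_range.1 hi
          rw [hnf]
          have h4 := hIH (q + 1 + i) (by omega)
          have h5 : ‖e (q + m - (q + 1 + i))‖ * lam ^ (i + 1) ≤ X := by
            have h6 : lam ^ (q + 1 + i) = lam ^ (i + 1) * lam ^ q := by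
              rw [← pow_add]; congr 1; ring
            rw [h6, ← mul_assoc, mul_comm (lam ^ q) X] at h4
            exact le_of_mul_le_mul_right h4 (by positivity)
          have h6 : ‖e (q + m - (q + 1 + i))‖ ≤ X / lam ^ (i + 1) := by
            rw [le_div_iff₀ (by positivity)]
            exact h5
          calc ‖Q (q + 1 + i + 1)‖ * ‖e (q + m - (q + 1 + i))‖
              ≤ (n * M ^ (q + 1 + i + 1)) * (X / lam ^ (i + 1)) :=
                mul_le_mul (hQ _) h6 (norm_nonneg _) (by positivity)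
            _ = n * M ^ (q + 1) * X * r ^ (i + 1) := by
                rw [hr, div_pow, show q + 1 + i + 1 = (q + 1) + (i + 1) by ring, pow_add]
                ring
      _ = n * M ^ (q + 1) * X * ∑ i ∈ range m, r ^ (i + 1) := by rw [Finset.mul_sum]
      _ ≤ n * M ^ (q + 1) * X * (2 * r) := by
          apply mul_le_mul_of_nonneg_left _ (by positivity)
          have h4 := geom_half r hr0 hr1 m
          have h5 : 0 ≤ r ^ (m + 1) := by positivity
          linarith
  have h4 : n * M ^ (q + 1) * X * (2 * r) ≤ n * X * (c / 2) := by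
    have h5 : M ^ (q + 1) * r * 4 ≤ c := by
      rw [hr, ← mul_div_assoc, ← pow_succ, div_mul_eq_mul_div, div_le_iff₀ hlam0]
      linarith
    have h6 : 0 < n * X := by positivity
    nlinarith
  -- the left side
  have h5 : c * n * X ≤ ‖f q‖ := by
    rw [hnf]
    exact mul_le_mul_of_nonneg_right hQp hX0.le
  have h6 : ((q + m + 1 : ℕ) : ℝ) * ‖e (q + m + 1)‖ ≤ κ * n * (lam ^ (q + 1) * X) :=
    mul_le_mul hk hlt.le (norm_nonneg _) ((Nat.cast_nonneg _).trans hk)
  have h7 : (q : ℝ) * (τ * n * (lam ^ (q + 1) * X)) ≤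
      ((q + 1 : ℕ) : ℝ) * (τ * n * (lam ^ (q + 1) * X)) := by
    apply mul_le_mul_of_nonneg_right _ (by positivity)
    exact_mod_cast Nat.le_succ q
  have h8 : (κ + τ * ((q + 1 : ℕ) : ℝ)) * lam ^ (q + 1) * (n * X) < c / 2 * (n * X) :=
    mul_lt_mul_of_pos_right hsm (by positivity)
  nlinarith [h1, h2, h3, h4, h5, h6, h7, h8]

theorem twindow : TWindow := by
  intro e Q n p M c lam τ κ hp hn hM hc hτ hκ hlM hcl hsm he0 hN hQp hQs hQ k
  obtain ⟨q, rfl⟩ := Nat.exists_eq_add_of_le' hp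
  have hlam0 : 0 < lam := by linarith
  induction k with
  | zero =>
    intro _
    refine ⟨0, by omega, le_rfl, ?_⟩
    intro j hj
    obtain rfl : j = 0 := by omega
    simp
  | succ k ih =>
    intro hk
    have hk' : (k : ℝ) ≤ κ * n := by
      push_cast at hk
      linarith
    obtain ⟨j0, hj0p, hj0k, hj0⟩ := ih hk'
    -- shifted inequality
    have hsh : ∀ J, 1 ≤ J → J ≤ k + 1 →
        ‖e (k + 1 - J)‖ * lam ^ J ≤ lam ^ (j0 + 1) * ‖e (k - j0)‖ := by
      intro J hJ1 hJ2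
      obtain ⟨j, rfl⟩ := Nat.exists_eq_add_of_le' hJ1
      have h1 := hj0 j (by omega)
      have h2 : k + 1 - (j + 1) = k - j := by omega
      rw [h2, pow_succ, pow_succ]
      have h3 : ‖e (k - j)‖ * (lam ^ j * lam) = (‖e (k - j)‖ * lam ^ j) * lam := by ring
      have h4 : lam ^ j0 * lam * ‖e (k - j0)‖ = (lam ^ j0 * ‖e (k - j0)‖) * lam := by ring
      rw [h3, h4]
      exact mul_le_mul_of_nonneg_right h1 hlam0.le
    by_cases hA : lam ^ (j0 + 1) * ‖e (k - j0)‖ ≤ ‖e (k + 1)‖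
    · refine ⟨0, by omega, by omega, ?_⟩
      intro J hJ
      rw [pow_zero, one_mul, Nat.sub_zero]
      rcases Nat.eq_zero_or_pos J with h | h
      · subst h
        simp
      · exact (hsh J h hJ).trans hA
    · have hlt := not_le.1 hA
      by_cases hB : j0 + 1 < q + 1
      · refine ⟨j0 + 1, hB, by omega, ?_⟩
        intro J hJ
        rw [show k + 1 - (j0 + 1) = k - j0 by omega]
        rcases Nat.eq_zero_or_pos J with h | h
        · subst h
          simpa using hlt.le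
        · exact hsh J h hJ
      · exfalso
        obtain rfl : j0 = q := by omega
        exact window_step e Q n j0 M c lam τ κ hn hM hτ hlM hcl hsm hN hQp hQs hQ k hk hj0k hj0 hlt

end Pool.Agent.H704R3.B
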